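import Pool.Agent.Q186.Cusp.Gen2

/-!
# Polynomials with nonnegative coefficients and a parabolic fixed point
-/

set_option autoImplicit false

open Metric Set Filter Topology

namespace Pool.Agent.Q186.Cusp.Gen

/-- The quotient of the second order of `x ^ j`. -/
noncomputable def gj (s : ℝ) (j : ℕ) (x : ℝ) : ℝ :=
  ∑ i ∈ Finset.range j, (∑ k ∈ Finset.range i, x ^ k * s ^ (i - 1 - k)) * s ^ (j - 1 - i)

theorem pow_eq (s : ℝ) (j : ℕ) (x : ℝ) :
    x ^ j = s ^ j + j * s ^ (j - 1) * (x - s) + (x - s) ^ 2 * gj s j x := by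
  have h2 : ∑ i ∈ Finset.range j, s ^ i * s ^ (j - 1 - i) = j * s ^ (j - 1) := by
    have h3 : ∀ i ∈ Finset.range j, s ^ i * s ^ (j - 1 - i) = s ^ (j - 1) := by
      intro i hi
      rw [Finset.mem_range] at hi
      rw [← pow_add]
      congr 1
      omega
    rw [Finset.sum_congr rfl h3, Finset.sum_const, Finset.card_range, nsmul_eq_mul]
  have h3 : ∑ i ∈ Finset.range j, x ^ i * s ^ (j - 1 - i) - j * s ^ (j - 1) =
      (x - s) * gj s j x := by
    rw [← h2, ← Finset.sum_sub_distrib]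
    unfold gj
    rw [Finset.mul_sum]
    apply Finset.sum_congr rfl
    intro i _
    rw [← sub_mul, ← mul_assoc]
    congr 1
    have h4 := (Commute.all x s).geom_sum₂_mul i
    rw [← h4, mul_comm]
  have h4 := (Commute.all x s).geom_sum₂_mul j
  have h5 : ∑ i ∈ Finset.range j, x ^ i * s ^ (j - 1 - i) = j * s ^ (j - 1) +
      (x - s) * gj s j x := by
    linarith
  rw [h5] at h4
  linarith

theorem gj_nonneg {s : ℝ} (hs : 0 ≤ s) (j : ℕ) {x : ℝ} (hx : 0 ≤ x) : 0 ≤ gj s j x := by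
  unfold gj
  exact Finset.sum_nonneg fun i _ => mul_nonneg (Finset.sum_nonneg fun k _ => by positivity)
    (by positivity)

theorem gj_ge {s : ℝ} (hs : 0 ≤ s) {j : ℕ} (hj : 2 ≤ j) {x : ℝ} (hx : 0 ≤ x) :
    s ^ (j - 2) ≤ gj s j x := by
  unfold gj
  have h1 : ∀ i ∈ Finset.range j, 0 ≤
      (∑ k ∈ Finset.range i, x ^ k * s ^ (i - 1 - k)) * s ^ (j - 1 - i) := fun i _ =>
    mul_nonneg (Finset.sum_nonneg fun k _ => by positivity) (by positivity)
  have h2 := Finset.single_le_sum h1 (Finset.mem_range.2 (show 1 < j by omega))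
  refine le_trans (le_of_eq ?_) h2
  simp
  congr 1

theorem gj_self (s : ℝ) (j : ℕ) : gj s j s = j * (j - 1) / 2 * s ^ (j - 2) := by
  unfold gj
  have h1 : ∀ i ∈ Finset.range j, (∑ k ∈ Finset.range i, s ^ k * s ^ (i - 1 - k)) *
      s ^ (j - 1 - i) = i * s ^ (j - 2) := by
    intro i hi
    rw [Finset.mem_range] at hi
    rcases Nat.eq_zero_or_pos i with h0 | h0
    · rw [h0]; simp
    · have h2 : ∀ k ∈ Finset.range i, s ^ k * s ^ (i - 1 - k) = s ^ (i - 1) := by
        intro k hk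
        rw [Finset.mem_range] at hk
        rw [← pow_add]
        congr 1
        omega
      rw [Finset.sum_congr rfl h2, Finset.sum_const, Finset.card_range, nsmul_eq_mul, mul_assoc,
        ← pow_add]
      congr 2
      omega
  have h3 : ∑ i ∈ Finset.range j, (i : ℝ) = j * (j - 1) / 2 := by
    clear h1
    induction j with
    | zero => simp
    | succ j ih =>
      rw [Finset.sum_range_succ, ih]
      push_cast
      ring
  rw [Finset.sum_congr rfl h1, ← Finset.sum_mul, h3]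

variable {f : Polynomial ℝ} {s : ℝ}

/-- The quotient of the second order. -/
noncomputable def GG (f : Polynomial ℝ) (s x : ℝ) : ℝ :=
  ∑ j ∈ Finset.range (f.natDegree + 1), f.coeff j * gj s j x

theorem deriv_eq (f : Polynomial ℝ) (s : ℝ) : f.derivative.eval s =
    ∑ j ∈ Finset.range (f.natDegree + 1), f.coeff j * (j * s ^ (j - 1)) := by
  rw [Polynomial.derivative_eval, Polynomial.sum_over_range _ (by simp)]
  apply Finset.sum_congr rfl
  intro j _
  ring

theorem deriv2_eq (f : Polynomial ℝ) (s : ℝ) : f.derivative.derivative.eval s =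
    ∑ j ∈ Finset.range (f.natDegree + 1), f.coeff j * (j * (j - 1) * s ^ (j - 2)) := by
  conv_lhs => rw [f.as_sum_range_C_mul_X_pow]
  rw [Polynomial.derivative_sum, Polynomial.derivative_sum, Polynomial.eval_finsetSum]
  apply Finset.sum_congr rfl
  intro j _
  rcases Nat.eq_zero_or_pos j with h0 | h0
  · rw [h0]; simp
  · simp only [Polynomial.derivative_C_mul, Polynomial.derivative_X_pow, Polynomial.eval_mul,
      Polynomial.eval_C, Polynomial.eval_pow, Polynomial.eval_X]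
    rw [Nat.cast_sub h0]
    push_cast
    have : j - 1 - 1 = j - 2 := by omega
    rw [this]
    ring

theorem GG_self (f : Polynomial ℝ) (s : ℝ) : GG f s s = f.derivative.derivative.eval s / 2 := by
  rw [deriv2_eq, Finset.sum_div]
  unfold GG
  apply Finset.sum_congr rfl
  intro j _
  rw [gj_self]
  ring

theorem par_poly (hcoef : ∀ j, 0 ≤ f.coeff j) (hdeg : 2 ≤ f.natDegree) (hs : 0 < s)
    (hfix : f.eval s = s) (hder : f.derivative.eval s = 1) :
    Par (fun x => f.eval x) (GG f s) s (f.leadingCoeff * s ^ (f.natDegree - 2)) := by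
  have hlead : 0 < f.leadingCoeff := by
    have h1 : f ≠ 0 := by
      rintro rfl
      simp at hdeg
    exact lt_of_le_of_ne (hcoef _) (Ne.symm (Polynomial.leadingCoeff_ne_zero.2 h1))
  refine ⟨hs, by positivity, ?_, ?_, ?_, ?_⟩
  · intro x _
    show f.eval x = _
    have h1 : f.eval x = ∑ j ∈ Finset.range (f.natDegree + 1), (f.coeff j * s ^ j +
        (x - s) * (f.coeff j * (j * s ^ (j - 1))) + (x - s) ^ 2 * (f.coeff j * gj s j x)) := by
      rw [Polynomial.eval_eq_sum_range]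
      apply Finset.sum_congr rfl
      intro j _
      rw [pow_eq s j x]
      ring
    rw [h1, Finset.sum_add_distrib, Finset.sum_add_distrib, ← Finset.mul_sum, ← Finset.mul_sum,
      ← Polynomial.eval_eq_sum_range, ← deriv_eq, hfix, hder]
    unfold GG
    ring
  · unfold GG gj
    fun_prop
  · intro x hx
    unfold GG
    have h1 : ∀ j ∈ Finset.range (f.natDegree + 1), 0 ≤ f.coeff j * gj s j x := fun j _ =>
      mul_nonneg (hcoef j) (gj_nonneg hs.le j hx)
    have h2 := Finset.single_le_sum h1 (Finset.mem_range.2 (Nat.lt_succ_self f.natDegree))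
    refine le_trans ?_ h2
    exact mul_le_mul_of_nonneg_left (gj_ge hs.le hdeg hx) (hcoef _)
  · intro x y hx hxy
    show f.eval x ≤ f.eval y
    rw [Polynomial.eval_eq_sum_range, Polynomial.eval_eq_sum_range]
    apply Finset.sum_le_sum
    intro j _
    apply mul_le_mul_of_nonneg_left _ (hcoef j)
    gcongr

theorem pow_sub_le' {n : ℕ} {x y : ℂ} {p q : ℝ} (hy : ‖y‖ ≤ p) (hx : ‖x‖ ≤ q)
    (hxy : ‖x - y‖ ≤ q - p) : ‖x ^ n - y ^ n‖ ≤ q ^ n - p ^ n := by
  rw [← (Commute.all x y).mul_geom_sum₂, ← (Commute.all q p).mul_geom_sum₂, norm_mul]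
  have hp : 0 ≤ p := (norm_nonneg _).trans hy
  have hq : 0 ≤ q := (norm_nonneg _).trans hx
  apply mul_le_mul hxy _ (norm_nonneg _) ((norm_nonneg _).trans hxy)
  refine (norm_sum_le _ _).trans ?_
  apply Finset.sum_le_sum
  intro i _
  rw [norm_mul, norm_pow, norm_pow]
  gcongr

theorem maj_poly (hcoef : ∀ j, 0 ≤ f.coeff j) :
    Maj (fun z : ℂ => Polynomial.aeval z f) (fun x => f.eval x) := by
  refine ⟨?_, ?_⟩
  · intro x y p q hy hx hxy
    show ‖Polynomial.aeval x f - Polynomial.aeval y f‖ ≤ f.eval q - f.eval p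
    rw [Polynomial.aeval_eq_sum_range, Polynomial.aeval_eq_sum_range,
      Polynomial.eval_eq_sum_range, Polynomial.eval_eq_sum_range, ← Finset.sum_sub_distrib,
      ← Finset.sum_sub_distrib]
    refine (norm_sum_le _ _).trans ?_
    apply Finset.sum_le_sum
    intro j _
    rw [← smul_sub, norm_smul, Real.norm_of_nonneg (hcoef j), ← mul_sub]
    exact mul_le_mul_of_nonneg_left (pow_sub_le' hy hx hxy) (hcoef j)
  · intro x _
    show Polynomial.aeval (x : ℂ) f = ((f.eval x : ℝ) : ℂ)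
    rw [Polynomial.aeval_eq_sum_range, Polynomial.eval_eq_sum_range]
    push_cast
    apply Finset.sum_congr rfl
    intro j _
    rw [Complex.real_smul]

/-- **From the two bounds to the limit.** -/
theorem limit_abs {A : ℝ} (hA : 0 < A) {S : ℕ → Set ℝ} (hup : ∀ N, ∀ ρ ∈ S N, ∀ r, ρ ≤ r → r ∈ S N)
    (h0 : ∀ N, ∀ ρ ∈ S N, 0 ≤ ρ)
    (hlow : ∀ δ : ℝ, 0 < δ → ∃ r₀ : ℝ, 0 < r₀ ∧ ∀ r : ℝ, 0 < r → r ≤ r₀ → ∀ N : ℕ, r ∈ S N →
      Real.pi - δ < N * √(A * r))
    (hex : ∀ δ : ℝ, 0 < δ → ∃ r₀ : ℝ, 0 < r₀ ∧ ∀ r : ℝ, 0 < r → r ≤ r₀ → ∀ N : ℕ,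
      Real.pi + δ ≤ N * √(A * r) → r ∈ S (N + 1)) :
    Tendsto (fun N : ℕ => (N : ℝ) ^ 2 * sInf (S N)) atTop (𝓝 (Real.pi ^ 2 / A)) := by
  have hpi := Real.pi_pos
  -- the explicit members
  have hmem : ∀ δ : ℝ, 0 < δ → ∀ᶠ N : ℕ in atTop, (Real.pi + δ) ^ 2 / (A * ((N : ℝ) - 1) ^ 2) ∈ S N := by
    intro δ hδ
    obtain ⟨r₀, hr₀, H⟩ := hex δ hδ
    have h1 : Tendsto (fun N : ℕ => (Real.pi + δ) ^ 2 / A * (1 / (N : ℝ)) ^ 2) atTop (𝓝 0) := by
      have := (tendsto_one_div_atTop_nhds_zero_nat (𝕜 := ℝ)).pow 2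
      have := this.const_mul ((Real.pi + δ) ^ 2 / A)
      simpa using this
    have h2 := (tendsto_add_atTop_iff_nat (f := fun N : ℕ =>
      (Real.pi + δ) ^ 2 / (A * ((N : ℝ) - 1) ^ 2) ∈ S N) (l := 𝓟 {True}) 1)
    have h3 : ∀ᶠ N : ℕ in atTop, (Real.pi + δ) ^ 2 / (A * (((N + 1 : ℕ) : ℝ) - 1) ^ 2) ∈ S (N + 1) := by
      filter_upwards [h1.eventually (gt_mem_nhds hr₀), eventually_ge_atTop 1] with N hN1 hN2
      have hN0 : (0 : ℝ) < N := by exact_mod_cast hN2
      have e1 : (Real.pi + δ) ^ 2 / (A * (((N + 1 : ℕ) : ℝ) - 1) ^ 2) =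
          (Real.pi + δ) ^ 2 / A * (1 / (N : ℝ)) ^ 2 := by
        push_cast
        rw [add_sub_cancel_right]
        field_simp
      rw [e1]
      apply H _ (by positivity) hN1.le
      have e2 : A * ((Real.pi + δ) ^ 2 / A * (1 / (N : ℝ)) ^ 2) = ((Real.pi + δ) / N) ^ 2 := by
        field_simp
      rw [e2, Real.sqrt_sq (by positivity)]
      apply le_of_eq
      field_simp
    rw [eventually_atTop] at h3 ⊢
    obtain ⟨M, hM⟩ := h3
    refine ⟨M + 1, fun N hN => ?_⟩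
    obtain ⟨k, rfl⟩ := Nat.exists_eq_add_of_le' (show 1 ≤ N by omega)
    exact hM k (by omega)
  rw [tendsto_order]
  constructor
  · intro v hv
    obtain ⟨δ, hδ, hδ1, hδv⟩ : ∃ δ : ℝ, 0 < δ ∧ δ < Real.pi ∧ v < (Real.pi - δ) ^ 2 / A := by
      have h1 : Tendsto (fun δ : ℝ => (Real.pi - δ) ^ 2 / A) (𝓝[>] 0) (𝓝 (Real.pi ^ 2 / A)) := by
        have h2 : Continuous fun δ : ℝ => (Real.pi - δ) ^ 2 / A := by fun_prop
        have h3 := (h2.tendsto 0).mono_left (nhdsWithin_le_nhds (s := Ioi (0 : ℝ)))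
        simpa using h3
      obtain ⟨δ, h2, h3⟩ := ((h1.eventually (lt_mem_nhds hv)).and
        (Ioo_mem_nhdsGT hpi)).exists
      exact ⟨δ, h3.1, h3.2, h2⟩
    obtain ⟨r₀, hr₀, H⟩ := hlow δ hδ
    have h1 : Tendsto (fun N : ℕ => (Real.pi - δ) ^ 2 / A * (1 / (N : ℝ)) ^ 2) atTop (𝓝 0) := by
      have := (tendsto_one_div_atTop_nhds_zero_nat (𝕜 := ℝ)).pow 2
      have := this.const_mul ((Real.pi - δ) ^ 2 / A)
      simpa using this
    filter_upwards [hmem 1 one_pos, h1.eventually (gt_mem_nhds hr₀), eventually_ge_atTop 1]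
      with N hN1 hN2 hN3
    have hN0 : (0 : ℝ) < N := by exact_mod_cast hN3
    have hge : ∀ ρ ∈ S N, (Real.pi - δ) ^ 2 / A * (1 / (N : ℝ)) ^ 2 ≤ ρ := by
      intro ρ hρ
      by_contra hcon
      rw [not_le] at hcon
      obtain ⟨r, hr⟩ : ∃ r, r = (Real.pi - δ) ^ 2 / A * (1 / (N : ℝ)) ^ 2 := ⟨_, rfl⟩
      rw [← hr] at hcon hN2
      have hr0 : 0 < r := by
        have := h0 N ρ hρ
        linarith
      have h2 := H r hr0 hN2.le N (hup N ρ hρ r hcon.le)
      have e2 : A * r = ((Real.pi - δ) / N) ^ 2 := by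
        rw [hr]
        field_simp
      have h3 : 0 ≤ (Real.pi - δ) / N := div_nonneg (by linarith) hN0.le
      rw [e2, Real.sqrt_sq h3, mul_div_cancel₀ _ hN0.ne'] at h2
      exact lt_irrefl _ h2
    have h2 : (Real.pi - δ) ^ 2 / A * (1 / (N : ℝ)) ^ 2 ≤ sInf (S N) := le_csInf ⟨_, hN1⟩ hge
    calc v < (Real.pi - δ) ^ 2 / A := hδv
      _ = (N : ℝ) ^ 2 * ((Real.pi - δ) ^ 2 / A * (1 / (N : ℝ)) ^ 2) := by field_simp
      _ ≤ _ := by gcongr
  · intro v hv
    obtain ⟨δ, hδ, hδv⟩ : ∃ δ : ℝ, 0 < δ ∧ (Real.pi + δ) ^ 2 / A < v := by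
      have h1 : Tendsto (fun δ : ℝ => (Real.pi + δ) ^ 2 / A) (𝓝[>] 0) (𝓝 (Real.pi ^ 2 / A)) := by
        have h2 : Continuous fun δ : ℝ => (Real.pi + δ) ^ 2 / A := by fun_prop
        have h3 := (h2.tendsto 0).mono_left (nhdsWithin_le_nhds (s := Ioi (0 : ℝ)))
        simpa using h3
      obtain ⟨δ, h2, h3⟩ := ((h1.eventually (gt_mem_nhds hv)).and
        (Ioo_mem_nhdsGT hpi)).exists
      exact ⟨δ, h3.1, h2⟩
    have h1 : Tendsto (fun N : ℕ => (N : ℝ) ^ 2 * ((Real.pi + δ) ^ 2 / (A * ((N : ℝ) - 1) ^ 2)))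
        atTop (𝓝 ((Real.pi + δ) ^ 2 / A)) := by
      have h2 : Tendsto (fun N : ℕ => 1 - 1 / (N : ℝ)) atTop (𝓝 1) := by
        have := (tendsto_one_div_atTop_nhds_zero_nat (𝕜 := ℝ)).const_sub 1
        simpa using this
      have h3 := ((h2.pow 2).inv₀ (by norm_num)).const_mul ((Real.pi + δ) ^ 2 / A)
      rw [one_pow, inv_one, mul_one] at h3
      refine h3.congr' ?_
      filter_upwards [eventually_gt_atTop 1] with N hN
      have hN0 : (1 : ℝ) < N := by exact_mod_cast hN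
      have hN1 : (N : ℝ) - 1 ≠ 0 := by
        intro h
        linarith
      have hN2 : (N : ℝ) ≠ 0 := by
        intro h
        linarith
      have e1 : 1 - 1 / (N : ℝ) = ((N : ℝ) - 1) / N := by field_simp
      rw [e1]
      field_simp
    filter_upwards [hmem δ hδ, h1.eventually (gt_mem_nhds hδv)] with N hN1 hN2
    refine lt_of_le_of_lt ?_ hN2
    apply mul_le_mul_of_nonneg_left _ (by positivity)
    exact csInf_le ⟨0, fun ρ hρ => h0 N ρ hρ⟩ hN1

end Pool.Agent.Q186.Cusp.Gen
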