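import Pool.Agent.Q186.Cusp.Vol

/-!
# The number of superattracting parameters near the cusp
-/

set_option autoImplicit false

open Complex Metric Set Filter Topology MeasureTheory N62a1eb23

namespace Pool.Agent.Q186.Cusp

open Pool.Agent.H712R2 (P P_zero P_one P_succ mem_multibrot_iff)
open Pool.Agent.H713R2 hiding LL
open Pool.Agent.Q186.Cen
open Pool.Agent.Q186.Loc
open Real (posLog circleAverage)
open Pool.Agent.H712R2 (sr rr sr_pos sr_pow sr_pow' rr_eq rr_pos sr_lt_one disc_subset real_escape)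
open Pool.Agent.Y736.HD (Ang vol_Ang_ne)

/-- **Jensen's inequality** with many zeros, with a factor close to one. -/
theorem jensen_q {h : ℂ → ℂ} (hh : Differentiable ℂ h) {c : ℂ} (h0 : h c ≠ 0) {q R : ℝ}
    (hR : 0 < R) (hq : 1 < q) (F : Finset ℂ) (hF : ∀ a ∈ F, h a = 0 ∧ q * ‖a - c‖ ≤ R) :
    Real.log ‖h c‖ + F.card * Real.log q ≤ circleAverage (fun x => Real.log ‖h x‖) c R := by
  have hga : AnalyticOnNhd ℂ h (closedBall c |R|) := fun x _ => hh.analyticAt x
  have e2 := hga.circleAverage_log_norm hR.ne' h0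
  rw [e2]
  have hlog2 : 0 < Real.log q := Real.log_pos hq
  suffices h3 : (F.card : ℝ) * Real.log q ≤
      ∑ᶠ u, MeromorphicOn.divisor h (closedBall c |R|) u * Real.log (R * ‖c - u‖⁻¹) by linarith
  have hnn : ∀ u, 0 ≤ MeromorphicOn.divisor h (closedBall c |R|) u *
      Real.log (R * ‖c - u‖⁻¹) := by
    intro u
    by_cases hu : u ∈ closedBall c |R|
    · apply mul_nonneg
      · exact_mod_cast MeromorphicOn.AnalyticOnNhd.divisor_nonneg hga u
      · rcases eq_or_ne c u with rfl | hcu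
        · simp
        · apply Real.log_nonneg
          have h3 : 0 < ‖c - u‖ := norm_pos_iff.2 (sub_ne_zero.2 hcu)
          rw [← div_eq_mul_inv, le_div_iff₀ h3, one_mul]
          rw [mem_closedBall, dist_comm, dist_eq_norm, abs_of_pos hR] at hu
          exact hu
    · rw [Function.locallyFinsuppWithin.apply_eq_zero_of_notMem _ hu]
      simp
  have hfin : (Function.support fun u => (MeromorphicOn.divisor h (closedBall c |R|) u : ℝ) *
      Real.log (R * ‖c - u‖⁻¹)).Finite :=
    ((MeromorphicOn.divisor h (closedBall c |R|)).finiteSupport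
      (isCompact_closedBall ..)).subset fun _ _ => (by simp_all)
  rw [finsum_eq_sum_of_support_subset (s := hfin.toFinset ∪ F) _ (by
    intro u hu
    rw [Finset.coe_union]
    left
    exact (hfin.mem_toFinset).2 hu)]
  calc (F.card : ℝ) * Real.log q = ∑ u ∈ F, Real.log q := by
        rw [Finset.sum_const, nsmul_eq_mul]
    _ ≤ ∑ u ∈ F, MeromorphicOn.divisor h (closedBall c |R|) u * Real.log (R * ‖c - u‖⁻¹) := by
        apply Finset.sum_le_sum
        intro u hu
        obtain ⟨hu0, huR⟩ := hF u hu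
        have hcu : c ≠ u := by
          rintro rfl
          exact h0 hu0
        have h3 : 0 < ‖c - u‖ := norm_pos_iff.2 (sub_ne_zero.2 hcu)
        have huc : q * ‖c - u‖ ≤ R := by rw [norm_sub_rev]; exact huR
        have hmem : u ∈ closedBall c |R| := by
          rw [mem_closedBall, dist_comm, dist_eq_norm, abs_of_pos hR]
          nlinarith
        have h4 : Real.log q ≤ Real.log (R * ‖c - u‖⁻¹) := by
          apply Real.log_le_log (by linarith)
          rw [← div_eq_mul_inv, le_div_iff₀ h3]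
          linarith
        have h5 : (1 : ℝ) ≤ MeromorphicOn.divisor h (closedBall c |R|) u := by
          rw [MeromorphicOn.AnalyticOnNhd.divisor_apply hga hmem]
          have h6 : analyticOrderAt h u ≠ 0 := by
            rw [Ne, (hh.analyticAt u).analyticOrderAt_eq_zero, not_not]
            exact hu0
          have h7 : analyticOrderAt h u ≠ ⊤ := by
            intro h8
            rw [analyticOrderAt_eq_top] at h8
            have h9 : AnalyticOnNhd ℂ h univ := fun x _ => hh.analyticAt x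
            have h10 := h9.eqOn_zero_of_preconnected_of_eventuallyEq_zero isPreconnected_univ
              (mem_univ u) h8
            exact h0 (h10 (mem_univ c))
          obtain ⟨n, hn⟩ := ENat.ne_top_iff_exists.1 h7
          rw [← hn]
          rw [← hn] at h6
          have h11 : n ≠ 0 := by
            rintro rfl
            exact h6 rfl
          have h12 : 1 ≤ n := Nat.one_le_iff_ne_zero.2 h11
          have h13 : (1 : ℤ) ≤ (ENat.map Nat.cast (n : ℕ∞) : WithTop ℤ).untop₀ := by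
            rw [ENat.map_natCast]
            simp only [WithTop.untop₀_coe]
            exact_mod_cast h12
          exact_mod_cast h13
        calc Real.log q = 1 * Real.log q := (one_mul _).symm
          _ ≤ _ := by
            apply mul_le_mul h5 h4 hlog2.le
            linarith
    _ ≤ _ := Finset.sum_le_sum_of_subset_of_nonneg Finset.subset_union_right
        fun u _ _ => hnn u

/-- A finite covering of the unit disc. -/
theorem exists_cover' {ε : ℝ} (hε : 0 < ε) :
    ∃ B : Finset ℂ, closedBall (0 : ℂ) 1 ⊆ ⋃ b ∈ B, ball b ε := by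
  obtain ⟨t, ht, h1⟩ := (isCompact_closedBall (0 : ℂ) 1).finite_cover_balls hε
  obtain ⟨h2, h3⟩ := h1
  refine ⟨h2.toFinset, h3.trans ?_⟩
  intro x hx
  simpa using hx

set_option maxHeartbeats 4000000 in
/-- **The lower bound**, with a factor close to one. -/
theorem lower_q {d : ℕ} (hd : 2 ≤ d) {η : ℝ} (hη : 0 < η) (hη1 : η < 1) :
    ∃ C : ℝ, 0 < C ∧ ∀ ψ : ℂ → ℂ,
    IsExteriorMap (multibrotSet d) ψ → ∀ c₀ ∈ frontier (multibrotSet d), ∀ r : ℝ, 0 < r → r ≤ 1 →
      ∀ N : ℕ, 1 ≤ N → (d : ℝ) ^ N * (volume (Ang ψ c₀ ((1 - η) * r))).toReal ≤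
        C * (N * (num d c₀ N r + 1)) := by
  have hL := LL_ge hd
  have hL0 : 0 < LL d := by linarith
  have hC1 := C1_pos d
  have hdR : (2 : ℝ) ≤ d := by exact_mod_cast hd
  obtain ⟨B, hB⟩ := exists_cover
  obtain ⟨B', hB'⟩ := exists_cover' (ε := η / 16) (by linarith)
  obtain ⟨M, hM⟩ : ∃ M : ℕ, LL d ≤ 2 ^ M := by
    obtain ⟨M, hM⟩ := pow_unbounded_of_one_lt (LL d) (show (1 : ℝ) < 2 by norm_num)
    exact ⟨M, hM.le⟩
  refine ⟨C1 d * (B'.card + 1 + B.card * (3 + 2 * M)), by positivity, ?_⟩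
  intro ψ hψ c₀ hc₀ r hr hr1 N hN
  have hNR : (1 : ℝ) ≤ N := by exact_mod_cast hN
  have hdN : (0 : ℝ) < (d : ℝ) ^ N := by positivity
  have hnum : (0 : ℝ) ≤ num d c₀ N r := Nat.cast_nonneg _
  obtain ⟨F, hF⟩ : ∃ F : Finset ℂ, F = (finite_num d N c₀ r).toFinset := ⟨_, rfl⟩
  have hFc : F.card = num d c₀ N r := by
    rw [hF]
    unfold num
    rw [Set.ncard_eq_toFinset_card _ (finite_num d N c₀ r)]
  obtain ⟨J, hJ⟩ : ∃ J : ℕ, J = 3 + 2 * M * N := ⟨_, rfl⟩
  obtain ⟨E, hE⟩ : ∃ E : ℂ × ℕ × ℂ → Set ℝ, E = fun x => {θ | θ ∈ Ioc 0 (2 * Real.pi) ∧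
      ∃ ζ ∈ ball (x.1 + (((1 / 2 : ℝ) ^ x.2.1 * r : ℝ) : ℂ) * x.2.2 : ℂ) ((1 / 2 : ℝ) ^ x.2.1 * r / 16),
      Tendsto (fun ρ : ℝ => ψ (ρ * exp (θ * I))) (𝓝[>] 1) (𝓝 ζ) ∧
      (1 / 2 : ℝ) ^ (x.2.1 + 1) * r ≤ tt d N ζ} := ⟨_, rfl⟩
  obtain ⟨E', hE'⟩ : ∃ E' : ℂ → Set ℝ, E' = fun x => {θ | θ ∈ Ioc 0 (2 * Real.pi) ∧
      ∃ ζ ∈ ball (c₀ + (r : ℂ) * x : ℂ) (η * r / 16),
      Tendsto (fun ρ : ℝ => ψ (ρ * exp (θ * I))) (𝓝[>] 1) (𝓝 ζ) ∧ η * r ≤ tt d N ζ} := ⟨_, rfl⟩
  have hEvol : ∀ x, volume (E x) ≤ ENNReal.ofReal (C1 d / (d : ℝ) ^ N) := by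
    intro x
    rcases (E x).eq_empty_or_nonempty with h1 | h1
    · rw [h1, measure_empty]
      exact bot_le
    · obtain ⟨θ', hθ'⟩ := h1
      rw [hE] at hθ'
      obtain ⟨-, ζ', h2, h3, h4⟩ := hθ'
      refine (measure_mono ?_).trans (vol_small hd hψ (land_frontier hd hψ h3) hN)
      intro θ hθ
      rw [hE] at hθ
      obtain ⟨h5, ζ, h6, h7, -⟩ := hθ
      refine ⟨h5, ζ, ?_, h7⟩
      rw [mem_ball] at h2 h6 ⊢
      have h8 := dist_triangle_right ζ ζ' (x.1 + (((1 / 2 : ℝ) ^ x.2.1 * r : ℝ) : ℂ) * x.2.2)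
      rw [pow_succ] at h4
      linarith
  have hEvol' : ∀ x, volume (E' x) ≤ ENNReal.ofReal (C1 d / (d : ℝ) ^ N) := by
    intro x
    rcases (E' x).eq_empty_or_nonempty with h1 | h1
    · rw [h1, measure_empty]
      exact bot_le
    · obtain ⟨θ', hθ'⟩ := h1
      rw [hE'] at hθ'
      obtain ⟨-, ζ', h2, h3, h4⟩ := hθ'
      refine (measure_mono ?_).trans (vol_small hd hψ (land_frontier hd hψ h3) hN)
      intro θ hθ
      rw [hE'] at hθ
      obtain ⟨h5, ζ, h6, h7, -⟩ := hθ
      refine ⟨h5, ζ, ?_, h7⟩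
      rw [mem_ball] at h2 h6 ⊢
      have h8 := dist_triangle_right ζ ζ' (c₀ + (r : ℂ) * x)
      have h9 : 0 < η * r := by positivity
      linarith
  have hcov : Ang ψ c₀ ((1 - η) * r) ⊆ (⋃ x ∈ (F ×ˢ Finset.range J ×ˢ B), E x) ∪
      ⋃ x ∈ B', E' x := by
    rintro θ ⟨h1, ζ, h2, h3⟩
    have hζ := land_frontier hd hψ h3
    rcases lt_or_ge (tt d N ζ) (η * r) with ht | ht
    · left
      obtain ⟨a, ha, hat⟩ := exists_nearest hd hN ζ
      have hsep := sep hd hζ ha
      rw [hat] at hsep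
      have hLN : 0 < LL d ^ (2 * N) := by positivity
      have ht0 : 0 < tt d N ζ := lt_of_lt_of_le (by positivity) hsep
      have hηr : η * r ≤ r := by nlinarith
      obtain ⟨j, hj1, hj2⟩ := exists_nat_pow_near_of_lt_one (x := tt d N ζ / r) (y := (1 / 2 : ℝ))
        (by positivity) (by rw [div_le_one hr]; linarith) (by norm_num) (by norm_num)
      rw [lt_div_iff₀ hr] at hj1
      rw [div_le_iff₀ hr] at hj2
      have hs0 : 0 < (1 / 2 : ℝ) ^ j * r := by positivity
      obtain ⟨s, hs⟩ : ∃ s : ℝ, s = (1 / 2 : ℝ) ^ j * r := ⟨_, rfl⟩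
      rw [← hs] at hj2 hs0
      have hsc : (s : ℂ) ≠ 0 := by exact_mod_cast hs0.ne'
      have hmem : (ζ - a) / s ∈ closedBall (0 : ℂ) 1 := by
        rw [mem_closedBall_zero_iff, norm_div, Complex.norm_real, Real.norm_of_nonneg hs0.le,
          div_le_one hs0, norm_sub_rev, hat]
        exact hj2
      obtain ⟨b, hb, hb2⟩ := mem_iUnion₂.1 (hB hmem)
      rw [mem_iUnion₂]
      refine ⟨(a, j, b), ?_, ?_⟩
      · simp only [Finset.mem_product, Finset.mem_range]
        refine ⟨?_, ?_, hb⟩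
        · rw [hF, Set.Finite.mem_toFinset]
          refine ⟨ha, ?_⟩
          have h4 := norm_add_le (a - ζ) (ζ - c₀)
          rw [sub_add_sub_cancel, hat] at h4
          rw [mem_ball, dist_eq_norm] at h2
          linarith
        · rw [hJ]
          by_contra hcon
          rw [not_lt] at hcon
          have h4 : s ≤ (1 / 2 : ℝ) ^ (3 + 2 * M * N) := by
            rw [hs]
            calc (1 / 2 : ℝ) ^ j * r ≤ (1 / 2 : ℝ) ^ (3 + 2 * M * N) * 1 := by
                  apply mul_le_mul _ hr1 hr.le (by positivity)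
                  exact pow_le_pow_of_le_one (by norm_num) (by norm_num) hcon
              _ = _ := mul_one _
          have h5 : LL d ^ (2 * N) ≤ (2 : ℝ) ^ (2 * M * N) := by
            calc LL d ^ (2 * N) ≤ ((2 : ℝ) ^ M) ^ (2 * N) := by gcongr
              _ = _ := by
                rw [← pow_mul]
                congr 1
                ring
          have h6 : (1 / 2 : ℝ) ^ (3 + 2 * M * N) = 1 / (8 * 2 ^ (2 * M * N)) := by
            rw [pow_add, one_div_pow, one_div_pow]
            norm_num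
            ring
          have h7 : 1 / (4 * LL d ^ (2 * N)) ≤ 1 / (8 * 2 ^ (2 * M * N)) := by
            rw [← h6]
            linarith
          rw [div_le_div_iff₀ (by positivity) (by positivity)] at h7
          have h8 : (0 : ℝ) < 2 ^ (2 * M * N) := by positivity
          linarith
      · rw [hE]
        refine ⟨h1, ζ, ?_, h3, ?_⟩
        · show ζ ∈ ball (a + (((1 / 2 : ℝ) ^ j * r : ℝ) : ℂ) * b) ((1 / 2 : ℝ) ^ j * r / 16)
          rw [← hs, mem_ball, dist_eq_norm]
          rw [mem_ball, dist_eq_norm] at hb2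
          have e : ζ - (a + s * b) = s * ((ζ - a) / s - b) := by
            field_simp
            ring
          rw [e, norm_mul, Complex.norm_real, Real.norm_of_nonneg hs0.le]
          calc s * ‖(ζ - a) / s - b‖ < s * (1 / 16) := by gcongr
            _ = _ := by ring
        · exact hj1.le
    · right
      have hrc : (r : ℂ) ≠ 0 := by exact_mod_cast hr.ne'
      have hmem : (ζ - c₀) / r ∈ closedBall (0 : ℂ) 1 := by
        rw [mem_closedBall_zero_iff, norm_div, Complex.norm_real, Real.norm_of_nonneg hr.le,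
          div_le_one hr]
        rw [mem_ball, dist_eq_norm] at h2
        nlinarith
      obtain ⟨b, hb, hb2⟩ := mem_iUnion₂.1 (hB' hmem)
      rw [mem_iUnion₂]
      refine ⟨b, hb, ?_⟩
      rw [hE']
      refine ⟨h1, ζ, ?_, h3, ht⟩
      rw [mem_ball, dist_eq_norm]
      rw [mem_ball, dist_eq_norm] at hb2
      have e : ζ - (c₀ + r * b) = r * ((ζ - c₀) / r - b) := by
        field_simp
        ring
      rw [e, norm_mul, Complex.norm_real, Real.norm_of_nonneg hr.le]
      calc r * ‖(ζ - c₀) / r - b‖ < r * (η / 16) := by gcongr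
        _ = _ := by ring
  have hle : volume (Ang ψ c₀ ((1 - η) * r)) ≤
      ENNReal.ofReal (((F ×ˢ Finset.range J ×ˢ B).card + B'.card) * (C1 d / (d : ℝ) ^ N)) := by
    refine (measure_mono hcov).trans ((measure_union_le _ _).trans ?_)
    rw [add_mul, ENNReal.ofReal_add (by positivity) (by positivity)]
    apply add_le_add
    · refine (measure_biUnion_finset_le _ _).trans ?_
      refine (Finset.sum_le_sum fun x _ => hEvol x).trans ?_
      rw [Finset.sum_const, nsmul_eq_mul, ENNReal.ofReal_mul (Nat.cast_nonneg _),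
        ENNReal.ofReal_natCast]
    · refine (measure_biUnion_finset_le _ _).trans ?_
      refine (Finset.sum_le_sum fun x _ => hEvol' x).trans ?_
      rw [Finset.sum_const, nsmul_eq_mul, ENNReal.ofReal_mul (Nat.cast_nonneg _),
        ENNReal.ofReal_natCast]
  rw [ENNReal.le_ofReal_iff_toReal_le (vol_Ang_ne _ _ _) (by positivity)] at hle
  rw [Finset.card_product, Finset.card_product, Finset.card_range, hFc, hJ] at hle
  have h1 : (d : ℝ) ^ N * (volume (Ang ψ c₀ ((1 - η) * r))).toReal ≤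
      (((num d c₀ N r * ((3 + 2 * M * N) * B.card) : ℕ) : ℝ) + B'.card) * C1 d := by
    calc (d : ℝ) ^ N * (volume (Ang ψ c₀ ((1 - η) * r))).toReal ≤ (d : ℝ) ^ N *
          ((((num d c₀ N r * ((3 + 2 * M * N) * B.card) : ℕ) : ℝ) + B'.card) *
            (C1 d / (d : ℝ) ^ N)) := by gcongr
      _ = _ := by
          field_simp
  refine h1.trans ?_
  push_cast
  have h2 : (3 : ℝ) + 2 * M * N ≤ (3 + 2 * M) * N := by nlinarith
  have h3 : (B'.card : ℝ) ≤ (B'.card + 1) * (N * (num d c₀ N r + 1)) := by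
    have h4 : (1 : ℝ) ≤ N * (num d c₀ N r + 1) := by nlinarith
    have h5 : (0 : ℝ) ≤ B'.card := Nat.cast_nonneg _
    nlinarith
  calc ((num d c₀ N r : ℝ) * ((3 + 2 * M * N) * B.card) + B'.card) * C1 d
      ≤ ((num d c₀ N r + 1) * (((3 + 2 * M) * N) * B.card) +
          (B'.card + 1) * (N * (num d c₀ N r + 1))) * C1 d := by
        gcongr
        linarith
    _ = _ := by ring

end Pool.Agent.Q186.Cusp
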