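import Pool.Agent.Q186.Cusp.Real2

/-!
# The passage through the gate: general real maps with a parabolic fixed point
-/

set_option autoImplicit false

open Filter Topology Set

namespace Pool.Agent.Q186.Cusp.Gen

/-- A real map with a parabolic fixed point `s`. -/
structure Par (F G : ℝ → ℝ) (s κ : ℝ) : Prop where
  s_pos : 0 < s
  κ_pos : 0 < κ
  eq : ∀ x, 0 ≤ x → F x = x + (x - s) ^ 2 * G x
  cont : Continuous G
  ge : ∀ x, 0 ≤ x → κ ≤ G x
  mono : ∀ x y, 0 ≤ x → x ≤ y → F x ≤ F y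

variable {F G : ℝ → ℝ} {s κ : ℝ}

/-- The orbit of `x₀` under `F + r`. -/
noncomputable def Y (F : ℝ → ℝ) (x₀ r : ℝ) : ℕ → ℝ
  | 0 => x₀
  | n + 1 => F (Y F x₀ r n) + r

theorem Y_succ (x₀ r : ℝ) (n : ℕ) : Y F x₀ r (n + 1) = F (Y F x₀ r n) + r := rfl

theorem Par.le_F (h : Par F G s κ) {x : ℝ} (hx : 0 ≤ x) : x ≤ F x := by
  rw [h.eq x hx]
  have h1 := h.ge x hx
  have h2 := h.κ_pos
  have h3 : 0 ≤ (x - s) ^ 2 * G x := mul_nonneg (sq_nonneg _) (by linarith)
  linarith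

theorem Par.fix (h : Par F G s κ) : F s = s := by
  rw [h.eq s h.s_pos.le]
  ring

theorem Y_nonneg (h : Par F G s κ) {x₀ r : ℝ} (hx : 0 ≤ x₀) (hr : 0 ≤ r) (n : ℕ) :
    0 ≤ Y F x₀ r n := by
  induction n with
  | zero => exact hx
  | succ n ih =>
    rw [Y_succ]
    have := h.le_F ih
    linarith

theorem Y_step (h : Par F G s κ) {x₀ r : ℝ} (hx : 0 ≤ x₀) (hr : 0 ≤ r) (n : ℕ) :
    Y F x₀ r (n + 1) = Y F x₀ r n + (Y F x₀ r n - s) ^ 2 * G (Y F x₀ r n) + r := by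
  rw [Y_succ, h.eq _ (Y_nonneg h hx hr n)]

theorem Y_mono (h : Par F G s κ) {x₀ r : ℝ} (hx : 0 ≤ x₀) (hr : 0 ≤ r) : Monotone (Y F x₀ r) := by
  apply monotone_nat_of_le_succ
  intro n
  rw [Y_succ]
  have := h.le_F (Y_nonneg h hx hr n)
  linarith

theorem Y_le (h : Par F G s κ) {x₀ x₁ r r' : ℝ} (hx : 0 ≤ x₀) (hx1 : x₀ ≤ x₁) (hr : 0 ≤ r)
    (hr' : r ≤ r') (n : ℕ) : Y F x₀ r n ≤ Y F x₁ r' n := by
  induction n with
  | zero => exact hx1
  | succ n ih =>
    rw [Y_succ, Y_succ]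
    have := h.mono _ _ (Y_nonneg h hx hr n) ih
    linarith

/-- without perturbation the orbit does not pass the fixed point -/
theorem Y_zero_le (h : Par F G s κ) {x₀ : ℝ} (hx : 0 ≤ x₀) (hxs : x₀ ≤ s) (n : ℕ) :
    Y F x₀ 0 n ≤ s := by
  induction n with
  | zero => exact hxs
  | succ n ih =>
    rw [Y_succ]
    have := h.mono _ _ (Y_nonneg h hx le_rfl n) ih
    rw [h.fix] at this
    linarith

theorem Y_far (h : Par F G s κ) {x₀ r : ℝ} (hx : 0 ≤ x₀) (hr : 0 ≤ r) {η : ℝ} (hη : 0 < η) {n : ℕ}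
    (hd : η ≤ |Y F x₀ r n - s|) : Y F x₀ r n + η ^ 2 * κ ≤ Y F x₀ r (n + 1) := by
  rw [Y_step h hx hr]
  have h1 := h.ge _ (Y_nonneg h hx hr n)
  have h2 := h.κ_pos
  have h3 : η ^ 2 ≤ (Y F x₀ r n - s) ^ 2 := by
    rw [← sq_abs (Y F x₀ r n - s)]
    gcongr
  have h4 : η ^ 2 * κ ≤ (Y F x₀ r n - s) ^ 2 * G (Y F x₀ r n) := by gcongr
  linarith

theorem exists_N1 (h : Par F G s κ) {η : ℝ} (hη : 0 < η) :
    ∃ N : ℕ, ∀ x₀ r : ℝ, 0 ≤ x₀ → 0 ≤ r → ∀ n, N ≤ n → s - η ≤ Y F x₀ r n := by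
  have hs := h.s_pos
  have hκ0 := h.κ_pos
  have hκ : 0 < η ^ 2 * κ := by positivity
  obtain ⟨N, hN⟩ := exists_nat_gt (s / (η ^ 2 * κ))
  refine ⟨N, fun x₀ r hx hr n hn => ?_⟩
  refine le_trans ?_ (Y_mono h hx hr hn)
  by_contra hcon
  rw [not_le] at hcon
  have h1 : ∀ m ≤ N, m * (η ^ 2 * κ) ≤ Y F x₀ r m := by
    intro m
    induction m with
    | zero =>
      intro _
      simpa [Y] using hx
    | succ m ih =>
      intro hm
      have h2 := ih (by omega)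
      have h3 : Y F x₀ r m ≤ Y F x₀ r N := Y_mono h hx hr (by omega)
      have h4 := Y_far h hx hr hη (n := m) (by
        rw [abs_of_neg (by linarith)]
        linarith)
      push_cast
      linarith
  have h2 := h1 N le_rfl
  rw [div_lt_iff₀ hκ] at hN
  linarith

theorem exists_N2 (h : Par F G s κ) {η : ℝ} (hη : 0 < η) (K : ℝ) :
    ∃ N : ℕ, ∀ x₀ r : ℝ, 0 ≤ x₀ → 0 ≤ r → ∀ m, s + η ≤ Y F x₀ r m → ∀ n, m + N ≤ n →
      K ≤ Y F x₀ r n := by
  have hs := h.s_pos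
  have hκ0 := h.κ_pos
  have hκ : 0 < η ^ 2 * κ := by positivity
  obtain ⟨N, hN⟩ := exists_nat_gt (K / (η ^ 2 * κ))
  refine ⟨N, fun x₀ r hx hr m hm n hn => ?_⟩
  refine le_trans ?_ (Y_mono h hx hr hn)
  have h1 : ∀ j : ℕ, j * (η ^ 2 * κ) ≤ Y F x₀ r (m + j) := by
    intro j
    induction j with
    | zero =>
      simp only [Nat.cast_zero, zero_mul, add_zero]
      exact Y_nonneg h hx hr m
    | succ j ih =>
      have h3 : Y F x₀ r m ≤ Y F x₀ r (m + j) := Y_mono h hx hr (by omega)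
      have h4 := Y_far h hx hr hη (n := m + j) (by
        rw [abs_of_pos (by linarith)]
        linarith)
      rw [← add_assoc]
      push_cast
      linarith
  rw [div_lt_iff₀ hκ] at hN
  exact hN.le.trans (h1 N)

set_option maxHeartbeats 4000000 in
/-- **The orbit does not pass the gate before the time `π / √(A r)`.** -/
theorem gate (h : Par F G s κ) {δ η x₁ : ℝ} (hδ : 0 < δ) (hη : 0 < η) (hx₁ : x₁ < s) :
    ∃ r₀ : ℝ, 0 < r₀ ∧ ∀ r : ℝ, 0 < r → r ≤ r₀ → ∀ x₀ : ℝ, 0 ≤ x₀ → x₀ ≤ x₁ → ∀ n : ℕ,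
      (n : ℝ) * √(G s * r) ≤ Real.pi - δ → Y F x₀ r n ≤ s + η := by
  have hpi := Real.pi_pos
  have hs := h.s_pos
  have hA : 0 < G s := h.κ_pos.trans_le (h.ge s hs.le)
  obtain ⟨τ, hτ⟩ : ∃ τ, τ = δ / (2 * Real.pi) := ⟨_, rfl⟩
  have hτ0 : 0 < τ := by rw [hτ]; positivity
  obtain ⟨A₂, hA₂⟩ : ∃ A₂, A₂ = G s * (1 + τ) ^ 2 := ⟨_, rfl⟩
  have hA₂0 : 0 < A₂ := by rw [hA₂]; positivity
  have hAA₂ : G s < A₂ := by
    rw [hA₂]
    have h1 : (1 : ℝ) < (1 + τ) ^ 2 := by nlinarith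
    exact lt_mul_of_one_lt_right hA h1
  have hev : ∀ᶠ x in 𝓝 s, G x < A₂ :=
    h.cont.continuousAt.eventually (gt_mem_nhds hAA₂)
  obtain ⟨η₁, hη₁, hG⟩ := Metric.eventually_nhds_iff.1 hev
  obtain ⟨e, he⟩ : ∃ e, e = min η (min (η₁ / 2) (min (s / 2) (min (1 / (4 * A₂))
    (min (δ / (16 * Real.pi * A₂)) ((s - x₁) / 2))))) := ⟨_, rfl⟩
  have he0 : 0 < e := by
    rw [he]
    exact lt_min hη (lt_min (by linarith) (lt_min (by linarith) (lt_min (by positivity)
      (lt_min (by positivity) (by linarith)))))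
  have he1 : e ≤ η := by rw [he]; exact min_le_left _ _
  have he2 : e ≤ η₁ / 2 := by
    rw [he]; exact (min_le_right _ _).trans (min_le_left _ _)
  have he3 : e ≤ s / 2 := by
    rw [he]; exact (min_le_right _ _).trans ((min_le_right _ _).trans (min_le_left _ _))
  have he4 : e ≤ 1 / (4 * A₂) := by
    rw [he]
    exact (min_le_right _ _).trans ((min_le_right _ _).trans ((min_le_right _ _).trans
      (min_le_left _ _)))
  have he5 : e ≤ δ / (16 * Real.pi * A₂) := by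
    rw [he]
    exact (min_le_right _ _).trans ((min_le_right _ _).trans ((min_le_right _ _).trans
      ((min_le_right _ _).trans (min_le_left _ _))))
  have he6 : e ≤ (s - x₁) / 2 := by
    rw [he]
    exact (min_le_right _ _).trans ((min_le_right _ _).trans ((min_le_right _ _).trans
      ((min_le_right _ _).trans (min_le_right _ _))))
  rw [le_div_iff₀ (by positivity)] at he4 he5
  refine ⟨min (e / 4) (A₂ * (δ * e / 24) ^ 2), lt_min (by linarith) (by positivity), ?_⟩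
  intro r hr hrr x₀ hx0 hx01 n hn
  have hr1 : r ≤ e / 4 := hrr.trans (min_le_left _ _)
  have hr2 : r ≤ A₂ * (δ * e / 24) ^ 2 := hrr.trans (min_le_right _ _)
  by_contra hcon
  rw [not_le] at hcon
  have hGle : ∀ x, |x - s| ≤ e → G x ≤ A₂ := by
    intro x hx
    have : dist x s < η₁ := by
      rw [Real.dist_eq]
      linarith
    exact (hG this).le
  have hex : ∃ m, s + e < Y F x₀ r m := ⟨n, by linarith⟩
  obtain ⟨m, hm, hmin⟩ : ∃ m, s + e < Y F x₀ r m ∧ ∀ i < m, Y F x₀ r i ≤ s + e := by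
    classical
    exact ⟨Nat.find hex, Nat.find_spec hex, fun i hi => not_lt.1 (Nat.find_min hex hi)⟩
  have hmn : m ≤ n := by
    by_contra h
    rw [not_le] at h
    have := hmin n h
    linarith
  have hex1 : ∃ m, s - e ≤ Y F x₀ r m := ⟨m, by linarith⟩
  obtain ⟨m₁, hm₁, hmin₁⟩ : ∃ m₁, s - e ≤ Y F x₀ r m₁ ∧ ∀ i < m₁, Y F x₀ r i < s - e := by
    classical
    exact ⟨Nat.find hex1, Nat.find_spec hex1, fun i hi => not_le.1 (Nat.find_min hex1 hi)⟩
  have hm₁pos : 1 ≤ m₁ := by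
    by_contra hc
    have h0 : m₁ = 0 := by omega
    rw [h0] at hm₁
    have : Y F x₀ r 0 = x₀ := rfl
    rw [this] at hm₁
    linarith
  have hYm₁ : Y F x₀ r m₁ ≤ s - e / 2 := by
    obtain ⟨j, rfl⟩ := Nat.exists_eq_add_of_le' hm₁pos
    have h1 := hmin₁ j (by omega)
    have h2 := Y_nonneg h hx0 hr.le j
    rw [Y_succ]
    have h3 : F (Y F x₀ r j) ≤ F (s - e) := h.mono _ _ h2 h1.le
    have h4 := h.eq (s - e) (by linarith)
    have h5 := hGle (s - e) (by
      have : s - e - s = -e := by ring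
      rw [this, abs_neg, abs_of_pos he0])
    have h6 : (s - e - s) ^ 2 * G (s - e) ≤ e / 4 := by
      have : (s - e - s) ^ 2 = e ^ 2 := by ring
      rw [this]
      calc e ^ 2 * G (s - e) ≤ e ^ 2 * A₂ := by gcongr
        _ = e * (e * (4 * A₂)) / 4 := by ring
        _ ≤ e * 1 / 4 := by gcongr
        _ = e / 4 := by ring
    linarith
  have hm₁m : m₁ ≤ m := by
    by_contra h
    rw [not_le] at h
    have := hmin₁ m h
    linarith
  obtain ⟨B, hB⟩ : ∃ B, B = √(A₂ / r) := ⟨_, rfl⟩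
  have hB0 : 0 < B := by rw [hB]; positivity
  obtain ⟨q, hq⟩ : ∃ q, q = √(A₂ * r) / (1 - 2 * A₂ * e) := ⟨_, rfl⟩
  have h2Ae : 2 * A₂ * e ≤ 1 / 2 := by nlinarith
  have hq0 : 0 ≤ q := by
    rw [hq]
    apply div_nonneg (Real.sqrt_nonneg _)
    linarith
  have htel : ∀ i, m₁ ≤ i → i ≤ m → Real.arctan (B * (Y F x₀ r i - s)) -
      Real.arctan (B * (Y F x₀ r m₁ - s)) ≤ ((i : ℝ) - m₁) * q := by
    intro i hi
    induction i, hi using Nat.le_induction with
    | base => intro _; simp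
    | succ i hi ih =>
      intro him
      have h1 := ih (by omega)
      have h2 := hmin i (by omega)
      have h3 : Y F x₀ r m₁ ≤ Y F x₀ r i := Y_mono h hx0 hr.le hi
      have h4 : |Y F x₀ r i - s| ≤ e := by
        rw [abs_le]
        constructor <;> linarith
      have h5 := incr_le (A := A₂) (r := r) (y := Y F x₀ r i - s)
        (k := (Y F x₀ r i - s) ^ 2 * G (Y F x₀ r i) + r) (η := e) hA₂0 hr (by
          have h6 := h.ge _ (Y_nonneg h hx0 hr.le i)
          have h7 := h.κ_pos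
          have h8 : 0 ≤ (Y F x₀ r i - s) ^ 2 * G (Y F x₀ r i) :=
            mul_nonneg (sq_nonneg _) (by linarith)
          linarith) (by
          have h6 := hGle _ h4
          have h7 : (Y F x₀ r i - s) ^ 2 * G (Y F x₀ r i) ≤ (Y F x₀ r i - s) ^ 2 * A₂ := by gcongr
          linarith) h4 (by linarith)
      rw [← hB, ← hq] at h5
      have h6 : Y F x₀ r (i + 1) - s = Y F x₀ r i - s +
          ((Y F x₀ r i - s) ^ 2 * G (Y F x₀ r i) + r) := by
        rw [Y_step h hx0 hr.le]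
        ring
      rw [h6]
      push_cast
      linarith
  have h1 := htel m hm₁m le_rfl
  have h2 : Real.pi / 2 - 1 / (B * e) ≤ Real.arctan (B * (Y F x₀ r m - s)) := by
    refine (arctan_ge (by positivity)).trans ?_
    apply Real.arctan_mono
    gcongr
    linarith
  have h3 : Real.arctan (B * (Y F x₀ r m₁ - s)) ≤ -(Real.pi / 2 - 1 / (B * (e / 2))) := by
    have h4 : Real.arctan (B * (Y F x₀ r m₁ - s)) ≤ Real.arctan (-(B * (e / 2))) := by
      apply Real.arctan_mono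
      nlinarith
    rw [Real.arctan_neg] at h4
    have h5 := arctan_ge (x := B * (e / 2)) (by positivity)
    linarith
  have h4 : ((m : ℝ) - m₁) * q ≤ n * q := by
    apply mul_le_mul_of_nonneg_right _ hq0
    have h5 : (m : ℝ) ≤ n := by exact_mod_cast hmn
    have h6 : (0 : ℝ) ≤ m₁ := Nat.cast_nonneg _
    linarith
  have h5 : n * q * (1 - 2 * A₂ * e) ≤ Real.pi - δ / 2 := by
    have h6 : n * q * (1 - 2 * A₂ * e) = n * √(A₂ * r) := by
      rw [hq, mul_assoc, div_mul_cancel₀ _ (by linarith)]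
    have h7 : √(A₂ * r) = (1 + τ) * √(G s * r) := by
      rw [hA₂, show G s * (1 + τ) ^ 2 * r = (1 + τ) ^ 2 * (G s * r) by ring,
        Real.sqrt_mul (by positivity), Real.sqrt_sq (by positivity)]
    rw [h6, h7]
    have h8 : τ * Real.pi = δ / 2 := by
      rw [hτ]
      field_simp
    calc (n : ℝ) * ((1 + τ) * √(G s * r)) = (1 + τ) * (n * √(G s * r)) := by ring
      _ ≤ (1 + τ) * (Real.pi - δ) := by gcongr
      _ ≤ Real.pi - δ / 2 := by nlinarith
  have h6 : Real.pi - 3 / (B * e) ≤ n * q := by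
    have e1 : 1 / (B * (e / 2)) = 2 * (1 / (B * e)) := by
      field_simp
    have e2 : 3 / (B * e) = 3 * (1 / (B * e)) := by ring
    rw [e1] at h3
    rw [e2]
    linarith
  have h7 : 3 / (B * e) ≤ δ / 8 := by
    have h8 : 24 / (δ * e) ≤ B := by
      rw [hB]
      apply Real.le_sqrt_of_sq_le
      rw [le_div_iff₀ hr]
      calc (24 / (δ * e)) ^ 2 * r ≤ (24 / (δ * e)) ^ 2 * (A₂ * (δ * e / 24) ^ 2) := by gcongr
        _ = A₂ := by
          field_simp
    rw [div_le_div_iff₀ (by positivity) (by norm_num)]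
    rw [div_le_iff₀ (by positivity)] at h8
    linarith
  have h8 : (Real.pi - δ / 8) * (1 - 2 * A₂ * e) ≤ Real.pi - δ / 2 := by
    refine le_trans ?_ h5
    apply mul_le_mul_of_nonneg_right _ (by linarith)
    linarith
  have h9 : 0 ≤ δ / 8 * (2 * A₂ * e) := by positivity
  have h10 : Real.pi * (2 * A₂ * e) ≤ δ / 8 := by linarith
  have h11 : (Real.pi - δ / 8) * (1 - 2 * A₂ * e) = Real.pi - δ / 8 - Real.pi * (2 * A₂ * e) +
    δ / 8 * (2 * A₂ * e) := by ring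
  rw [h11] at h8
  linarith

set_option maxHeartbeats 4000000 in
/-- **The orbit has escaped at the time `π / √(A r)`.** -/
theorem escape (h : Par F G s κ) {δ : ℝ} (hδ : 0 < δ) (K : ℝ) :
    ∃ r₀ : ℝ, 0 < r₀ ∧ ∀ r : ℝ, 0 < r → r ≤ r₀ → ∀ n : ℕ,
      Real.pi + δ ≤ (n : ℝ) * √(G s * r) → K ≤ Y F 0 r n := by
  have hpi := Real.pi_pos
  have hs := h.s_pos
  have hA : 0 < G s := h.κ_pos.trans_le (h.ge s hs.le)
  obtain ⟨τ, hτ⟩ : ∃ τ, τ = min (1 / 4) (δ / (32 * Real.pi)) := ⟨_, rfl⟩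
  have hτ0 : 0 < τ := by rw [hτ]; exact lt_min (by norm_num) (by positivity)
  have hτ1 : τ ≤ 1 / 4 := by rw [hτ]; exact min_le_left _ _
  have hτ2 : τ ≤ δ / (32 * Real.pi) := by rw [hτ]; exact min_le_right _ _
  rw [le_div_iff₀ (by positivity)] at hτ2
  obtain ⟨A₁, hA₁⟩ : ∃ A₁, A₁ = G s * (1 - τ) ^ 2 := ⟨_, rfl⟩
  have hτ3 : 0 < 1 - τ := by linarith
  have hA₁0 : 0 < A₁ := by rw [hA₁]; positivity
  have hAA₁ : A₁ < G s := by
    rw [hA₁]
    have : (1 - τ) ^ 2 < 1 := by nlinarith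
    nlinarith
  have hev : ∀ᶠ x in 𝓝 s, A₁ < G x :=
    h.cont.continuousAt.eventually (lt_mem_nhds hAA₁)
  obtain ⟨η₁, hη₁, hG⟩ := Metric.eventually_nhds_iff.1 hev
  obtain ⟨e, he⟩ : ∃ e, e = min (η₁ / 2) (min 1 (τ / (8 * A₁ + 4 * A₁ ^ 2))) := ⟨_, rfl⟩
  have he0 : 0 < e := by
    rw [he]
    exact lt_min (by linarith) (lt_min one_pos (by positivity))
  have he1 : e ≤ η₁ / 2 := by rw [he]; exact min_le_left _ _
  have he2 : e ≤ 1 := by rw [he]; exact (min_le_right _ _).trans (min_le_left _ _)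
  have he3 : e ≤ τ / (8 * A₁ + 4 * A₁ ^ 2) := by
    rw [he]; exact (min_le_right _ _).trans (min_le_right _ _)
  rw [le_div_iff₀ (by positivity)] at he3
  obtain ⟨N₁, hN₁⟩ := exists_N1 h he0
  obtain ⟨N₂, hN₂⟩ := exists_N2 h he0 K
  refine ⟨min (τ / (2 * A₁)) ((δ / (4 * (N₁ + N₂ + 1))) ^ 2 / G s), lt_min (by positivity)
    (by positivity), ?_⟩
  intro r hr hrr n hn
  have hr1 : r ≤ τ / (2 * A₁) := hrr.trans (min_le_left _ _)
  have hr2 : r ≤ (δ / (4 * (N₁ + N₂ + 1))) ^ 2 / G s := hrr.trans (min_le_right _ _)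
  rw [le_div_iff₀ (by positivity)] at hr1 hr2
  have hsq : √(G s * r) ≤ δ / (4 * (N₁ + N₂ + 1)) := by
    apply Real.sqrt_le_iff.2
    refine ⟨by positivity, ?_⟩
    linarith
  rw [le_div_iff₀ (by positivity)] at hsq
  have hsr : 0 < √(G s * r) := by positivity
  have hNN : ((N₁ : ℝ) + N₂) * √(G s * r) ≤ δ / 4 := by nlinarith
  have hnN : N₁ + N₂ < n := by
    have h1 : ((N₁ : ℝ) + N₂) * √(G s * r) < n * √(G s * r) := by linarith
    have h2 := lt_of_mul_lt_mul_right h1 hsr.le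
    exact_mod_cast h2
  obtain ⟨M, hM⟩ := Nat.exists_eq_add_of_lt hnN
  by_cases hall : ∀ i ≤ N₁ + (M + 1), Y F 0 r i ≤ s + e
  · exfalso
    obtain ⟨B, hB⟩ : ∃ B, B = √(A₁ / r) := ⟨_, rfl⟩
    obtain ⟨q, hq⟩ : ∃ q, q = √(A₁ * r) / (1 + 2 * A₁ * e + A₁ * (A₁ * e ^ 2 + r)) := ⟨_, rfl⟩
    have htel : ∀ j ≤ M + 1, (j : ℝ) * q ≤ Real.arctan (B * (Y F 0 r (N₁ + j) - s)) -
        Real.arctan (B * (Y F 0 r N₁ - s)) := by
      intro j
      induction j with
      | zero => intro _; simp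
      | succ j ih =>
        intro hj
        have h1 := ih (by omega)
        have h2 := hall (N₁ + j) (by omega)
        have h3 := hN₁ 0 r le_rfl hr.le (N₁ + j) (by omega)
        have h4 : |Y F 0 r (N₁ + j) - s| ≤ e := by
          rw [abs_le]
          constructor <;> linarith
        have h5 := le_incr (A := A₁) (r := r) (y := Y F 0 r (N₁ + j) - s)
          (k := (Y F 0 r (N₁ + j) - s) ^ 2 * G (Y F 0 r (N₁ + j)) + r) (η := e) hA₁0 hr (by
            have h6 : A₁ ≤ G (Y F 0 r (N₁ + j)) := by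
              apply le_of_lt
              apply hG
              rw [Real.dist_eq]
              linarith
            have h7 : (Y F 0 r (N₁ + j) - s) ^ 2 * A₁ ≤
              (Y F 0 r (N₁ + j) - s) ^ 2 * G (Y F 0 r (N₁ + j)) := by gcongr
            linarith) h4
        rw [← hB, ← hq] at h5
        have h6 : Y F 0 r (N₁ + (j + 1)) - s = Y F 0 r (N₁ + j) - s +
            ((Y F 0 r (N₁ + j) - s) ^ 2 * G (Y F 0 r (N₁ + j)) + r) := by
          rw [← add_assoc, Y_step h le_rfl hr.le]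
          ring
        rw [h6]
        push_cast
        linarith
    have h1 := htel (M + 1) le_rfl
    have h2 := Real.arctan_lt_pi_div_two (B * (Y F 0 r (N₁ + (M + 1)) - s))
    have h3 := Real.neg_pi_div_two_lt_arctan (B * (Y F 0 r N₁ - s))
    have h4 : ((M : ℝ) + 1) * q < Real.pi := by
      push_cast at h1
      linarith
    have hden : 1 + 2 * A₁ * e + A₁ * (A₁ * e ^ 2 + r) ≤ 1 + τ := by
      have h5 : e ^ 2 ≤ e := by nlinarith
      have h6 : A₁ ^ 2 * e ^ 2 ≤ A₁ ^ 2 * e := by gcongr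
      nlinarith
    have h7 : √(A₁ * r) = (1 - τ) * √(G s * r) := by
      rw [hA₁, show G s * (1 - τ) ^ 2 * r = (1 - τ) ^ 2 * (G s * r) by ring,
        Real.sqrt_mul (by positivity), Real.sqrt_sq hτ3.le]
    have h8 : (1 - τ) * √(G s * r) / (1 + τ) ≤ q := by
      rw [hq, h7]
      gcongr
    have h9 : ((M : ℝ) + 1) * ((1 - τ) * √(G s * r)) < Real.pi * (1 + τ) := by
      have h10 : ((M : ℝ) + 1) * ((1 - τ) * √(G s * r) / (1 + τ)) < Real.pi := by
        refine lt_of_le_of_lt ?_ h4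
        gcongr
      rw [← mul_div_assoc, div_lt_iff₀ (by positivity)] at h10
      exact h10
    have h10 : (n : ℝ) = N₁ + N₂ + (M + 1) := by
      rw [hM]
      push_cast
      ring
    rw [h10] at hn
    have h11 : Real.pi + 3 * δ / 4 ≤ ((M : ℝ) + 1) * √(G s * r) := by linarith
    have h12 : (1 - τ) * (Real.pi + 3 * δ / 4) < Real.pi * (1 + τ) := by
      refine lt_of_le_of_lt ?_ h9
      calc (1 - τ) * (Real.pi + 3 * δ / 4) ≤ (1 - τ) * (((M : ℝ) + 1) * √(G s * r)) := by gcongr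
        _ = _ := by ring
    have h13 : (1 - τ) * (Real.pi + 3 * δ / 4) = Real.pi - τ * Real.pi + 3 * δ / 4 -
      τ * (3 * δ / 4) := by ring
    have h14 : τ * (3 * δ / 4) ≤ 1 / 4 * (3 * δ / 4) := by gcongr
    rw [h13] at h12
    linarith
  · push Not at hall
    obtain ⟨i, hi1, hi2⟩ := hall
    exact hN₂ 0 r le_rfl hr.le i hi2.le n (by omega)

end Pool.Agent.Q186.Cusp.Gen
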