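import Pool.Agent.Q186.Cusp.Gen1
import Pool.Agent.Helper503.WA

/-!
# Perturbations of maps with nonnegative coefficients and a parabolic fixed point
-/

set_option autoImplicit false

open Complex Metric Set Filter Topology

namespace Pool.Agent.Q186.Cusp.Gen

/-- `F` is a majorant of `f₀`. -/
structure Maj (f₀ : ℂ → ℂ) (F : ℝ → ℝ) : Prop where
  maj : ∀ (x y : ℂ) (p q : ℝ), ‖y‖ ≤ p → ‖x‖ ≤ q → ‖x - y‖ ≤ q - p → ‖f₀ x - f₀ y‖ ≤ F q - F p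
  real : ∀ x : ℝ, 0 ≤ x → f₀ x = F x

variable {f₀ : ℂ → ℂ} {F G : ℝ → ℝ} {s κ : ℝ}

theorem Par.F_zero (h : Par F G s κ) : 0 < F 0 := by
  rw [h.eq 0 le_rfl]
  have h1 := h.ge 0 le_rfl
  have h2 := h.κ_pos
  have h3 := h.s_pos
  have h4 : 0 < G 0 := by linarith
  have : (0 : ℝ) + (0 - s) ^ 2 * G 0 = s ^ 2 * G 0 := by ring
  rw [this]
  positivity

theorem Maj.zero (hm : Maj f₀ F) : f₀ 0 = F 0 := by
  have := hm.real 0 le_rfl
  rwa [Complex.ofReal_zero] at this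

theorem Maj.bound (hm : Maj f₀ F) (h : Par F G s κ) {z : ℂ} {q : ℝ} (hz : ‖z‖ ≤ q) :
    ‖f₀ z‖ ≤ F q := by
  have h1 := hm.maj z 0 0 q (by simp) hz (by simpa using hz)
  have h5 := norm_add_le (f₀ z - f₀ 0) (f₀ 0)
  rw [sub_add_cancel] at h5
  have h6 : ‖f₀ 0‖ = F 0 := by
    rw [hm.zero, Complex.norm_real, Real.norm_of_nonneg h.F_zero.le]
  linarith

theorem iter_bound (hm : Maj f₀ F) (h : Par F G s κ) {w : ℂ} {x₀ : ℝ} (hw : ‖w‖ ≤ x₀) (n : ℕ) :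
    ‖f₀^[n] w‖ ≤ Y F x₀ 0 n := by
  induction n with
  | zero => exact hw
  | succ n ih =>
    rw [Function.iterate_succ_apply', Y_succ, add_zero]
    exact hm.bound h ih

/-- **The majorant for a perturbation.** -/
theorem orbit_maj (hm : Maj f₀ F) (h : Par F G s κ) {g : ℂ → ℂ} {R r : ℝ} (hr : 0 ≤ r)
    (hg : ∀ z : ℂ, ‖z‖ ≤ R → ‖g z - f₀ z‖ ≤ r) {w : ℂ} {x₀ : ℝ} (hw : ‖w‖ ≤ x₀) (n : ℕ)
    (hR : ∀ k < n, Y F x₀ r k ≤ R) :
    ‖g^[n] w - f₀^[n] w‖ ≤ Y F x₀ r n - Y F x₀ 0 n := by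
  induction n with
  | zero =>
    show ‖w - w‖ ≤ x₀ - x₀
    simp
  | succ n ih =>
    have h1 := ih fun k hk => hR k (by omega)
    have h2 := iter_bound hm h hw n
    have h3 : ‖g^[n] w‖ ≤ Y F x₀ r n := by
      have := norm_add_le (g^[n] w - f₀^[n] w) (f₀^[n] w)
      rw [sub_add_cancel] at this
      linarith
    have h4 := hm.maj _ _ _ _ h2 h3 h1
    have h5 := hg (g^[n] w) (h3.trans (hR n (by omega)))
    rw [Function.iterate_succ_apply', Function.iterate_succ_apply', Y_succ, Y_succ]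
    have e : g (g^[n] w) - f₀ (f₀^[n] w) = (g (g^[n] w) - f₀ (g^[n] w)) +
        (f₀ (g^[n] w) - f₀ (f₀^[n] w)) := by ring
    rw [e]
    refine (norm_add_le _ _).trans ?_
    linarith

theorem orbit_conv (hm : Maj f₀ F) (h : Par F G s κ) {w : ℂ} {x₀ : ℝ} (hw : ‖w‖ ≤ x₀) (n : ℕ) :
    ‖f₀^[n] w - (Y F 0 0 n : ℝ)‖ ≤ Y F x₀ 0 n - Y F 0 0 n := by
  induction n with
  | zero =>
    show ‖w - ((0 : ℝ) : ℂ)‖ ≤ x₀ - 0
    simpa using hw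
  | succ n ih =>
    have h1 := Y_nonneg h le_rfl (le_refl (0 : ℝ)) n
    rw [Function.iterate_succ_apply', Y_succ, Y_succ, add_zero, add_zero, ← hm.real _ h1]
    apply hm.maj
    · rw [Complex.norm_real, Real.norm_of_nonneg h1]
    · exact iter_bound hm h hw n
    · exact ih

/-- **No cycle of bounded period in a compact part of the disc.** -/
theorem no_cycle (hm : Maj f₀ F) (h : Par F G s κ) {δ s₁ R : ℝ} (hδ : 0 < δ) (hs₁ : s₁ < s)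
    (hR : s < R) :
    ∃ r₀ : ℝ, 0 < r₀ ∧ ∀ r : ℝ, 0 < r → r ≤ r₀ → ∀ g : ℂ → ℂ,
      (∀ z : ℂ, ‖z‖ ≤ R → ‖g z - f₀ z‖ ≤ r) → ∀ w : ℂ, ‖w‖ ≤ s₁ → ∀ p : ℕ, 1 ≤ p →
        g^[p] w = w → Real.pi - δ < p * √(G s * r) := by
  have hs := h.s_pos
  have hA : 0 < G s := h.κ_pos.trans_le (h.ge s hs.le)
  by_cases hδπ : Real.pi ≤ δ
  · refine ⟨1, one_pos, fun r hr _ g _ w _ p hp _ => ?_⟩
    have h1 : (0 : ℝ) < p := by exact_mod_cast hp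
    have : 0 < (p : ℝ) * √(G s * r) := by positivity
    linarith
  rw [not_le] at hδπ
  obtain ⟨η, hη⟩ : ∃ η, η = min (R - s) ((s - s₁) / 8) := ⟨_, rfl⟩
  have hη0 : 0 < η := by rw [hη]; exact lt_min (by linarith) (by linarith)
  have hη1 : η ≤ R - s := by rw [hη]; exact min_le_left _ _
  have hη2 : η ≤ (s - s₁) / 8 := by rw [hη]; exact min_le_right _ _
  obtain ⟨N₁, hN₁⟩ := exists_N1 h hη0
  obtain ⟨r₁, hr₁, hgate⟩ := gate h hδ hη0 hs₁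
  obtain ⟨B, hB⟩ : ∃ B : ℝ, B = (Real.pi - δ) / ((N₁ : ℝ) + 1) ^ 2 := ⟨_, rfl⟩
  have hB0 : 0 < B := by
    rw [hB]
    apply div_pos (by linarith) (by positivity)
  refine ⟨min r₁ (B ^ 2 / G s), lt_min hr₁ (by positivity), ?_⟩
  intro r hr hrr g hg w hw p hp hper
  have hrr1 : r ≤ r₁ := hrr.trans (min_le_left _ _)
  have hrr2 : r ≤ B ^ 2 / G s := hrr.trans (min_le_right _ _)
  rw [le_div_iff₀ hA] at hrr2
  by_contra hcon
  rw [not_lt] at hcon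
  have hsq : √(G s * r) ≤ B := by
    rw [Real.sqrt_le_left hB0.le]
    linarith
  have hs₁0 : 0 ≤ s₁ := (norm_nonneg w).trans hw
  -- a multiple of the period
  obtain ⟨P, hP1, hP2, hP3⟩ : ∃ P : ℕ, N₁ ≤ P ∧ (P : ℝ) * √(G s * r) ≤ Real.pi - δ ∧
      g^[P] w = w := by
    rcases le_or_gt N₁ p with h1 | h1
    · exact ⟨p, h1, hcon, hper⟩
    · refine ⟨p * (N₁ + 1), by nlinarith, ?_, ?_⟩
      · have h2 : ((p * (N₁ + 1) : ℕ) : ℝ) ≤ ((N₁ : ℝ) + 1) ^ 2 := by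
          push_cast
          have h3 : (p : ℝ) ≤ N₁ + 1 := by exact_mod_cast (by omega : p ≤ N₁ + 1)
          nlinarith
        calc ((p * (N₁ + 1) : ℕ) : ℝ) * √(G s * r) ≤ ((N₁ : ℝ) + 1) ^ 2 * B := by gcongr
          _ = Real.pi - δ := by
            rw [hB]
            field_simp
      · exact Function.IsPeriodicPt.mul_const (f := g) hper (N₁ + 1)
  have hY : ∀ k ≤ P, Y F s₁ r k ≤ s + η := by
    intro k hk
    apply hgate r hr hrr1 s₁ hs₁0 le_rfl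
    refine le_trans ?_ hP2
    apply mul_le_mul_of_nonneg_right _ (Real.sqrt_nonneg _)
    exact_mod_cast hk
  have h1 := orbit_maj hm h hr.le hg hw P fun k hk => (hY k hk.le).trans (by linarith)
  have h2 := orbit_conv hm h hw P
  have h3 := hN₁ s₁ 0 hs₁0 le_rfl P hP1
  have h4 := hN₁ 0 0 le_rfl le_rfl P hP1
  have h5 := Y_zero_le h hs₁0 hs₁.le P
  have h6 := hY P le_rfl
  have h7 : ‖((Y F 0 0 P : ℝ) : ℂ)‖ = Y F 0 0 P := by
    rw [Complex.norm_real, Real.norm_of_nonneg (Y_nonneg h le_rfl le_rfl P)]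
  have h8 : ‖((Y F 0 0 P : ℝ) : ℂ)‖ ≤ ‖w‖ + ‖g^[P] w - f₀^[P] w‖ +
      ‖f₀^[P] w - (Y F 0 0 P : ℝ)‖ := by
    have e : ((Y F 0 0 P : ℝ) : ℂ) = w - (g^[P] w - f₀^[P] w) - (f₀^[P] w - (Y F 0 0 P : ℝ)) := by
      rw [hP3]
      ring
    calc ‖((Y F 0 0 P : ℝ) : ℂ)‖ = ‖w - (g^[P] w - f₀^[P] w) - (f₀^[P] w - (Y F 0 0 P : ℝ))‖ := by
          rw [← e]
      _ ≤ ‖w - (g^[P] w - f₀^[P] w)‖ + ‖f₀^[P] w - (Y F 0 0 P : ℝ)‖ := norm_sub_le _ _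
      _ ≤ _ := by
        have := norm_sub_le w (g^[P] w - f₀^[P] w)
        linarith
  rw [h7] at h8
  linarith

/-- The orbit of zero under `f₀ + c`. -/
noncomputable def Q (f₀ : ℂ → ℂ) (k : ℕ) (c : ℂ) : ℂ := (fun z => f₀ z + c)^[k] 0

theorem Q_zero (c : ℂ) : Q f₀ 0 c = 0 := rfl

theorem Q_succ (k : ℕ) (c : ℂ) : Q f₀ (k + 1) c = f₀ (Q f₀ k c) + c := by
  unfold Q
  rw [Function.iterate_succ_apply']

theorem Q_real (hm : Maj f₀ F) (h : Par F G s κ) {r : ℝ} (hr : 0 ≤ r) (k : ℕ) :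
    Q f₀ k r = (Y F 0 r k : ℝ) := by
  induction k with
  | zero =>
    rw [Q_zero]
    show (0 : ℂ) = ((0 : ℝ) : ℂ)
    simp
  | succ k ih =>
    rw [Q_succ, ih, hm.real _ (Y_nonneg h le_rfl hr k), Y_succ]
    push_cast
    rfl

theorem Q_diff (hf : Differentiable ℂ f₀) (k : ℕ) : Differentiable ℂ (Q f₀ k) := by
  induction k with
  | zero =>
    have : Q f₀ 0 = fun _ => (0 : ℂ) := by funext c; exact Q_zero c
    rw [this]
    exact differentiable_const _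
  | succ k ih =>
    have : Q f₀ (k + 1) = fun c => f₀ (Q f₀ k c) + c := by funext c; exact Q_succ k c
    rw [this]
    exact (hf.comp ih).add differentiable_id

set_option maxHeartbeats 4000000 in
/-- **Existence of superattracting parameters of bounded period.** -/
theorem exists_cycle (hm : Maj f₀ F) (h : Par F G s κ) (hf : Differentiable ℂ f₀) {ζ₀ : ℂ}
    (hζ₀ : f₀ ζ₀ = 0) (hζ₁ : deriv f₀ ζ₀ ≠ 0) {δ : ℝ} (hδ : 0 < δ) :
    ∃ r₀ : ℝ, 0 < r₀ ∧ ∀ r : ℝ, 0 < r → r ≤ r₀ → ∀ N : ℕ,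
      Real.pi + δ ≤ N * √(G s * r) → ∃ c : ℂ, ‖c‖ ≤ r ∧ ∃ p : ℕ, 1 ≤ p ∧ p ≤ N + 1 ∧
        Q f₀ p c = 0 := by
  have hpi := Real.pi_pos
  have hs := h.s_pos
  have hA : 0 < G s := h.κ_pos.trans_le (h.ge s hs.le)
  have hF0 := h.F_zero
  have hζ0 : ζ₀ ≠ 0 := by
    rintro rfl
    rw [hm.zero] at hζ₀
    have : F 0 = 0 := by exact_mod_cast hζ₀
    linarith
  have hζ0n : 0 < ‖ζ₀‖ := norm_pos_iff.2 hζ0
  obtain ⟨D, hD⟩ : ∃ D, D = ‖deriv f₀ ζ₀‖ := ⟨_, rfl⟩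
  have hD0 : 0 < D := by rw [hD]; exact norm_pos_iff.2 hζ₁
  -- the constants
  obtain ⟨b, hb⟩ : ∃ b, b = (Real.pi + δ / 2) / (Real.pi + δ) := ⟨_, rfl⟩
  have hb0 : 0 < b := by rw [hb]; positivity
  have hb1 : b < 1 := by
    rw [hb, div_lt_one (by positivity)]
    linarith
  have hbb : b ^ 2 < 1 := by nlinarith
  obtain ⟨δ₂, hδ₂⟩ : ∃ δ₂, δ₂ = (1 - b ^ 2) / 4 := ⟨_, rfl⟩
  have hδ₂0 : 0 < δ₂ := by rw [hδ₂]; linarith
  have hδ₂1 : δ₂ < 1 / 4 := by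
    rw [hδ₂]
    have : 0 < b ^ 2 := by positivity
    linarith
  -- `θ` bounds the modulus of the point
  obtain ⟨θ, hθ⟩ : ∃ θ, θ = b ^ 2 * (1 + δ₂) / (1 - δ₂) := ⟨_, rfl⟩
  have hθ0 : 0 < θ := by
    rw [hθ]
    apply div_pos (by positivity)
    linarith
  have hθ1 : θ < 1 := by
    rw [hθ, div_lt_one (by linarith)]
    have h1 : b ^ 2 = 1 - 4 * δ₂ := by rw [hδ₂]; ring
    rw [h1]
    nlinarith
  obtain ⟨K₁, hK₁⟩ : ∃ K₁, K₁ = Real.exp (Real.pi * Real.exp (Real.pi *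
    ((194 + (2 * s / ‖ζ₀‖ + 1)) / (1 - θ)))) := ⟨_, rfl⟩
  obtain ⟨K₂, hK₂⟩ : ∃ K₂, K₂ = (K₁ + 1) * ‖ζ₀‖ := ⟨_, rfl⟩
  obtain ⟨r₁, hr₁, hesc⟩ := escape h (δ := δ / 2) (by linarith) (K₂ + 1)
  -- the derivative
  have hsd : HasStrictDerivAt f₀ (deriv f₀ ζ₀) ζ₀ := by
    have h1 : AnalyticAt ℂ f₀ ζ₀ := hf.analyticAt ζ₀
    exact h1.hasStrictDerivAt
  have hev : ∀ᶠ x in 𝓝 ζ₀, ‖f₀ x - deriv f₀ ζ₀ * (x - ζ₀)‖ ≤ δ₂ * D * ‖x - ζ₀‖ := by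
    have h1 := hsd.hasDerivAt.isLittleO.def (show 0 < δ₂ * D by positivity)
    filter_upwards [h1] with x hx
    rw [hζ₀, sub_zero, smul_eq_mul, mul_comm (x - ζ₀)] at hx
    exact hx
  obtain ⟨τ₁, hτ₁, hlin⟩ := Metric.eventually_nhds_iff.1 hev
  have hup : ∀ x : ℂ, dist x ζ₀ < τ₁ → ‖f₀ x‖ ≤ D * (1 + δ₂) * ‖x - ζ₀‖ := by
    intro x hx
    have h1 := hlin hx
    have h2 := norm_add_le (f₀ x - deriv f₀ ζ₀ * (x - ζ₀)) (deriv f₀ ζ₀ * (x - ζ₀))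
    rw [sub_add_cancel, norm_mul, ← hD] at h2
    linarith
  have hlow : ∀ x : ℂ, dist x ζ₀ < τ₁ → D * (1 - δ₂) * ‖x - ζ₀‖ ≤ ‖f₀ x‖ := by
    intro x hx
    have h1 := hlin hx
    have h2 := norm_sub_le (f₀ x) (f₀ x - deriv f₀ ζ₀ * (x - ζ₀))
    rw [sub_sub_cancel, norm_mul, ← hD] at h2
    linarith
  obtain ⟨τ₀, hτ₀⟩ : ∃ τ₀, τ₀ = min τ₁ (‖ζ₀‖ / 2) := ⟨_, rfl⟩
  have hτ₀0 : 0 < τ₀ := by rw [hτ₀]; exact lt_min hτ₁ (by positivity)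
  have himg : f₀ '' ball ζ₀ τ₀ ∈ 𝓝 (0 : ℂ) := by
    have h1 := hsd.map_nhds_eq hζ₁
    rw [hζ₀] at h1
    rw [← h1]
    exact Filter.image_mem_map (ball_mem_nhds _ hτ₀0)
  obtain ⟨r₂, hr₂, himg2⟩ := Metric.mem_nhds_iff.1 himg
  refine ⟨min r₁ (min (r₂ / 2) (D * τ₀ / 2)), lt_min hr₁ (lt_min (by linarith) (by positivity)), ?_⟩
  intro r hr hrr N hN
  have hrr1 : r ≤ r₁ := hrr.trans (min_le_left _ _)
  have hrr2 : r ≤ r₂ / 2 := hrr.trans ((min_le_right _ _).trans (min_le_left _ _))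
  have hrr3 : r ≤ D * τ₀ / 2 := hrr.trans ((min_le_right _ _).trans (min_le_right _ _))
  by_contra hcon
  push Not at hcon
  -- the radius of the disc
  obtain ⟨τ, hτ⟩ : ∃ τ, τ = r / (D * (1 + δ₂)) := ⟨_, rfl⟩
  have hτ0 : 0 < τ := by rw [hτ]; positivity
  have hττ₀ : τ < τ₀ := by
    rw [hτ, div_lt_iff₀ (by positivity)]
    have h1 : 0 < D * τ₀ := by positivity
    have h2 : 0 < D * τ₀ * δ₂ := by positivity
    nlinarith
  have hττ₁ : τ < τ₁ := hττ₀.trans_le (by rw [hτ₀]; exact min_le_left _ _)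
  have hτζ : τ < ‖ζ₀‖ / 2 := hττ₀.trans_le (by rw [hτ₀]; exact min_le_right _ _)
  -- the real parameter
  obtain ⟨ε, hε⟩ : ∃ ε, ε = b ^ 2 * r := ⟨_, rfl⟩
  have hε0 : 0 < ε := by rw [hε]; positivity
  have hεr : ε < r := by rw [hε]; nlinarith
  obtain ⟨ζ₂, hζ₂, hζ₂f⟩ : -(ε : ℂ) ∈ f₀ '' ball ζ₀ τ₀ := by
    apply himg2
    rw [mem_ball_zero_iff, norm_neg, Complex.norm_real, Real.norm_of_nonneg hε0.le]
    linarith
  have hζ₂' : dist ζ₂ ζ₀ < τ₁ := (mem_ball.1 hζ₂).trans_le (by rw [hτ₀]; exact min_le_left _ _)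
  have hζ₂n : ‖ζ₂ - ζ₀‖ ≤ θ * τ := by
    have h1 := hlow ζ₂ hζ₂'
    rw [hζ₂f, norm_neg, Complex.norm_real, Real.norm_of_nonneg hε0.le] at h1
    have h2 : 0 < 1 - δ₂ := by linarith
    have h3 : θ * τ = ε / (D * (1 - δ₂)) := by
      rw [hθ, hτ, hε]
      field_simp
    rw [h3, le_div_iff₀ (by positivity)]
    linarith
  -- the functions on the unit disc
  obtain ⟨z, hz⟩ : ∃ z : ℂ → ℂ, z = fun w => ζ₀ + τ * w := ⟨_, rfl⟩
  have hzb : ∀ w ∈ ball (0 : ℂ) 1, ‖z w - ζ₀‖ < τ := by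
    intro w hw
    rw [mem_ball_zero_iff] at hw
    rw [hz]
    simp only [add_sub_cancel_left]
    rw [norm_mul, Complex.norm_real, Real.norm_of_nonneg hτ0.le]
    nlinarith
  have hzne : ∀ w ∈ ball (0 : ℂ) 1, z w ≠ 0 := by
    intro w hw h1
    have h2 := hzb w hw
    rw [h1, zero_sub, norm_neg] at h2
    linarith
  have hzc : ∀ w ∈ ball (0 : ℂ) 1, ‖-f₀ (z w)‖ ≤ r := by
    intro w hw
    have h1 := hzb w hw
    have h2 := hup (z w) (by rw [dist_eq_norm]; linarith)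
    rw [norm_neg]
    refine h2.trans ?_
    have h3 : D * (1 + δ₂) * ‖z w - ζ₀‖ ≤ D * (1 + δ₂) * τ := by gcongr
    refine h3.trans (le_of_eq ?_)
    rw [hτ]
    field_simp
  have hN1 : 1 ≤ N := by
    by_contra h1
    have h2 : N = 0 := by omega
    rw [h2, Nat.cast_zero, zero_mul] at hN
    linarith
  obtain ⟨u, hu⟩ : ∃ u : ℂ → ℂ, u = fun w => 2 * (Q f₀ N (-f₀ (z w)) / z w) - 1 := ⟨_, rfl⟩
  have hzd : Differentiable ℂ z := by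
    rw [hz]
    fun_prop
  have hud : DifferentiableOn ℂ u (ball 0 1) := by
    rw [hu]
    apply DifferentiableOn.sub_const
    apply DifferentiableOn.const_mul
    refine DifferentiableOn.div ?_ hzd.differentiableOn fun w hw => hzne w hw
    exact ((Q_diff hf N).comp ((hf.comp hzd).neg)).differentiableOn
  have hu1 : ∀ w ∈ ball (0 : ℂ) 1, u w ≠ 1 := by
    intro w hw h1
    have h2 : Q f₀ N (-f₀ (z w)) / z w = 1 := by
      rw [hu] at h1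
      have h3 : 2 * (Q f₀ N (-f₀ (z w)) / z w) - 1 = 1 := h1
      linear_combination h3 / 2
    rw [div_eq_one_iff_eq (hzne w hw)] at h2
    apply hcon _ (hzc w hw) (N + 1) (by omega) le_rfl
    rw [Q_succ, h2]
    ring
  have hu2 : ∀ w ∈ ball (0 : ℂ) 1, u w ≠ -1 := by
    intro w hw h1
    have h2 : Q f₀ N (-f₀ (z w)) / z w = 0 := by
      rw [hu] at h1
      have h3 : 2 * (Q f₀ N (-f₀ (z w)) / z w) - 1 = -1 := h1
      linear_combination h3 / 2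
    rw [div_eq_zero_iff, or_iff_left (hzne w hw)] at h2
    exact hcon _ (hzc w hw) N hN1 (by omega) h2
  have hu0 : ‖u 0‖ ≤ 2 * s / ‖ζ₀‖ + 1 := by
    have h1 : u 0 = 2 * ((Y F 0 0 N : ℝ) / ζ₀) - 1 := by
      rw [hu, hz]
      simp only [mul_zero, add_zero]
      rw [hζ₀, neg_zero]
      have := Q_real hm h (le_refl (0 : ℝ)) N
      rw [Complex.ofReal_zero] at this
      rw [this]
    rw [h1]
    refine (norm_sub_le _ _).trans ?_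
    rw [norm_one, norm_mul, norm_div, Complex.norm_two, Complex.norm_real,
      Real.norm_of_nonneg (Y_nonneg h le_rfl le_rfl N)]
    have h2 := Y_zero_le h le_rfl hs.le N
    have h3 : 2 * (Y F 0 0 N / ‖ζ₀‖) ≤ 2 * s / ‖ζ₀‖ := by
      rw [← mul_div_assoc]
      gcongr
    linarith
  -- the point
  obtain ⟨w₂, hw₂⟩ : ∃ w₂ : ℂ, w₂ = (ζ₂ - ζ₀) / τ := ⟨_, rfl⟩
  have hτc : (τ : ℂ) ≠ 0 := by exact_mod_cast hτ0.ne'
  have hw₂n : ‖w₂‖ ≤ θ := by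
    rw [hw₂, norm_div, Complex.norm_real, Real.norm_of_nonneg hτ0.le, div_le_iff₀ hτ0]
    exact hζ₂n
  have hw₂b : w₂ ∈ ball (0 : ℂ) 1 := by
    rw [mem_ball_zero_iff]
    linarith
  have hzw₂ : z w₂ = ζ₂ := by
    rw [hz, hw₂]
    field_simp
    ring
  have hsch := Pool.Agent.Helper503.WAC.schottkyU hud hu1 hu2 w₂ hw₂b
  have hK : ‖u w₂‖ ≤ K₁ := by
    refine hsch.trans ?_
    rw [hK₁]
    have h1 : 0 < 1 - θ := by linarith
    have h2 : 0 ≤ 194 + ‖u 0‖ := by positivity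
    gcongr
  have hu₂ : u w₂ = 2 * ((Y F 0 ε N : ℝ) / ζ₂) - 1 := by
    rw [hu]
    simp only []
    rw [hzw₂, hζ₂f, neg_neg, Q_real hm h hε0.le N]
  have hY : K₂ + 1 ≤ Y F 0 ε N := by
    apply hesc ε hε0 (hεr.le.trans hrr1) N
    rw [hε, show G s * (b ^ 2 * r) = b ^ 2 * (G s * r) by ring, Real.sqrt_mul (by positivity),
      Real.sqrt_sq hb0.le]
    have h1 : b * (Real.pi + δ) = Real.pi + δ / 2 := by
      rw [hb]
      field_simp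
    nlinarith
  have hζ₂nn : ‖ζ₂‖ ≤ 2 * ‖ζ₀‖ := by
    have h1 := norm_add_le (ζ₂ - ζ₀) ζ₀
    rw [sub_add_cancel] at h1
    have h2 : ‖ζ₂ - ζ₀‖ ≤ τ := hζ₂n.trans (by nlinarith)
    linarith
  have hζ₂0 : 0 < ‖ζ₂‖ := by
    rw [norm_pos_iff, ← hzw₂]
    exact hzne w₂ hw₂b
  have h1 : 2 * (Y F 0 ε N / ‖ζ₂‖) ≤ K₁ + 1 := by
    have h2 : (2 : ℂ) * ((Y F 0 ε N : ℝ) / ζ₂) = u w₂ + 1 := by rw [hu₂]; ring
    have h3 : ‖(2 : ℂ) * ((Y F 0 ε N : ℝ) / ζ₂)‖ ≤ K₁ + 1 := by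
      rw [h2]
      refine (norm_add_le _ _).trans ?_
      rw [norm_one]
      linarith
    rw [norm_mul, norm_div, Complex.norm_two, Complex.norm_real,
      Real.norm_of_nonneg (Y_nonneg h le_rfl hε0.le N)] at h3
    exact h3
  rw [← mul_div_assoc, div_le_iff₀ hζ₂0] at h1
  have hK₁0 : 0 < K₁ := by rw [hK₁]; exact Real.exp_pos _
  have h2 : (K₁ + 1) * ‖ζ₂‖ ≤ (K₁ + 1) * (2 * ‖ζ₀‖) := by gcongr
  rw [hK₂] at hY
  nlinarith

end Pool.Agent.Q186.Cusp.Gen
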