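import Pool.Agent.Q186.Cusp.Gen3

/-!
# Maps of the Riemann sphere close to a map with nonnegative coefficients
-/

set_option autoImplicit false

open Complex Metric Set Filter Topology

namespace Pool.Agent.Q186.Cusp.Gen

variable {f₀ : ℂ → ℂ} {F G : ℝ → ℝ} {s κ : ℝ}

/-- **No cycle of bounded period in a compact part of the disc, for maps of the sphere.** -/
theorem no_cycle_sphere (hm : Maj f₀ F) (h : Par F G s κ) {δ s₁ R : ℝ} (hδ : 0 < δ) (hs₁ : s₁ < s)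
    (hR : s < R) :
    ∃ r₀ : ℝ, 0 < r₀ ∧ ∀ r : ℝ, 0 < r → r ≤ r₀ → ∀ g : OnePoint ℂ → OnePoint ℂ,
      (∀ z : ℂ, ‖z‖ ≤ R → ∃ y : ℂ, g z = y ∧ ‖y - f₀ z‖ ≤ r) → ∀ w : ℂ, ‖w‖ ≤ s₁ → ∀ p : ℕ, 1 ≤ p →
        g^[p] w = w → Real.pi - δ < p * √(G s * r) := by
  have hs := h.s_pos
  obtain ⟨r₀, hr₀, H⟩ := no_cycle hm h hδ hs₁ hR
  obtain ⟨r₁, hr₁, hgate⟩ := gate h hδ (sub_pos.2 hR) hs₁
  refine ⟨min r₀ r₁, lt_min hr₀ hr₁, ?_⟩
  intro r hr hrr g hg w hw p hp hper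
  by_contra hcon
  rw [not_lt] at hcon
  have hs₁0 : 0 ≤ s₁ := (norm_nonneg w).trans hw
  choose y hy1 hy2 using hg
  obtain ⟨g', hg'⟩ : ∃ g' : ℂ → ℂ, ∀ (z : ℂ) (hz : ‖z‖ ≤ R), g' z = y z hz := by
    classical
    refine ⟨fun z => if hz : ‖z‖ ≤ R then y z hz else 0, fun z hz => ?_⟩
    simp [hz]
  have hg'1 : ∀ z : ℂ, ‖z‖ ≤ R → g z = (g' z : ℂ) := fun z hz => by rw [hg' z hz, hy1 z hz]
  have hg'2 : ∀ z : ℂ, ‖z‖ ≤ R → ‖g' z - f₀ z‖ ≤ r := fun z hz => by rw [hg' z hz]; exact hy2 z hz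
  have hY : ∀ k ≤ p, Y F s₁ r k ≤ R := by
    intro k hk
    have := hgate r hr (hrr.trans (min_le_right _ _)) s₁ hs₁0 le_rfl k (by
      refine le_trans ?_ hcon
      apply mul_le_mul_of_nonneg_right _ (Real.sqrt_nonneg _)
      exact_mod_cast hk)
    linarith
  have hbd : ∀ k ≤ p, ‖g'^[k] w‖ ≤ R := by
    intro k hk
    have h1 := orbit_maj hm h hr.le hg'2 hw k fun j hj => hY j (hj.le.trans hk)
    have h2 := iter_bound hm h hw k
    have h3 := norm_add_le (g'^[k] w - f₀^[k] w) (f₀^[k] w)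
    rw [sub_add_cancel] at h3
    have := hY k hk
    linarith
  have horb : ∀ k ≤ p, g^[k] (w : OnePoint ℂ) = ((g'^[k] w : ℂ) : OnePoint ℂ) := by
    intro k
    induction k with
    | zero => intro _; rfl
    | succ k ih =>
      intro hk
      rw [Function.iterate_succ_apply', Function.iterate_succ_apply', ih (by omega),
        hg'1 _ (hbd k (by omega))]
  have h4 := horb p le_rfl
  rw [hper] at h4
  have h5 : g'^[p] w = w := (OnePoint.coe_injective h4).symm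
  have h6 := H r hr (hrr.trans (min_le_left _ _)) g' hg'2 w hw p hp h5
  linarith

end Pool.Agent.Q186.Cusp.Gen
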