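import Pool.Agent.Q186.Cusp.Cnt
import Pool.Agent.Q186.Loc.Five

/-!
# The exact law of the superattracting parameters near the cusp
-/

set_option autoImplicit false

open Complex Metric Set Filter Topology MeasureTheory N62a1eb23

namespace Pool.Agent.Q186.Cusp

open Pool.Agent.H712R2 (P P_zero P_one P_succ mem_multibrot_iff)
open Pool.Agent.H713R2 hiding LL
open Pool.Agent.Q186.Cen
open Pool.Agent.Q186.Loc
open Real (posLog circleAverage)
open Pool.Agent.H712R2 (sr rr sr_pos sr_pow sr_pow' rr_eq rr_pos sr_lt_one disc_subset real_escape)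
open Pool.Agent.Y736.HD (Ang vol_Ang_ne)

set_option maxHeartbeats 4000000 in
/-- **Upper bound of the number of superattracting parameters near the cusp.** -/
theorem num_up {d : ℕ} (hd : 2 ≤ d) {δ : ℝ} (hδ : 0 < δ) (hδ1 : δ ≤ 1) :
    ∃ r₀ C : ℝ, 0 < r₀ ∧ 0 < C ∧ ∀ r : ℝ, 0 < r → r ≤ r₀ → ∀ N : ℕ, 1 ≤ N →
      (num d (rr d) N r : ℝ) ≤ C * (N * (1 + (d : ℝ) ^ N *
        Real.exp (-((1 - δ) * (Real.pi * Real.log d / √(AA d * r)))))) := by
  have hpi := Real.pi_pos
  have hA := AA_pos hd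
  have hs := sr_lt_one hd
  have hrr0 := rr_pos hd
  have hrr1 := rr_lt hd
  have hdR : (1 : ℝ) < d := by exact_mod_cast (by omega : 1 < d)
  have hd0 : (0 : ℝ) < d := by linarith
  have hlogd : 0 < Real.log d := Real.log_pos hdR
  have hlog4 : 0 < Real.log 4 := Real.log_pos (by norm_num)
  have hlogrr : 0 < -Real.log (rr d) := by
    have := Real.log_neg hrr0 hrr1
    linarith
  obtain ⟨b, hb⟩ : ∃ b, b = 1 + δ / 4 := ⟨_, rfl⟩
  have hb1 : 1 < b := by rw [hb]; linarith
  have hb0 : 0 < b := by linarith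
  have hq : 1 < b ^ 2 := by nlinarith
  have hlogq : 0 < Real.log (b ^ 2) := Real.log_pos hq
  obtain ⟨r₁, hr₁, hgate⟩ := gate hd (δ := Real.pi * δ / 4) (by positivity) (η := 1) one_pos
  obtain ⟨C, hC⟩ : ∃ C, C = (Real.log 4 * d - Real.log (rr d)) / Real.log (b ^ 2) := ⟨_, rfl⟩
  have hC0 : 0 < C := by
    rw [hC]
    apply div_pos _ hlogq
    have : 0 < Real.log 4 * d := by positivity
    linarith
  refine ⟨min (r₁ / b ^ 2) (1 / b ^ 2), C, lt_min (by positivity) (by positivity), hC0, ?_⟩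
  intro r hr hrr N hN
  have hR0 : 0 < b ^ 2 * r := by positivity
  have hR1 : b ^ 2 * r ≤ r₁ := by
    have h1 : r ≤ r₁ / b ^ 2 := hrr.trans (min_le_left _ _)
    rw [le_div_iff₀ (by positivity)] at h1
    linarith
  have hR2 : b ^ 2 * r ≤ 1 := by
    have h1 : r ≤ 1 / b ^ 2 := hrr.trans (min_le_right _ _)
    rw [le_div_iff₀ (by positivity)] at h1
    linarith
  obtain ⟨x, hx⟩ : ∃ x, x = √(AA d * r) := ⟨_, rfl⟩
  have hx0 : 0 < x := by rw [hx]; positivity
  rw [← hx]
  have hxq : √(AA d * (b ^ 2 * r)) = b * x := by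
    rw [hx, show AA d * (b ^ 2 * r) = b ^ 2 * (AA d * r) by ring, Real.sqrt_mul (by positivity),
      Real.sqrt_sq hb0.le]
  obtain ⟨y, hy⟩ : ∃ y, y = (Real.pi - Real.pi * δ / 4) / (b * x) := ⟨_, rfl⟩
  have hpd : Real.pi * δ ≤ Real.pi := by nlinarith
  have hy0 : 0 ≤ y := by
    rw [hy]
    apply div_nonneg (by linarith) (by positivity)
  obtain ⟨n, hn⟩ : ∃ n : ℕ, n = ⌊y⌋₊ := ⟨_, rfl⟩
  have hn1 : (n : ℝ) ≤ y := by rw [hn]; exact Nat.floor_le hy0
  have hn2 : y < n + 1 := by rw [hn]; exact Nat.lt_floor_add_one y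
  have hXn : X d (b ^ 2 * r) n ≤ 2 := by
    have h1 := hgate (b ^ 2 * r) hR0 hR1 n (by
      rw [hxq]
      rw [hy, le_div_iff₀ (by positivity)] at hn1
      exact hn1)
    linarith
  have hdn : (0 : ℝ) < (d : ℝ) ^ n := by positivity
  -- the logarithm of the majorant
  have hlogX : ∀ k : ℕ, Real.log (max 2 (X d (b ^ 2 * r) k)) ≤
      Real.log 4 * (1 + (d : ℝ) ^ k / (d : ℝ) ^ n) := by
    intro k
    rcases le_total n k with h | h
    · obtain ⟨j, rfl⟩ := Nat.exists_eq_add_of_le h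
      have h1 := log_grow hd hR0.le hR2 hXn j
      have h2 : (d : ℝ) ^ (n + j) / (d : ℝ) ^ n = (d : ℝ) ^ j := by
        rw [pow_add]
        field_simp
      rw [h2]
      linarith
    · have h1 : X d (b ^ 2 * r) k ≤ 2 := (X_mono hd hR0.le h).trans hXn
      rw [max_eq_left h1]
      have h2 : Real.log 2 ≤ Real.log 4 := Real.log_le_log (by norm_num) (by norm_num)
      have h3 : 0 ≤ Real.log 4 * ((d : ℝ) ^ k / (d : ℝ) ^ n) := by positivity
      linarith
  have hcard : ∀ m < N, ((ZF d m (rr d) r).card : ℝ) ≤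
      C * (1 + (d : ℝ) ^ N / (d : ℝ) ^ n / d) := by
    intro m hm
    have h0 : P d (m + 1) (rr d : ℂ) ≠ 0 := by
      rw [P_cusp]
      have h2 : X d 0 1 ≤ X d 0 (m + 1) := X_mono hd le_rfl (by omega)
      have h3 : X d 0 1 = rr d := by
        show (0 : ℝ) ^ d + (rr d + 0) = rr d
        rw [zero_pow (by omega)]
        ring
      have h4 : X d 0 (m + 1) ≠ 0 := by
        rw [h3] at h2
        linarith
      exact_mod_cast h4
    have hJ := jensen_q (differentiable_P d (m + 1)) h0 hR0 hq (ZF d m (rr d) r) (fun a ha => by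
      rw [mem_ZF] at ha
      refine ⟨ha.1, ?_⟩
      gcongr
      exact ha.2)
    have h1 : circleAverage (fun x => Real.log ‖P d (m + 1) x‖) (rr d : ℂ) (b ^ 2 * r) ≤
        Real.log (max 2 (X d (b ^ 2 * r) (m + 1))) := by
      apply Real.circleAverage_mono_on_of_le_circle
      · apply MeromorphicOn.circleIntegrable_log_norm
        intro z _
        exact ((differentiable_P d (m + 1)).analyticAt z).meromorphicAt
      · intro z hz
        rw [mem_sphere, dist_eq_norm, abs_of_pos hR0] at hz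
        have h2 := maj' hd hR0.le hz.le (m + 1)
        have h3 : 2 ≤ max 2 (X d (b ^ 2 * r) (m + 1)) := le_max_left _ _
        rcases eq_or_lt_of_le (norm_nonneg (P d (m + 1) z)) with h5 | h5
        · rw [← h5, Real.log_zero]
          exact Real.log_nonneg (by linarith)
        · exact Real.log_le_log h5 (h2.trans (le_max_right _ _))
    have h2 : Real.log (rr d) ≤ Real.log ‖P d (m + 1) (rr d : ℂ)‖ := by
      apply Real.log_le_log hrr0
      rw [P_cusp, Complex.norm_real, Real.norm_of_nonneg (X_nonneg hd le_rfl _)]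
      have h2 : X d 0 1 ≤ X d 0 (m + 1) := X_mono hd le_rfl (by omega)
      have h3 : X d 0 1 = rr d := by
        show (0 : ℝ) ^ d + (rr d + 0) = rr d
        rw [zero_pow (by omega)]
        ring
      linarith
    have h3 := hlogX (m + 1)
    have h4 : (d : ℝ) ^ (m + 1) ≤ (d : ℝ) ^ N := pow_le_pow_right₀ hdR.le (by omega)
    have h5 : Real.log 4 * (1 + (d : ℝ) ^ (m + 1) / (d : ℝ) ^ n) ≤
        Real.log 4 * (1 + (d : ℝ) ^ N / (d : ℝ) ^ n) := by gcongr
    have h6 : ((ZF d m (rr d) r).card : ℝ) * Real.log (b ^ 2) ≤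
        Real.log 4 * (1 + (d : ℝ) ^ N / (d : ℝ) ^ n) - Real.log (rr d) := by linarith
    rw [hC, div_mul_eq_mul_div, le_div_iff₀ hlogq]
    refine h6.trans ?_
    have h7 : 0 ≤ (d : ℝ) ^ N / (d : ℝ) ^ n := by positivity
    have h8 : (Real.log 4 * d - Real.log (rr d)) * (1 + (d : ℝ) ^ N / (d : ℝ) ^ n / d) =
        Real.log 4 * d + Real.log 4 * ((d : ℝ) ^ N / (d : ℝ) ^ n) - Real.log (rr d) +
          (-Real.log (rr d)) * ((d : ℝ) ^ N / (d : ℝ) ^ n / d) := by
      field_simp
      ring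
    rw [h8]
    have h9 : 0 ≤ (-Real.log (rr d)) * ((d : ℝ) ^ N / (d : ℝ) ^ n / d) := by positivity
    have h10 : Real.log 4 ≤ Real.log 4 * d := by nlinarith
    linarith
  have hnum : (num d (rr d) N r : ℝ) ≤ N * (C * (1 + (d : ℝ) ^ N / (d : ℝ) ^ n / d)) := by
    have h1 : (num d (rr d) N r : ℝ) ≤ ∑ m ∈ Finset.range N, ((ZF d m (rr d) r).card : ℝ) := by
      exact_mod_cast num_le_sum d N (rr d) r
    refine h1.trans ((Finset.sum_le_sum fun m hm => hcard m (Finset.mem_range.1 hm)).trans ?_)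
    rw [Finset.sum_const, Finset.card_range, nsmul_eq_mul]
  refine hnum.trans ?_
  have h1 : (d : ℝ) ^ N / (d : ℝ) ^ n / d ≤ (d : ℝ) ^ N *
      Real.exp (-((1 - δ) * (Real.pi * Real.log d / x))) := by
    rw [div_div, div_eq_mul_inv]
    apply mul_le_mul_of_nonneg_left _ (by positivity)
    rw [← pow_succ, exp_nat_log hd, ← Real.exp_neg]
    apply Real.exp_le_exp.2
    apply neg_le_neg
    have h2 : Real.pi * (1 - δ) / x ≤ y := by
      rw [hy, div_le_div_iff₀ hx0 (by positivity)]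
      have h3 : (1 - δ) * b ≤ 1 - δ / 4 := by
        rw [hb]
        nlinarith
      calc Real.pi * (1 - δ) * (b * x) = Real.pi * x * ((1 - δ) * b) := by ring
        _ ≤ Real.pi * x * (1 - δ / 4) := by gcongr
        _ = _ := by ring
    have h3 : Real.pi * (1 - δ) / x * Real.log d ≤ ((n + 1 : ℕ) : ℝ) * Real.log d := by
      apply mul_le_mul_of_nonneg_right _ hlogd.le
      push_cast
      linarith
    refine le_trans (le_of_eq ?_) h3
    ring
  have hN0 : (0 : ℝ) ≤ N := Nat.cast_nonneg N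
  calc (N : ℝ) * (C * (1 + (d : ℝ) ^ N / (d : ℝ) ^ n / d))
      ≤ N * (C * (1 + (d : ℝ) ^ N * Real.exp (-((1 - δ) * (Real.pi * Real.log d / x))))) := by
        gcongr
    _ = _ := by ring

/-- **Lower bound of the number of superattracting parameters near the cusp.** -/
theorem num_down {d : ℕ} (hd : 2 ≤ d) {δ : ℝ} (hδ : 0 < δ) (hδ1 : δ ≤ 1) :
    ∃ r₀ C : ℝ, 0 < r₀ ∧ 0 < C ∧ ∀ r : ℝ, 0 < r → r ≤ r₀ → ∀ N : ℕ, 1 ≤ N →
      (d : ℝ) ^ N * Real.exp (-((1 + δ) * (Real.pi * Real.log d / √(AA d * r)))) ≤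
        C * (N * (num d (rr d) N r + 1)) := by
  have hpi := Real.pi_pos
  have hA := AA_pos hd
  have hdR : (1 : ℝ) < d := by exact_mod_cast (by omega : 1 < d)
  have hlogd : 0 < Real.log d := Real.log_pos hdR
  obtain ⟨β, hβ⟩ := exists_beta (d := d) hd
  have hψ := exteriorMap_of_beta hβ
  obtain ⟨b, hb⟩ : ∃ b, b = 1 + δ / 4 := ⟨_, rfl⟩
  have hb1 : 1 < b := by rw [hb]; linarith
  have hb0 : 0 < b := by linarith
  have hq : 1 < b ^ 2 := by nlinarith
  obtain ⟨r₁, hr₁, hvol⟩ := vol_low hd (δ := δ / 4) (by linarith) (by linarith)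
  obtain ⟨η, hη⟩ : ∃ η, η = 1 - 1 / b ^ 2 := ⟨_, rfl⟩
  have hη0 : 0 < η := by
    rw [hη]
    have h1 : 1 / b ^ 2 < 1 := by
      rw [div_lt_one (by positivity)]
      exact hq
    linarith
  have hη1 : η < 1 := by
    rw [hη]
    have h1 : 0 < 1 / b ^ 2 := by positivity
    linarith
  obtain ⟨C, hC, H⟩ := lower_q hd hη0 hη1
  refine ⟨min r₁ 1, C, lt_min hr₁ one_pos, hC, ?_⟩
  intro r hr hrr N hN
  have h1 := H _ hψ (rr d) (cusp_frontier hd) r hr (hrr.trans (min_le_right _ _)) N hN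
  refine le_trans ?_ h1
  have h2 : (1 - η) * r = r / b ^ 2 := by rw [hη]; ring
  rw [h2]
  have h3 := hvol _ hψ (r / b ^ 2) (by positivity) (by
    rw [div_le_iff₀ (by positivity)]
    have h4 : r ≤ r₁ := hrr.trans (min_le_left _ _)
    nlinarith)
  apply mul_le_mul_of_nonneg_left _ (by positivity)
  refine le_trans ?_ h3
  apply Real.exp_le_exp.2
  apply neg_le_neg
  have h4 : √(AA d * (r / b ^ 2)) = √(AA d * r) / b := by
    rw [← mul_div_assoc, Real.sqrt_div (by positivity), Real.sqrt_sq hb0.le]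
  rw [h4]
  have h5 : (1 + δ / 4) * (Real.pi * Real.log d / (√(AA d * r) / b)) =
      (1 + δ / 4) * b * (Real.pi * Real.log d / √(AA d * r)) := by
    have : 0 < √(AA d * r) := by positivity
    field_simp
  rw [h5]
  apply mul_le_mul_of_nonneg_right
  · rw [hb]
    nlinarith
  · positivity

/-- **No superattracting parameters of small period near the cusp.** -/
theorem num_none {d : ℕ} (hd : 2 ≤ d) {δ : ℝ} (hδ : 0 < δ) :
    ∃ r₀ : ℝ, 0 < r₀ ∧ ∀ r : ℝ, 0 < r → r ≤ r₀ → ∀ N : ℕ,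
      (N : ℝ) * √(AA d * r) ≤ (1 - δ) * Real.pi → ∀ c : ℂ, Cn d N c → r < ‖c - rr d‖ := by
  have hpi := Real.pi_pos
  obtain ⟨r₀, hr₀, H⟩ := centre_far hd (δ := δ * Real.pi) (by positivity)
  refine ⟨r₀, hr₀, ?_⟩
  rintro r hr hrr N hN c ⟨p, hp1, hp2, hp3⟩
  by_contra hcon
  rw [not_lt] at hcon
  have h1 := H r hr hrr p hp1 c hp3 hcon
  have h2 : (p : ℝ) * √(AA d * r) ≤ N * √(AA d * r) := by
    apply mul_le_mul_of_nonneg_right _ (Real.sqrt_nonneg _)
    exact_mod_cast hp2
  linarith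

theorem sqrt_scale {d : ℕ} {a : ℝ} (ha : 0 < a) (N : ℕ) :
    √(AA d * (a / N) ^ 2) = √(AA d) * a / N := by
  rw [Real.sqrt_mul' _ (sq_nonneg _), Real.sqrt_sq (by positivity)]
  ring

theorem scale_lim {a r₀ : ℝ} (hr₀ : 0 < r₀) :
    ∀ᶠ N : ℕ in atTop, (a / N) ^ 2 ≤ r₀ := by
  have h1 : Tendsto (fun N : ℕ => (a / N) ^ 2) atTop (𝓝 (0 ^ 2)) :=
    (tendsto_const_div_atTop_nhds_zero_nat a).pow 2
  rw [zero_pow two_ne_zero] at h1
  exact (h1.eventually (gt_mem_nhds hr₀)).mono fun N hN => hN.le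

set_option maxHeartbeats 4000000 in
/-- **The law of the superattracting parameters at the cusp.** -/
theorem law_cusp {d : ℕ} (hd : 2 ≤ d) {a : ℝ} (ha : Real.pi / √(AA d) < a) :
    Tendsto (fun N : ℕ => Real.log (num d (rr d) N ((a / N) ^ 2)) / N) atTop
      (𝓝 ((1 - Real.pi / (√(AA d) * a)) * Real.log d)) := by
  have hpi := Real.pi_pos
  have hA := AA_pos hd
  have hsA : 0 < √(AA d) := by positivity
  have hdR : (1 : ℝ) < d := by exact_mod_cast (by omega : 1 < d)
  have hlogd : 0 < Real.log d := Real.log_pos hdR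
  have ha0 : 0 < a := lt_trans (by positivity) ha
  obtain ⟨u, hu⟩ : ∃ u, u = Real.pi / (√(AA d) * a) := ⟨_, rfl⟩
  have hu0 : 0 < u := by rw [hu]; positivity
  have hu1 : u < 1 := by
    rw [hu, div_lt_one (by positivity)]
    rw [div_lt_iff₀ hsA] at ha
    linarith
  rw [← hu]
  have hexpo : ∀ N : ℕ, 1 ≤ N → Real.pi * Real.log d / √(AA d * (a / N) ^ 2) =
      u * Real.log d * N := by
    intro N hN
    have hN0 : (0 : ℝ) < N := by exact_mod_cast hN
    rw [sqrt_scale ha0, hu]
    field_simp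
  have hlin : ∀ (K : ℝ) (ε : ℝ), 0 < ε → ∀ᶠ N : ℕ in atTop, K * N ≤ Real.exp (ε * N) := by
    intro K ε hε0
    have h1 : Tendsto (fun x : ℝ => Real.exp (ε * x) / x) atTop atTop := by
      have := tendsto_exp_mul_div_rpow_atTop 1 ε hε0
      simpa using this
    have h2 := h1.comp (tendsto_natCast_atTop_atTop (R := ℝ))
    filter_upwards [h2.eventually (eventually_ge_atTop K), eventually_gt_atTop 0] with N hN1 hN2
    have hN : (0 : ℝ) < N := by exact_mod_cast hN2
    have h3 : K ≤ Real.exp (ε * N) / N := hN1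
    rwa [le_div_iff₀ hN] at h3
  -- the lower bound
  have hlow : ∀ δ : ℝ, 0 < δ → δ ≤ 1 → (1 + δ) * u < 1 → ∃ C : ℝ, 0 < C ∧ ∀ᶠ N : ℕ in atTop,
      Real.exp ((1 - (1 + δ) * u) * Real.log d * N) ≤
        C * (N * num d (rr d) N ((a / N) ^ 2)) := by
    intro δ hδ hδ1 hδu
    obtain ⟨r₀, C, hr₀, hC, H⟩ := num_down hd hδ hδ1
    refine ⟨2 * C, by positivity, ?_⟩
    have hε : 0 < (1 - (1 + δ) * u) * Real.log d := mul_pos (by linarith) hlogd
    filter_upwards [scale_lim (a := a) hr₀, hlin (2 * C) _ hε, eventually_ge_atTop 1]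
      with N hN1 hN2 hN3
    have hN0 : (0 : ℝ) < N := by exact_mod_cast hN3
    have h1 := H ((a / N) ^ 2) (by positivity) hN1 N hN3
    rw [hexpo N hN3, exp_nat_log hd, ← Real.exp_add] at h1
    have e1 : (N : ℝ) * Real.log d + -((1 + δ) * (u * Real.log d * N)) =
        (1 - (1 + δ) * u) * Real.log d * N := by ring
    rw [e1] at h1
    linarith
  have hnumpos : ∀ᶠ N : ℕ in atTop, 0 < (num d (rr d) N ((a / N) ^ 2) : ℝ) := by
    obtain ⟨δ, hδ⟩ : ∃ δ, δ = min 1 ((1 / u - 1) / 2) := ⟨_, rfl⟩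
    have h1u : 0 < 1 / u - 1 := by
      have : 1 < 1 / u := by rw [lt_div_iff₀ hu0]; linarith
      linarith
    have hδ0 : 0 < δ := by rw [hδ]; exact lt_min one_pos (by linarith)
    have hδ1 : δ ≤ 1 := by rw [hδ]; exact min_le_left _ _
    have hδ2 : δ ≤ (1 / u - 1) / 2 := by rw [hδ]; exact min_le_right _ _
    have hδu : (1 + δ) * u < 1 := by
      have h2 : (1 + δ) * u ≤ (1 + (1 / u - 1) / 2) * u := by gcongr
      have h3 : (1 + (1 / u - 1) / 2) * u = (1 + u) / 2 := by field_simp; ring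
      linarith
    obtain ⟨C, hC, H⟩ := hlow δ hδ0 hδ1 hδu
    filter_upwards [H, eventually_ge_atTop 1] with N hN1 hN2
    have h1 := Real.exp_pos ((1 - (1 + δ) * u) * Real.log d * N)
    rcases (Nat.cast_nonneg (α := ℝ) (num d (rr d) N ((a / N) ^ 2))).eq_or_lt with h2 | h2
    · rw [← h2, mul_zero, mul_zero] at hN1
      linarith
    · exact h2
  rw [tendsto_order]
  constructor
  · intro v hv
    obtain ⟨δ, hδ⟩ : ∃ δ, δ = min 1 (min ((1 / u - 1) / 2)
      (((1 - u) * Real.log d - v) / (2 * u * Real.log d))) := ⟨_, rfl⟩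
    have h1u : 0 < 1 / u - 1 := by
      have : 1 < 1 / u := by rw [lt_div_iff₀ hu0]; linarith
      linarith
    have hδ0 : 0 < δ := by
      rw [hδ]
      apply lt_min one_pos (lt_min (by linarith) _)
      apply div_pos (by linarith) (by positivity)
    have hδ1 : δ ≤ 1 := by rw [hδ]; exact min_le_left _ _
    have hδ2 : δ ≤ (1 / u - 1) / 2 := by
      rw [hδ]; exact (min_le_right _ _).trans (min_le_left _ _)
    have hδ3 : δ ≤ ((1 - u) * Real.log d - v) / (2 * u * Real.log d) := by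
      rw [hδ]; exact (min_le_right _ _).trans (min_le_right _ _)
    rw [le_div_iff₀ (by positivity)] at hδ3
    have hδu : (1 + δ) * u < 1 := by
      have h2 : (1 + δ) * u ≤ (1 + (1 / u - 1) / 2) * u := by gcongr
      have h3 : (1 + (1 / u - 1) / 2) * u = (1 + u) / 2 := by field_simp; ring
      linarith
    obtain ⟨C, hC, H⟩ := hlow δ hδ0 hδ1 hδu
    have hv2 : v < (1 - (1 + δ) * u) * Real.log d := by
      have h4 : (1 - (1 + δ) * u) * Real.log d = (1 - u) * Real.log d - δ * u * Real.log d := by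
        ring
      have h5 : 0 < δ * u * Real.log d := by positivity
      rw [h4]
      linarith
    have hlim : Tendsto (fun N : ℕ => (1 - (1 + δ) * u) * Real.log d -
        (Real.log C / N + Real.log N / N)) atTop (𝓝 ((1 - (1 + δ) * u) * Real.log d)) := by
      have h1 := ((tendsto_const_div_atTop_nhds_zero_nat (Real.log C)).add lim_log).const_sub
        ((1 - (1 + δ) * u) * Real.log d)
      simpa using h1
    filter_upwards [H, hnumpos, eventually_ge_atTop 1, hlim.eventually (lt_mem_nhds hv2)]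
      with N hN1 hN2 hN3 hN4
    have hN0 : (0 : ℝ) < N := by exact_mod_cast hN3
    refine hN4.trans_le ?_
    have h1 := Real.log_le_log (Real.exp_pos _) hN1
    rw [Real.log_exp, Real.log_mul hC.ne' (by positivity), Real.log_mul hN0.ne' hN2.ne'] at h1
    rw [le_div_iff₀ hN0]
    have h2 : ((1 - (1 + δ) * u) * Real.log d - (Real.log C / N + Real.log N / N)) * N =
        (1 - (1 + δ) * u) * Real.log d * N - (Real.log C + Real.log N) := by
      field_simp
    rw [h2]
    linarith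
  · intro v hv
    obtain ⟨δ, hδ⟩ : ∃ δ, δ = min 1 ((v - (1 - u) * Real.log d) / (2 * u * Real.log d)) := ⟨_, rfl⟩
    have hδ0 : 0 < δ := by
      rw [hδ]
      apply lt_min one_pos
      apply div_pos (by linarith) (by positivity)
    have hδ1 : δ ≤ 1 := by rw [hδ]; exact min_le_left _ _
    have hδ3 : δ ≤ (v - (1 - u) * Real.log d) / (2 * u * Real.log d) := by
      rw [hδ]; exact min_le_right _ _
    rw [le_div_iff₀ (by positivity)] at hδ3
    obtain ⟨r₀, C, hr₀, hC, H⟩ := num_up hd hδ0 hδ1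
    have hv2 : (1 - (1 - δ) * u) * Real.log d < v := by
      have h4 : (1 - (1 - δ) * u) * Real.log d = (1 - u) * Real.log d + δ * u * Real.log d := by
        ring
      have h5 : 0 < δ * u * Real.log d := by positivity
      rw [h4]
      linarith
    have hlim : Tendsto (fun N : ℕ => (1 - (1 - δ) * u) * Real.log d +
        (Real.log (2 * C) / N + Real.log N / N)) atTop (𝓝 ((1 - (1 - δ) * u) * Real.log d)) := by
      have h1 := ((tendsto_const_div_atTop_nhds_zero_nat (Real.log (2 * C))).add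
        lim_log).const_add ((1 - (1 - δ) * u) * Real.log d)
      simpa using h1
    filter_upwards [scale_lim (a := a) hr₀, hnumpos, eventually_ge_atTop 1,
      hlim.eventually (gt_mem_nhds hv2)] with N hN1 hN2 hN3 hN4
    have hN0 : (0 : ℝ) < N := by exact_mod_cast hN3
    refine lt_of_le_of_lt ?_ hN4
    have h1 := H ((a / N) ^ 2) (by positivity) hN1 N hN3
    rw [hexpo N hN3, exp_nat_log hd, ← Real.exp_add] at h1
    have e1 : (N : ℝ) * Real.log d + -((1 - δ) * (u * Real.log d * N)) =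
        (1 - (1 - δ) * u) * Real.log d * N := by ring
    rw [e1] at h1
    have h2 : (1 : ℝ) ≤ Real.exp ((1 - (1 - δ) * u) * Real.log d * N) := by
      apply Real.one_le_exp
      have h3 : 0 ≤ 1 - (1 - δ) * u := by nlinarith
      exact mul_nonneg (mul_nonneg h3 hlogd.le) hN0.le
    have h3 : (num d (rr d) N ((a / N) ^ 2) : ℝ) ≤
        2 * C * (N * Real.exp ((1 - (1 - δ) * u) * Real.log d * N)) := by
      refine h1.trans ?_
      calc C * (N * (1 + Real.exp ((1 - (1 - δ) * u) * Real.log d * N)))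
          ≤ C * (N * (Real.exp ((1 - (1 - δ) * u) * Real.log d * N) +
            Real.exp ((1 - (1 - δ) * u) * Real.log d * N))) := by gcongr
        _ = _ := by ring
    have h4 := Real.log_le_log hN2 h3
    rw [Real.log_mul (by positivity) (by positivity), Real.log_mul hN0.ne' (Real.exp_pos _).ne',
      Real.log_exp] at h4
    rw [div_le_iff₀ hN0]
    have h5 : ((1 - (1 - δ) * u) * Real.log d + (Real.log (2 * C) / N + Real.log N / N)) * N =
        (1 - (1 - δ) * u) * Real.log d * N + (Real.log (2 * C) + Real.log N) := by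
      field_simp
    rw [h5]
    linarith

/-- **No superattracting parameters below the critical scale.** -/
theorem none_cusp {d : ℕ} (hd : 2 ≤ d) {a : ℝ} (ha0 : 0 < a) (ha : a < Real.pi / √(AA d)) :
    ∀ᶠ N : ℕ in atTop, ∀ c : ℂ, Cn d N c → (a / N) ^ 2 < ‖c - rr d‖ := by
  have hpi := Real.pi_pos
  have hA := AA_pos hd
  have hsA : 0 < √(AA d) := by positivity
  rw [lt_div_iff₀ hsA] at ha
  obtain ⟨δ, hδ⟩ : ∃ δ, δ = (Real.pi - a * √(AA d)) / Real.pi := ⟨_, rfl⟩
  have hδ0 : 0 < δ := by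
    rw [hδ]
    apply div_pos (by linarith) hpi
  obtain ⟨r₀, hr₀, H⟩ := num_none hd hδ0
  filter_upwards [scale_lim (a := a) hr₀, eventually_ge_atTop 1] with N hN1 hN2
  have hN0 : (0 : ℝ) < N := by exact_mod_cast hN2
  intro c hc
  refine H ((a / N) ^ 2) (by positivity) hN1 N ?_ c hc
  rw [sqrt_scale ha0, hδ]
  have h1 : (1 - (Real.pi - a * √(AA d)) / Real.pi) * Real.pi = a * √(AA d) := by
    field_simp
    ring
  rw [h1]
  apply le_of_eq
  field_simp

/-- **The distance from the cusp to the superattracting parameters of period at most `N`.** -/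
theorem dist_cusp {d : ℕ} (hd : 2 ≤ d) :
    Tendsto (fun N : ℕ => (N : ℝ) ^ 2 * infDist (rr d : ℂ) {c : ℂ | Cn d N c}) atTop
      (𝓝 (Real.pi ^ 2 / AA d)) := by
  have hpi := Real.pi_pos
  have hA := AA_pos hd
  have hsA : 0 < √(AA d) := by positivity
  have hdR : (1 : ℝ) < d := by exact_mod_cast (by omega : 1 < d)
  have hlogd : 0 < Real.log d := Real.log_pos hdR
  have e0 : Real.pi ^ 2 / AA d = (Real.pi / √(AA d)) ^ 2 := by
    rw [div_pow, Real.sq_sqrt hA.le]
  have ha₀ : 0 < Real.pi / √(AA d) := by positivity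
  rw [e0, tendsto_order]
  constructor
  · intro v hv
    obtain ⟨a, ha1, ha2, ha3⟩ : ∃ a : ℝ, 0 < a ∧ a < Real.pi / √(AA d) ∧ v < a ^ 2 := by
      rcases le_or_gt v 0 with h | h
      · exact ⟨Real.pi / √(AA d) / 2, by positivity, by linarith, by
          have : 0 < (Real.pi / √(AA d) / 2) ^ 2 := by positivity
          linarith⟩
      · have h1 : √v < Real.pi / √(AA d) := by
          rw [Real.sqrt_lt' ha₀]
          exact hv
        have h2 : 0 < √v := by positivity
        refine ⟨(√v + Real.pi / √(AA d)) / 2, by positivity, by linarith, ?_⟩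
        have h3 : √v < (√v + Real.pi / √(AA d)) / 2 := by linarith
        calc v = √v ^ 2 := (Real.sq_sqrt h.le).symm
          _ < _ := by gcongr
    filter_upwards [none_cusp hd ha1 ha2, eventually_ge_atTop 1] with N hN1 hN2
    have hN0 : (0 : ℝ) < N := by exact_mod_cast hN2
    have hne : ({c : ℂ | Cn d N c}).Nonempty := ⟨0, cn_zero hd hN2⟩
    have h1 : (a / N) ^ 2 ≤ infDist (rr d : ℂ) {c : ℂ | Cn d N c} := by
      rw [le_infDist hne]
      intro c hc
      rw [dist_comm, dist_eq_norm]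
      exact (hN1 c hc).le
    calc v < a ^ 2 := ha3
      _ = (N : ℝ) ^ 2 * (a / N) ^ 2 := by field_simp
      _ ≤ _ := by gcongr
  · intro v hv
    have hv0 : 0 < v := by
      have h1 : 0 < (Real.pi / √(AA d)) ^ 2 := by positivity
      exact h1.trans hv
    obtain ⟨a, ha2, ha3⟩ : ∃ a : ℝ, Real.pi / √(AA d) < a ∧ a ^ 2 < v := by
      have h1 : Real.pi / √(AA d) < √v := by
        rw [Real.lt_sqrt ha₀.le]
        exact hv
      refine ⟨(√v + Real.pi / √(AA d)) / 2, by linarith, ?_⟩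
      have h3 : (√v + Real.pi / √(AA d)) / 2 < √v := by linarith
      calc ((√v + Real.pi / √(AA d)) / 2) ^ 2 < √v ^ 2 := by gcongr
        _ = v := Real.sq_sqrt hv0.le
    have ha0 : 0 < a := ha₀.trans ha2
    have hpos : 0 < (1 - Real.pi / (√(AA d) * a)) * Real.log d := by
      apply mul_pos _ hlogd
      have : Real.pi / (√(AA d) * a) < 1 := by
        rw [div_lt_one (by positivity)]
        rw [div_lt_iff₀ hsA] at ha2
        linarith
      linarith
    filter_upwards [(law_cusp hd ha2).eventually (lt_mem_nhds hpos), eventually_ge_atTop 1]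
      with N hN1 hN2
    have hN0 : (0 : ℝ) < N := by exact_mod_cast hN2
    have h1 : num d (rr d) N ((a / N) ^ 2) ≠ 0 := by
      intro h
      rw [h] at hN1
      simp at hN1
    unfold num at h1
    obtain ⟨c, hc1, hc2⟩ := Set.nonempty_of_ncard_ne_zero h1
    have h2 : infDist (rr d : ℂ) {c : ℂ | Cn d N c} ≤ (a / N) ^ 2 := by
      refine (infDist_le_dist_of_mem (show c ∈ {c : ℂ | Cn d N c} from hc1)).trans ?_
      rw [dist_comm, dist_eq_norm]
      exact hc2
    calc (N : ℝ) ^ 2 * infDist (rr d : ℂ) {c : ℂ | Cn d N c} ≤ (N : ℝ) ^ 2 * (a / N) ^ 2 := by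
          gcongr
      _ = a ^ 2 := by field_simp
      _ < v := ha3

end Pool.Agent.Q186.Cusp
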