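import Pool.Agent.Q186.Cusp.Real2
import Pool.Agent.Q186.Loc.Four

/-!
# The majorant: complex parameters close to the cusp
-/

set_option autoImplicit false

open Complex Metric Set Filter Topology N62a1eb23

namespace Pool.Agent.Q186.Cusp

open Pool.Agent.H712R2 (P P_zero P_one P_succ mem_multibrot_iff)
open Pool.Agent.H713R2
open Pool.Agent.Q186.Cen
open Pool.Agent.H712R2 (sr rr sr_pos sr_pow sr_pow' rr_eq rr_pos sr_lt_one disc_subset real_escape)

theorem P_real (d : ℕ) (r : ℝ) (n : ℕ) : P d n ((rr d + r : ℝ) : ℂ) = (X d r n : ℝ) := by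
  induction n with
  | zero =>
    rw [P_zero]
    show (0 : ℂ) = ((0 : ℝ) : ℂ)
    rw [Complex.ofReal_zero]
  | succ n ih =>
    rw [P_succ, ih, X_succ]
    push_cast
    ring

theorem P_cusp (d : ℕ) (n : ℕ) : P d n (rr d : ℂ) = (X d 0 n : ℝ) := by
  have h := P_real d 0 n
  rwa [add_zero] at h

theorem pow_sub_le {d : ℕ} {x y : ℂ} {p q : ℝ} (hy : ‖y‖ ≤ p) (hx : ‖x‖ ≤ q)
    (hxy : ‖x - y‖ ≤ q - p) : ‖x ^ d - y ^ d‖ ≤ q ^ d - p ^ d := by
  rw [← (Commute.all x y).mul_geom_sum₂, ← (Commute.all q p).mul_geom_sum₂, norm_mul]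
  have hp : 0 ≤ p := (norm_nonneg _).trans hy
  have hq : 0 ≤ q := (norm_nonneg _).trans hx
  apply mul_le_mul hxy _ (norm_nonneg _) ((norm_nonneg _).trans hxy)
  refine (norm_sum_le _ _).trans ?_
  apply Finset.sum_le_sum
  intro i _
  rw [norm_mul, norm_pow, norm_pow]
  gcongr

/-- **The majorant.** -/
theorem maj {d : ℕ} (hd : 2 ≤ d) {r : ℝ} (hr : 0 ≤ r) {c : ℂ} (hc : ‖c - rr d‖ ≤ r) (n : ℕ) :
    ‖P d n c - (X d 0 n : ℝ)‖ ≤ X d r n - X d 0 n := by
  induction n with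
  | zero =>
    rw [P_zero]
    show ‖(0 : ℂ) - ((0 : ℝ) : ℂ)‖ ≤ 0 - 0
    simp
  | succ n ih =>
    have h0 := X_nonneg hd (le_refl (0 : ℝ)) n
    have h1 : ‖P d n c‖ ≤ X d r n := by
      have h2 := norm_add_le (P d n c - (X d 0 n : ℝ)) (X d 0 n : ℝ)
      rw [sub_add_cancel, Complex.norm_real, Real.norm_of_nonneg h0] at h2
      linarith
    have h2 : ‖((X d 0 n : ℝ) : ℂ)‖ ≤ X d 0 n := by
      rw [Complex.norm_real, Real.norm_of_nonneg h0]
    have h3 := pow_sub_le (d := d) h2 h1 ih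
    rw [P_succ, X_succ, X_succ]
    have e : P d n c ^ d + c - ((X d 0 n ^ d + (rr d + 0) : ℝ) : ℂ) =
        (P d n c ^ d - ((X d 0 n : ℝ) : ℂ) ^ d) + (c - rr d) := by
      push_cast
      ring
    rw [e]
    refine (norm_add_le _ _).trans ?_
    linarith

theorem maj' {d : ℕ} (hd : 2 ≤ d) {r : ℝ} (hr : 0 ≤ r) {c : ℂ} (hc : ‖c - rr d‖ ≤ r) (n : ℕ) :
    ‖P d n c‖ ≤ X d r n := by
  have h0 := X_nonneg hd (le_refl (0 : ℝ)) n
  have h2 := norm_add_le (P d n c - (X d 0 n : ℝ)) (X d 0 n : ℝ)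
  rw [sub_add_cancel, Complex.norm_real, Real.norm_of_nonneg h0] at h2
  have := maj hd hr hc n
  linarith

theorem rr_lt {d : ℕ} (hd : 2 ≤ d) : rr d < 1 := by
  unfold rr
  have h1 := sr_lt_one hd
  have h2 : 0 < sr d ^ d := pow_pos (sr_pos d) d
  linarith

/-- The cusp is a parameter of the Multibrot set. -/
theorem cusp_mem {d : ℕ} (hd : 2 ≤ d) : (rr d : ℂ) ∈ multibrotSet d := by
  apply disc_subset hd
  rw [Complex.norm_real, Real.norm_of_nonneg (rr_pos hd).le]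

/-- The cusp is a boundary parameter. -/
theorem cusp_frontier {d : ℕ} (hd : 2 ≤ d) : (rr d : ℂ) ∈ frontier (multibrotSet d) := by
  refine ⟨subset_closure (cusp_mem hd), ?_⟩
  intro hint
  obtain ⟨δ, hδ, hball⟩ := Metric.isOpen_iff.1 isOpen_interior _ hint
  have h1 : ((rr d + δ / 2 : ℝ) : ℂ) ∈ ball (rr d : ℂ) δ := by
    rw [mem_ball, dist_eq_norm]
    have : ((rr d + δ / 2 : ℝ) : ℂ) - rr d = ((δ / 2 : ℝ) : ℂ) := by push_cast; ring
    rw [this, Complex.norm_real, Real.norm_of_nonneg (by linarith)]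
    linarith
  exact real_escape hd (by linarith) (interior_subset (hball h1))

/-- The growth after the gate. -/
theorem grow {d : ℕ} (hd : 2 ≤ d) {r : ℝ} (hr : 0 ≤ r) (hr1 : r ≤ 1) {n : ℕ}
    (h : X d r n ≤ 2) (k : ℕ) : 2 * max 2 (X d r (n + k)) ≤ 4 ^ (d ^ k) := by
  induction k with
  | zero =>
    rw [add_zero, max_eq_left h]
    norm_num
  | succ k ih =>
    obtain ⟨E, hE⟩ : ∃ E, E = max 2 (X d r (n + k)) := ⟨_, rfl⟩
    rw [← hE] at ih
    have hE2 : 2 ≤ E := by rw [hE]; exact le_max_left _ _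
    have hXE : X d r (n + k) ≤ E := by rw [hE]; exact le_max_right _ _
    have hX0 := X_nonneg hd hr (n + k)
    have h1 : X d r (n + (k + 1)) ≤ E ^ d + 2 := by
      rw [← add_assoc, X_succ]
      have h2 : X d r (n + k) ^ d ≤ E ^ d := by gcongr
      have h3 := rr_lt hd
      linarith
    have h2 : 2 ≤ E ^ d := by
      calc (2 : ℝ) = 2 ^ 1 := by norm_num
        _ ≤ E ^ 1 := by gcongr
        _ ≤ E ^ d := pow_le_pow_right₀ (by linarith) (by omega)
    have h3 : max 2 (X d r (n + (k + 1))) ≤ 2 * E ^ d := max_le (by linarith) (by linarith)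
    have h4 : (4 : ℝ) ≤ 2 ^ d := by
      calc (4 : ℝ) = 2 ^ 2 := by norm_num
        _ ≤ 2 ^ d := pow_le_pow_right₀ (by norm_num) hd
    have hEd : 0 ≤ E ^ d := by linarith
    calc 2 * max 2 (X d r (n + (k + 1))) ≤ 4 * E ^ d := by linarith
      _ ≤ 2 ^ d * E ^ d := by gcongr
      _ = (2 * E) ^ d := by rw [mul_pow]
      _ ≤ (4 ^ (d ^ k)) ^ d := by gcongr
      _ = _ := by rw [← pow_mul, pow_succ]

/-- the logarithm of the majorant -/
theorem log_grow {d : ℕ} (hd : 2 ≤ d) {r : ℝ} (hr : 0 ≤ r) (hr1 : r ≤ 1) {n : ℕ}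
    (h : X d r n ≤ 2) (k : ℕ) :
    Real.log (max 2 (X d r (n + k))) ≤ (d : ℝ) ^ k * Real.log 4 := by
  have h1 := grow hd hr hr1 h k
  have h2 : 2 ≤ max 2 (X d r (n + k)) := le_max_left _ _
  have h3 : Real.log (max 2 (X d r (n + k))) ≤ Real.log (4 ^ (d ^ k)) := by
    apply Real.log_le_log (by linarith)
    linarith
  rw [Real.log_pow] at h3
  push_cast at h3
  exact h3

/-- **Superattracting parameters near the cusp**: the period `p` of a superattracting parameter at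
distance `r` satisfies `p √(A r) > π - δ`. -/
theorem centre_far {d : ℕ} (hd : 2 ≤ d) {δ : ℝ} (hδ : 0 < δ) :
    ∃ r₀ : ℝ, 0 < r₀ ∧ ∀ r : ℝ, 0 < r → r ≤ r₀ → ∀ p : ℕ, 1 ≤ p → ∀ c : ℂ, P d p c = 0 →
      ‖c - rr d‖ ≤ r → Real.pi - δ < p * √(AA d * r) := by
  have hs := sr_pos d
  obtain ⟨N, hN⟩ := exists_N1 hd (η := sr d / 4) (by linarith)
  obtain ⟨r₁, hr₁, hgate⟩ := gate hd hδ (η := sr d / 4) (by linarith)
  -- small periods
  have hrr := rr_pos hd
  -- a uniform lower bound for the distance of the parameters of period at most `N`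
  have hsmall : ∃ r₂ : ℝ, 0 < r₂ ∧ ∀ p : ℕ, 1 ≤ p → p < N → ∀ c : ℂ, P d p c = 0 →
      r₂ < ‖c - rr d‖ := by
    have hclosed : IsClosed {c : ℂ | Cn d N c} := by
      exact isClosed_Cn d N
    have hnot : (rr d : ℂ) ∉ {c : ℂ | Cn d N c} := by
      rintro ⟨p, hp1, -, hp3⟩
      rw [P_cusp] at hp3
      have h1 : X d 0 p = 0 := by exact_mod_cast hp3
      have h2 : X d 0 1 ≤ X d 0 p := X_mono hd le_rfl hp1
      have h3 : X d 0 1 = rr d := by
        show (0 : ℝ) ^ d + (rr d + 0) = rr d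
        rw [zero_pow (by omega)]
        ring
      linarith
    obtain ⟨ε, hε, hball⟩ := Metric.isOpen_iff.1 hclosed.isOpen_compl _ hnot
    refine ⟨ε / 2, by linarith, ?_⟩
    intro p hp1 hpN c hc
    by_contra hcon
    rw [not_lt] at hcon
    have h1 : c ∈ ball (rr d : ℂ) ε := by
      rw [mem_ball, dist_eq_norm]
      linarith
    exact hball h1 ⟨p, hp1, hpN.le, hc⟩
  obtain ⟨r₂, hr₂, hsm⟩ := hsmall
  refine ⟨min r₁ r₂, lt_min hr₁ hr₂, ?_⟩
  intro r hr hrr' p hp c hc hcr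
  by_contra hcon
  rw [not_lt] at hcon
  have hNp : N ≤ p := by
    by_contra h
    have h1 := hsm p hp (by omega) c hc
    have h2 := hrr'.trans (min_le_right _ _)
    linarith
  have h1 := hgate r hr (hrr'.trans (min_le_left _ _)) p hcon
  have h2 := hN 0 le_rfl p hNp
  have h3 := maj hd hr.le hcr p
  rw [hc, zero_sub, norm_neg, Complex.norm_real,
    Real.norm_of_nonneg (X_nonneg hd le_rfl p)] at h3
  linarith

/-- **The escape rate near the cusp.** -/
theorem rate_cusp {d : ℕ} (hd : 2 ≤ d) {δ : ℝ} (hδ : 0 < δ) :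
    ∃ r₀ : ℝ, 0 < r₀ ∧ r₀ ≤ 1 ∧ ∀ r : ℝ, 0 < r → r ≤ r₀ → ∀ n : ℕ,
      ((n : ℝ) + 1) * √(AA d * r) ≤ Real.pi - δ → ∀ c : ℂ, ‖c - rr d‖ ≤ r →
        ∀ g : ℝ, Rate d c g → g ≤ Real.log 3 / (d : ℝ) ^ n := by
  have hs := sr_pos d
  obtain ⟨r₁, hr₁, hgate⟩ := gate hd hδ (η := 1) one_pos
  refine ⟨min r₁ 1, lt_min hr₁ one_pos, min_le_right _ _, ?_⟩
  intro r hr hrr n hn c hc g hg
  have h1 := hgate r hr (hrr.trans (min_le_left _ _)) (n + 1) (by push_cast; exact hn)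
  have h2 := maj' hd hr.le hc (n + 1)
  have h3 := sr_lt_one hd
  have h4 : ‖c‖ ≤ 2 := by
    have h5 := norm_add_le (c - rr d) (rr d : ℂ)
    rw [sub_add_cancel, Complex.norm_real, Real.norm_of_nonneg (rr_pos hd).le] at h5
    have h6 := hrr.trans (min_le_right _ _)
    have h7 := rr_lt hd
    linarith
  have h5 := hg 2 le_rfl h4 n (by linarith)
  norm_num at h5 ⊢
  exact h5

end Pool.Agent.Q186.Cusp
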