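import Mathlib

/-!
# The inequality of Poisson and Jensen for polynomials
-/

set_option autoImplicit false

open Complex Metric Set Filter Topology
open Real (circleAverage posLog)

namespace Pool.Agent.Q186.Cusp

/-- Reflection of the zeros inside a disc. -/
theorem reflect {c : ℂ} {R : ℝ} (hR : 0 < R) (s : Multiset ℂ) (hs : ∀ a ∈ s, ‖a - c‖ ≠ R) :
    ∃ q : ℂ → ℂ, Differentiable ℂ q ∧ (∀ z, ‖z - c‖ ≤ R → q z ≠ 0) ∧
      (∀ z, ‖z - c‖ = R → ‖q z‖ = ‖(s.map fun a => z - a).prod‖) ∧
      ∀ z, ‖z - c‖ < R → ‖(s.map fun a => z - a).prod‖ ≤ ‖q z‖ := by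
  induction s using Multiset.induction with
  | empty =>
    refine ⟨fun _ => 1, differentiable_const _, ?_, ?_, ?_⟩
    · intro z _; exact one_ne_zero
    · intro z _; simp
    · intro z _; simp
  | cons a s ih =>
    obtain ⟨q, hq1, hq2, hq3, hq4⟩ := ih fun b hb => hs b (Multiset.mem_cons_of_mem hb)
    have ha := hs a (Multiset.mem_cons_self a s)
    rcases lt_or_gt_of_ne ha with h | h
    · -- a zero inside
      have hRc : (R : ℂ) ≠ 0 := by exact_mod_cast hR.ne'
      refine ⟨fun z => q z * ((R ^ 2 - (starRingEnd ℂ) (a - c) * (z - c)) / R), ?_, ?_, ?_, ?_⟩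
      · apply hq1.mul
        fun_prop
      · intro z hz
        apply mul_ne_zero (hq2 z hz)
        apply div_ne_zero _ hRc
        rw [Ne, sub_eq_zero]
        intro h1
        have h2 : ‖(R : ℂ) ^ 2‖ = ‖(starRingEnd ℂ) (a - c) * (z - c)‖ := by rw [h1]
        rw [norm_pow, Complex.norm_real, Real.norm_of_nonneg hR.le, norm_mul,
          RCLike.norm_conj] at h2
        have h3 : ‖a - c‖ * ‖z - c‖ ≤ ‖a - c‖ * R := by gcongr
        nlinarith
      · intro z hz
        rw [Multiset.map_cons, Multiset.prod_cons, norm_mul, norm_mul, hq3 z hz, mul_comm]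
        congr 1
        have h1 : (R : ℂ) ^ 2 = (z - c) * (starRingEnd ℂ) (z - c) := by
          rw [Complex.mul_conj, Complex.normSq_eq_norm_sq, hz]
          push_cast
          ring
        have h2 : (R : ℂ) ^ 2 - (starRingEnd ℂ) (a - c) * (z - c) =
            (z - c) * (starRingEnd ℂ) (z - a) := by
          rw [h1, ← sub_eq_zero]
          have : (starRingEnd ℂ) (z - a) = (starRingEnd ℂ) (z - c) - (starRingEnd ℂ) (a - c) := by
            rw [← map_sub]
            congr 1
            ring
          rw [this]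
          ring
        rw [h2, norm_div, norm_mul, RCLike.norm_conj, hz, Complex.norm_real,
          Real.norm_of_nonneg hR.le, mul_div_cancel_left₀ _ hR.ne']
      · intro z hz
        rw [Multiset.map_cons, Multiset.prod_cons, norm_mul, norm_mul, mul_comm]
        apply mul_le_mul (hq4 z hz) _ (norm_nonneg _) (norm_nonneg _)
        rw [norm_div, Complex.norm_real, Real.norm_of_nonneg hR.le, le_div_iff₀ hR]
        apply le_of_sq_le_sq _ (norm_nonneg _)
        obtain ⟨u, hu⟩ : ∃ u, u = a - c := ⟨_, rfl⟩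
        obtain ⟨v, hv⟩ : ∃ v, v = z - c := ⟨_, rfl⟩
        have e : z - a = v - u := by rw [hu, hv]; ring
        rw [← hu, ← hv, e]
        rw [← hu] at h
        rw [← hv] at hz
        have h1 : ‖u‖ ^ 2 = u.re ^ 2 + u.im ^ 2 := by
          rw [Complex.sq_norm, Complex.normSq_apply]; ring
        have h2 : ‖v‖ ^ 2 = v.re ^ 2 + v.im ^ 2 := by
          rw [Complex.sq_norm, Complex.normSq_apply]; ring
        have h3 : 0 ≤ (R ^ 2 - ‖u‖ ^ 2) * (R ^ 2 - ‖v‖ ^ 2) := by
          apply mul_nonneg
          · have : ‖u‖ ^ 2 ≤ R ^ 2 := by gcongr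
            linarith
          · have : ‖v‖ ^ 2 ≤ R ^ 2 := by gcongr
            linarith
        rw [h1, h2] at h3
        rw [mul_pow, Complex.sq_norm, Complex.sq_norm, Complex.normSq_apply, Complex.normSq_apply]
        have e1 : ((R : ℂ) ^ 2 - (starRingEnd ℂ) u * v).re = R ^ 2 - (u.re * v.re + u.im * v.im) := by
          have : ((R : ℂ) ^ 2).re = R ^ 2 := by
            rw [← Complex.ofReal_pow, Complex.ofReal_re]
          rw [Complex.sub_re, Complex.mul_re, Complex.conj_re, Complex.conj_im, this]
          ring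
        have e2 : ((R : ℂ) ^ 2 - (starRingEnd ℂ) u * v).im = -(u.re * v.im - u.im * v.re) := by
          have : ((R : ℂ) ^ 2).im = 0 := by
            rw [← Complex.ofReal_pow, Complex.ofReal_im]
          rw [Complex.sub_im, Complex.mul_im, Complex.conj_re, Complex.conj_im, this]
          ring
        rw [e1, e2, Complex.sub_re, Complex.sub_im]
        nlinarith
    · refine ⟨fun z => q z * (z - a), hq1.mul (by fun_prop), ?_, ?_, ?_⟩
      · intro z hz
        apply mul_ne_zero (hq2 z hz)
        rw [sub_ne_zero]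
        rintro rfl
        linarith
      · intro z hz
        rw [Multiset.map_cons, Multiset.prod_cons, norm_mul, norm_mul, hq3 z hz, mul_comm]
      · intro z hz
        rw [Multiset.map_cons, Multiset.prod_cons, norm_mul, norm_mul, mul_comm]
        apply mul_le_mul_of_nonneg_right (hq4 z hz) (norm_nonneg _)

/-- **The mean of the positive part** of the logarithm of a polynomial. -/
theorem pos_mean (p : Polynomial ℂ) {c w : ℂ} {R : ℝ} (hR : 0 < R)
    (hs : ∀ z, ‖z - c‖ = R → p.eval z ≠ 0) (hw : ‖w - c‖ < R) (hpw : p.eval w ≠ 0) :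
    (R - ‖w - c‖) / (R + ‖w - c‖) * Real.log ‖p.eval w‖ ≤
      circleAverage (fun z => posLog ‖p.eval z‖) c R := by
  have hsp : p.Splits := IsAlgClosed.splits p
  have hev := hsp.eval_eq_prod_roots
  have hp0 : p ≠ 0 := by
    rintro rfl
    exact hpw (by simp)
  obtain ⟨q, hq1, hq2, hq3, hq4⟩ := reflect (c := c) hR p.roots (fun a ha h => by
    rw [Polynomial.mem_roots hp0] at ha
    exact hs a h ha)
  obtain ⟨b, hb⟩ : ∃ b, b = p.leadingCoeff := ⟨_, rfl⟩
  have hb0 : b ≠ 0 := by
    rw [hb]
    exact Polynomial.leadingCoeff_ne_zero.2 hp0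
  rw [← hb] at hev
  obtain ⟨f, hf⟩ : ∃ f : ℂ → ℂ, f = fun z => b * q z := ⟨_, rfl⟩
  have hfd : Differentiable ℂ f := by rw [hf]; exact hq1.const_mul b
  have hf0 : ∀ z, ‖z - c‖ ≤ R → f z ≠ 0 := by
    intro z hz
    rw [hf]
    exact mul_ne_zero hb0 (hq2 z hz)
  have hfs : ∀ z, ‖z - c‖ = R → ‖f z‖ = ‖p.eval z‖ := by
    intro z hz
    rw [hf, hev z]
    show ‖b * q z‖ = _
    rw [norm_mul, norm_mul, hq3 z hz]
  have hfw : ‖p.eval w‖ ≤ ‖f w‖ := by
    rw [hf, hev w]
    show _ ≤ ‖b * q w‖
    rw [norm_mul, norm_mul]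
    exact mul_le_mul_of_nonneg_left (hq4 w hw) (norm_nonneg _)
  have hwb : w ∈ ball c R := by rwa [mem_ball, dist_eq_norm]
  have hharm : InnerProductSpace.HarmonicOnNhd (fun z => Real.log ‖f z‖) (closedBall c R) := by
    intro z hz
    rw [mem_closedBall, dist_eq_norm] at hz
    exact (hfd.analyticAt z).harmonicAt_log_norm (hf0 z hz)
  have hpoi := hharm.circleAverage_re_herglotzRieszKernel_smul hwb
  have hpos : 0 < (R + ‖w - c‖) / (R - ‖w - c‖) := by
    apply div_pos
    · have := norm_nonneg (w - c)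
      linarith
    · linarith
  have hcontf : ContinuousOn (fun z => posLog ‖p.eval z‖) (sphere c |R|) := by
    apply Continuous.continuousOn
    exact Real.continuous_posLog.comp p.continuous.norm
  have hle : circleAverage ((re ∘ herglotzRieszKernel c w) • fun z => Real.log ‖f z‖) c R ≤
      circleAverage (fun z => (R + ‖w - c‖) / (R - ‖w - c‖) * posLog ‖p.eval z‖) c R := by
    have hRabs : |R| = R := abs_of_pos hR
    apply Real.circleAverage_mono
    · apply ContinuousOn.circleIntegrable'
      apply ContinuousOn.smul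
      · exact Complex.continuous_re.comp_continuousOn (continuousOn_herglotzRieszKernel_sphere hwb)
      · apply ContinuousOn.log
        · exact hfd.continuous.norm.continuousOn
        · intro z hz
          rw [hRabs, mem_sphere, dist_eq_norm] at hz
          exact norm_ne_zero_iff.2 (hf0 z hz.le)
    · apply ContinuousOn.circleIntegrable'
      exact continuousOn_const.mul hcontf
    · intro z hz
      rw [hRabs] at hz
      have hz' := hz
      rw [mem_sphere, dist_eq_norm] at hz'
      have hk1 := re_herglotzRieszKernel_le hz hwb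
      have hk2 := le_re_herglotzRieszKernel hz hwb
      have hk3 : (herglotzRieszKernel c w z).re =
          ((z - c + (w - c)) / ((z - c) - (w - c))).re := by
        rw [herglotzRieszKernel_def]
      have hk4 : 0 ≤ (R - ‖w - c‖) / (R + ‖w - c‖) := by
        apply div_nonneg
        · linarith
        · have := norm_nonneg (w - c)
          linarith
      show (herglotzRieszKernel c w z).re * Real.log ‖f z‖ ≤ _
      rw [hk3, hfs z hz']
      have h1 : Real.log ‖p.eval z‖ ≤ posLog ‖p.eval z‖ := le_max_right _ _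
      have h2 : 0 ≤ posLog ‖p.eval z‖ := Real.posLog_nonneg
      calc ((z - c + (w - c)) / ((z - c) - (w - c))).re * Real.log ‖p.eval z‖
          ≤ ((z - c + (w - c)) / ((z - c) - (w - c))).re * posLog ‖p.eval z‖ := by
            apply mul_le_mul_of_nonneg_left h1
            linarith
        _ ≤ _ := mul_le_mul_of_nonneg_right hk1 h2
  rw [hpoi] at hle
  have he : circleAverage (fun z => (R + ‖w - c‖) / (R - ‖w - c‖) * posLog ‖p.eval z‖) c R =
      (R + ‖w - c‖) / (R - ‖w - c‖) * circleAverage (fun z => posLog ‖p.eval z‖) c R := by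
    have := Real.circleAverage_fun_smul (a := (R + ‖w - c‖) / (R - ‖w - c‖)) (c := c) (R := R)
      (f := fun z => posLog ‖p.eval z‖)
    simpa [smul_eq_mul] using this
  rw [he] at hle
  have hlogw : Real.log ‖p.eval w‖ ≤ Real.log ‖f w‖ :=
    Real.log_le_log (norm_pos_iff.2 hpw) hfw
  have h3 : (R - ‖w - c‖) / (R + ‖w - c‖) = ((R + ‖w - c‖) / (R - ‖w - c‖))⁻¹ := by
    rw [inv_div]
  rw [h3, inv_mul_le_iff₀ hpos]
  exact hlogw.trans hle

end Pool.Agent.Q186.Cusp
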