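import Pool.Agent.Q186.Cusp.Maj
import Pool.Agent.Q186.Cusp.Poi

/-!
# Harmonic measure near the cusp
-/

set_option autoImplicit false

open Complex Metric Set Filter Topology MeasureTheory N62a1eb23

namespace Pool.Agent.Q186.Cusp

open Pool.Agent.H712R2 (P P_zero P_one P_succ mem_multibrot_iff)
open Pool.Agent.H713R2
open Pool.Agent.Q186.Cen
open Pool.Agent.Q186.Loc
open Real (posLog circleAverage)
open Pool.Agent.H712R2 (sr rr sr_pos sr_pow sr_pow' rr_eq rr_pos sr_lt_one disc_subset real_escape)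
open Pool.Agent.Y736.HD (cm cm_apply cm_eq Ang Ang_sub vol_Ang_ne sn sn_pos sn_lt sn_lim sn_inv_lim
  norm_pt isOpen_ext integrable_cont avg_mem avg_ext lower_II upper_I avg_eq integrable_of UU)
open Pool.Agent.Y736.HG (cont_pt psi_ne cont_U mean_le avg_psi ae_land)

variable {d : ℕ} {β ψ : ℂ → ℂ}

/-- lower bound of the mean of the truncated potential by a value outside the centre -/
theorem le_mean_pos (hd2 : 2 ≤ d) (hβ : IsBeta d β) (hψ : IsExteriorMap (multibrotSet d) ψ)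
    {c₀ : ℂ} (hc₀ : c₀ ∈ multibrotSet d) {ρ s : ℝ} (hρ : 0 < ρ) (hs0 : 0 < s) (hs1 : s < 1) {m : ℕ}
    (hz0 : ∀ z, ‖z - c₀‖ = ρ → P d (m + 1) z ≠ 0) {w : ℂ} (hw : ‖w - c₀‖ < ρ)
    (hPw : P d (m + 1) w ≠ 0) :
    ((ρ - ‖w - c₀‖) / (ρ + ‖w - c₀‖) * Real.log (‖P d (m + 1) w‖ / 2)) / (d : ℝ) ^ m +
      Real.log s ≤ circleAverage (UU β c₀ ρ) 0 s := by
  obtain ⟨p, hp⟩ : ∃ p : Polynomial ℂ, p = Polynomial.C (1 / 2 : ℂ) * PP d (m + 1) := ⟨_, rfl⟩
  have hpe : ∀ z, p.eval z = P d (m + 1) z / 2 := by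
    intro z
    rw [hp, Polynomial.eval_mul, Polynomial.eval_C, PP_eval]
    ring
  have hpn : ∀ z, ‖p.eval z‖ = ‖P d (m + 1) z‖ / 2 := by
    intro z
    rw [hpe, norm_div, Complex.norm_two]
  have hJ := pos_mean p (c := c₀) (w := w) hρ (fun z hz => by
    rw [hpe]
    exact div_ne_zero (hz0 z hz) two_ne_zero) hw (by
    rw [hpe]
    exact div_ne_zero hPw two_ne_zero)
  rw [hpn w] at hJ
  have hcont : Continuous fun z => posLog ‖p.eval z‖ :=
    Real.continuous_posLog.comp p.continuous.norm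
  have hhi : CircleIntegrable (fun z => posLog ‖p.eval z‖) c₀ ρ :=
    hcont.continuousOn.circleIntegrable'
  have hli : CircleIntegrable (fun z => posLog ‖p.eval z‖ / (d : ℝ) ^ m + Real.log s) c₀ ρ := by
    have h2 : CircleIntegrable (fun z => posLog ‖p.eval z‖ / (d : ℝ) ^ m) c₀ ρ := by
      exact IntervalIntegrable.div_const hhi _
    exact h2.add (circleIntegrable_const _ _ _)
  have hdR : (0 : ℝ) < d := by exact_mod_cast (by omega : 0 < d)
  have h2m : (0 : ℝ) < (d : ℝ) ^ m := by positivity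
  have hkey := lower_II hβ hc₀ hρ hs0 hs1 hli (fun z hz => by
    by_cases hzM : z ∈ multibrotSet d
    · rw [avg_mem hβ hzM hs0 hs1]
      have h3 : ‖P d (m + 1) z‖ ≤ 2 := (mem_multibrot_iff hd2 z).1 hzM (m + 1)
      have h4 : posLog ‖p.eval z‖ = 0 := by
        rw [Real.posLog_eq_zero_iff, abs_of_nonneg (norm_nonneg _), hpn]
        linarith
      rw [h4, zero_div, zero_add]
      exact (Real.log_neg hs0 hs1).le
    · have h1 : z ∈ (multibrotSet d)ᶜ := hzM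
      rw [← hψ.image] at h1
      obtain ⟨w, hw, rfl⟩ := h1
      have hw' : 1 < ‖w‖ := hw
      have h5 : ‖P d (m + 1) (ψ w)‖ ≤ 2 * ‖w‖ ^ (d ^ m) :=
        Pool.Agent.W677.MC.P_le_two hd2 hψ hw m
      have h4 : (1 : ℝ) ≤ ‖w‖ ^ (d ^ m) := one_le_pow₀ hw'.le
      have h6 : posLog ‖p.eval (ψ w)‖ ≤ (d : ℝ) ^ m * Real.log ‖w‖ := by
        have h7 : posLog ‖p.eval (ψ w)‖ ≤ posLog (‖w‖ ^ (d ^ m)) := by
          apply Real.monotoneOn_posLog (norm_nonneg _) (by positivity : (0 : ℝ) ≤ ‖w‖ ^ (d ^ m))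
          rw [hpn]
          linarith
        refine h7.trans (le_of_eq ?_)
        rw [Real.posLog_eq_log (by rw [abs_of_nonneg (by positivity)]; exact h4), Real.log_pow]
        push_cast
        ring
      have h8 : posLog ‖p.eval (ψ w)‖ / (d : ℝ) ^ m ≤ Real.log ‖w‖ := by
        rw [div_le_iff₀ h2m]
        linarith
      have e1 := avg_ext hβ hw hs0 hs1
      rw [← exteriorMap_unique hβ hψ hw] at e1
      rw [e1]
      have h9 : Real.log (s * ‖w‖) ≤ posLog (s * ‖w‖) := le_max_right _ _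
      rw [Real.log_mul hs0.ne' (by linarith)] at h9
      linarith)
  refine le_trans ?_ hkey
  have e2 : circleAverage (fun z => posLog ‖p.eval z‖ / (d : ℝ) ^ m + Real.log s) c₀ ρ =
      circleAverage (fun z => posLog ‖p.eval z‖) c₀ ρ / (d : ℝ) ^ m + Real.log s := by
    rw [avg_eq, avg_eq]
    have hi := integrable_of hhi
    have i2 : Integrable (fun θ => posLog ‖p.eval (circleMap c₀ ρ θ)‖ / (d : ℝ) ^ m) cm :=
      hi.div_const _
    rw [integral_add i2 (integrable_const _), integral_div]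
    simp
  rw [e2]
  gcongr

/-- **Upper bound of the harmonic measure**, with a factor close to one. -/
theorem vol_le_q (hd2 : 2 ≤ d) (hψ : IsExteriorMap (multibrotSet d) ψ) {c₀ : ℂ}
    (hc₀ : c₀ ∈ multibrotSet d) {q r S : ℝ} (hq : 1 < q) (hr : 0 < r) (hS0 : 0 ≤ S)
    (hS : ∀ w : ℂ, 1 < ‖w‖ → ‖ψ w - c₀‖ ≤ q * r → Real.log ‖w‖ ≤ S) :
    (volume (Ang ψ c₀ r)).toReal ≤ 2 * Real.pi * S / Real.log q := by
  obtain ⟨β, hβ⟩ := exists_beta (d := d) hd2
  have hpi := Real.pi_pos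
  have hlog2 : 0 < Real.log q := Real.log_pos hq
  have hq0 : 0 < q := by linarith
  obtain ⟨F, hF⟩ : ∃ F : ℕ → ℝ → ENNReal, F = fun (n : ℕ) (θ : ℝ) => ENNReal.ofReal
      (posLog (q * r / ‖ψ (((sn n)⁻¹ : ℝ) * exp (θ * I)) - c₀‖)) := ⟨_, rfl⟩
  have hmeas : ∀ n, Measurable (F n) := by
    intro n
    rw [hF]
    exact ENNReal.measurable_ofReal.comp (cont_U hψ hc₀ (q * r) (sn_pos n) (sn_lt n)).measurable
  have hint : ∀ n, ∫⁻ θ, F n θ ∂cm ≤ ENNReal.ofReal S := by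
    intro n
    rw [hF]
    show ∫⁻ θ, ENNReal.ofReal
      (posLog (q * r / ‖ψ (((sn n)⁻¹ : ℝ) * exp (θ * I)) - c₀‖)) ∂cm ≤ _
    rw [← ofReal_integral_eq_lintegral_ofReal
      (integrable_cont (cont_U hψ hc₀ (q * r) (sn_pos n) (sn_lt n)))
      (Eventually.of_forall fun θ => Real.posLog_nonneg)]
    apply ENNReal.ofReal_le_ofReal
    rw [← avg_psi hβ hψ c₀ (q * r) (sn_pos n) (sn_lt n)]
    exact mean_le hβ hψ hc₀ (by positivity) (sn_pos n) (sn_lt n) hS0 hS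
  have h1 : ∫⁻ θ, liminf (fun n => F n θ) atTop ∂cm ≤ ENNReal.ofReal S := by
    refine (lintegral_liminf_le hmeas).trans ?_
    apply liminf_le_of_le (by isBoundedDefault)
    intro b hb
    obtain ⟨n, hn⟩ := hb.exists
    exact hn.trans (hint n)
  have h2 := mul_meas_ge_le_lintegral₀ (μ := cm) (f := fun θ => liminf (fun n => F n θ) atTop)
    (Measurable.liminf hmeas).aemeasurable (ENNReal.ofReal (Real.log q))
  have h3 : Ang ψ c₀ r ⊆ {θ | ENNReal.ofReal (Real.log q) ≤ liminf (fun n => F n θ) atTop} := by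
    rintro θ ⟨-, ζ, hζ, hlim⟩
    show ENNReal.ofReal (Real.log q) ≤ liminf (fun n => F n θ) atTop
    apply le_liminf_of_le (by isBoundedDefault)
    have h4 : Tendsto (fun n => ‖ψ (((sn n)⁻¹ : ℝ) * exp (θ * I)) - c₀‖) atTop (𝓝 ‖ζ - c₀‖) :=
      ((hlim.comp sn_inv_lim).sub_const c₀).norm
    rw [mem_ball, dist_eq_norm] at hζ
    filter_upwards [h4.eventually (gt_mem_nhds hζ)] with n hn
    rw [hF]
    apply ENNReal.ofReal_le_ofReal
    have h5 : 0 < ‖ψ (((sn n)⁻¹ : ℝ) * exp (θ * I)) - c₀‖ :=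
      norm_pos_iff.2 (sub_ne_zero.2 (psi_ne hψ hc₀ (norm_pt (sn_pos n) (sn_lt n) θ)))
    have h6 : q ≤ q * r / ‖ψ (((sn n)⁻¹ : ℝ) * exp (θ * I)) - c₀‖ := by
      rw [le_div_iff₀ h5]
      exact mul_le_mul_of_nonneg_left hn.le hq0.le
    calc Real.log q ≤ Real.log (q * r / ‖ψ (((sn n)⁻¹ : ℝ) * exp (θ * I)) - c₀‖) :=
          Real.log_le_log hq0 h6
      _ ≤ _ := le_max_right _ _
  have h4 : ENNReal.ofReal (Real.log q) * cm (Ang ψ c₀ r) ≤ ENNReal.ofReal S :=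
    (mul_le_mul_right (measure_mono h3) _).trans (h2.trans h1)
  rw [cm_eq, inter_eq_left.2 (Ang_sub ψ c₀ r), ← mul_assoc,
    ← ENNReal.ofReal_mul hlog2.le, ← ENNReal.ofReal_toReal (vol_Ang_ne ψ c₀ r),
    ← ENNReal.ofReal_mul (by positivity), ENNReal.ofReal_le_ofReal_iff hS0] at h4
  rw [le_div_iff₀ hlog2]
  have h5 : 2 * Real.pi * (Real.log q * (2 * Real.pi)⁻¹ * (volume (Ang ψ c₀ r)).toReal) =
      (volume (Ang ψ c₀ r)).toReal * Real.log q := by
    field_simp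
  rw [← h5]
  gcongr

end Pool.Agent.Q186.Cusp
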