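import Pool.Agent.Q186.Cusp.Vol
import Pool.Agent.Q186.Par

/-!
# Green's function, the ray of angle zero and the loop at the cusp
-/

set_option autoImplicit false

open Complex Metric Set Filter Topology MeasureTheory Bornology N62a1eb23

namespace Pool.Agent.Q186.Cusp

open Pool.Agent.H712R2 (P P_zero P_one P_succ mem_multibrot_iff)
open Pool.Agent.H713R2 hiding LL
open Pool.Agent.Q186.Cen
open Pool.Agent.H712R2 (sr rr sr_pos sr_pow sr_pow' rr_eq rr_pos sr_lt_one disc_subset real_escape)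
open Pool.Agent.Y736.HD (Ang vol_Ang_ne)

theorem P_conj (d n : ℕ) (c : ℂ) : P d n ((starRingEnd ℂ) c) = (starRingEnd ℂ) (P d n c) := by
  induction n with
  | zero => rw [P_zero, P_zero, map_zero]
  | succ n ih => rw [P_succ, P_succ, ih, map_add, map_pow]

theorem mem_conj {d : ℕ} (hd : 2 ≤ d) {c : ℂ} :
    (starRingEnd ℂ) c ∈ multibrotSet d ↔ c ∈ multibrotSet d := by
  rw [mem_multibrot_iff hd, mem_multibrot_iff hd]
  simp only [P_conj, RCLike.norm_conj]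

/-- The reflection of the exterior map. -/
theorem ext_conj {d : ℕ} (hd : 2 ≤ d) {ψ : ℂ → ℂ} (hψ : IsExteriorMap (multibrotSet d) ψ) :
    IsExteriorMap (multibrotSet d) (fun z => (starRingEnd ℂ) (ψ ((starRingEnd ℂ) z))) := by
  have hopen : IsOpen {z : ℂ | 1 < ‖z‖} := isOpen_lt continuous_const continuous_norm
  refine ⟨?_, ?_, ?_, ?_⟩
  · intro z hz
    have hz' : 1 < ‖(starRingEnd ℂ) z‖ := by rw [RCLike.norm_conj]; exact hz
    have h1 : DifferentiableAt ℂ ψ ((starRingEnd ℂ) z) :=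
      (hψ.diff _ hz').differentiableAt (hopen.mem_nhds hz')
    have h2 := h1.conj_conj
    rw [Complex.conj_conj] at h2
    exact h2.differentiableWithinAt
  · intro z hz w hw h
    have hz' : 1 < ‖(starRingEnd ℂ) z‖ := by rw [RCLike.norm_conj]; exact hz
    have hw' : 1 < ‖(starRingEnd ℂ) w‖ := by rw [RCLike.norm_conj]; exact hw
    have h1 := hψ.inj hz' hw' ((starRingEnd ℂ).injective h)
    exact (starRingEnd ℂ).injective h1
  · ext c
    constructor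
    · rintro ⟨z, hz, rfl⟩
      have hz' : 1 < ‖(starRingEnd ℂ) z‖ := by rw [RCLike.norm_conj]; exact hz
      have h1 : ψ ((starRingEnd ℂ) z) ∈ (multibrotSet d)ᶜ := by
        rw [← hψ.image]
        exact mem_image_of_mem _ hz'
      intro h2
      exact h1 ((mem_conj hd).1 h2)
    · intro hc
      have h1 : (starRingEnd ℂ) c ∈ (multibrotSet d)ᶜ := fun h => hc ((mem_conj hd).1 h)
      rw [← hψ.image] at h1
      obtain ⟨z, hz, hzc⟩ := h1
      refine ⟨(starRingEnd ℂ) z, ?_, ?_⟩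
      · show 1 < ‖(starRingEnd ℂ) z‖
        rw [RCLike.norm_conj]
        exact hz
      · show (starRingEnd ℂ) (ψ ((starRingEnd ℂ) ((starRingEnd ℂ) z))) = c
        rw [Complex.conj_conj, hzc, Complex.conj_conj]
  · have h1 : Tendsto (fun z : ℂ => (starRingEnd ℂ) z) (cobounded ℂ) (cobounded ℂ) := by
      rw [← tendsto_norm_atTop_iff_cobounded]
      simp only [RCLike.norm_conj]
      exact tendsto_norm_cobounded_atTop
    have h2 := (Complex.continuous_conj.tendsto 1).comp (hψ.infinity.comp h1)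
    rw [map_one] at h2
    refine h2.congr fun z => ?_
    show (starRingEnd ℂ) (ψ ((starRingEnd ℂ) z) / (starRingEnd ℂ) z) = _
    rw [map_div₀, Complex.conj_conj]

/-- The exterior map is real on the real axis. -/
theorem psi_conj {d : ℕ} (hd : 2 ≤ d) {ψ : ℂ → ℂ} (hψ : IsExteriorMap (multibrotSet d) ψ)
    {w : ℂ} (hw : 1 < ‖w‖) : (starRingEnd ℂ) (ψ ((starRingEnd ℂ) w)) = ψ w := by
  obtain ⟨β, hβ⟩ := exists_beta (d := d) hd
  have h1 := exteriorMap_unique hβ (ext_conj hd hψ) hw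
  rw [exteriorMap_unique hβ hψ hw]
  exact h1

theorem psi_real {d : ℕ} (hd : 2 ≤ d) {ψ : ℂ → ℂ} (hψ : IsExteriorMap (multibrotSet d) ψ)
    {x : ℝ} (hx : 1 < x) : ((ψ x).re : ℂ) = ψ x := by
  have hx' : 1 < ‖(x : ℂ)‖ := by
    rw [Complex.norm_real, Real.norm_of_nonneg (by linarith)]
    exact hx
  have h1 := psi_conj hd hψ hx'
  rw [Complex.conj_ofReal] at h1
  exact Complex.conj_eq_iff_re.1 h1

/-- The ray of angle zero is the part of the real axis beyond the cusp. -/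
theorem psi_gt {d : ℕ} (hd : 2 ≤ d) {ψ : ℂ → ℂ} (hψ : IsExteriorMap (multibrotSet d) ψ)
    {x : ℝ} (hx : 1 < x) : rr d < (ψ x).re := by
  by_contra hcon
  rw [not_lt] at hcon
  have hcont : ContinuousOn (fun x : ℝ => (ψ x).re) (Ioi 1) := by
    apply Complex.continuous_re.comp_continuousOn
    apply hψ.diff.continuousOn.comp Complex.continuous_ofReal.continuousOn
    intro y hy
    have hy' : 1 < y := hy
    show 1 < ‖(y : ℂ)‖
    rw [Complex.norm_real, Real.norm_of_nonneg (by linarith)]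
    exact hy'
  -- large values
  have hinf : Tendsto (fun y : ℝ => (ψ y / y).re) atTop (𝓝 1) := by
    have h1 : Tendsto (fun y : ℝ => (y : ℂ)) atTop (cobounded ℂ) := by
      rw [← tendsto_norm_atTop_iff_cobounded]
      simp only [Complex.norm_real]
      exact tendsto_norm_atTop_atTop
    have h2 := (Complex.continuous_re.tendsto 1).comp (hψ.infinity.comp h1)
    rw [Complex.one_re] at h2
    exact h2
  obtain ⟨y, hy1, hy2⟩ := ((hinf.eventually (lt_mem_nhds (show (1 / 2 : ℝ) < 1 by norm_num))).and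
    (eventually_gt_atTop (max x 2))).exists
  have hyx : x < y := (le_max_left _ _).trans_lt hy2
  have hy22 : 2 < y := (le_max_right _ _).trans_lt hy2
  have hy3 : rr d ≤ (ψ y).re := by
    rw [Complex.div_ofReal_re, lt_div_iff₀ (by linarith)] at hy1
    have := rr_lt hd
    linarith
  obtain ⟨z, hz1, hz2⟩ := intermediate_value_Icc hyx.le (hcont.mono (fun t ht => by
    show 1 < t
    linarith [ht.1])) ⟨hcon, hy3⟩
  have hz3 : 1 < z := by linarith [hz1.1]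
  have hz' : 1 < ‖(z : ℂ)‖ := by
    rw [Complex.norm_real, Real.norm_of_nonneg (by linarith)]
    exact hz3
  have h1 : ψ z ∈ (multibrotSet d)ᶜ := by
    rw [← hψ.image]
    exact mem_image_of_mem _ hz'
  apply h1
  have hz4 : (ψ z).re = rr d := hz2
  rw [← psi_real hd hψ hz3, hz4]
  exact cusp_mem hd

theorem exists_psi {d : ℕ} {ψ : ℂ → ℂ} (hψ : IsExteriorMap (multibrotSet d) ψ) {c : ℂ}
    (hc : c ∉ multibrotSet d) : ∃ w : ℂ, 1 < ‖w‖ ∧ ψ w = c := by
  have h1 : c ∈ (multibrotSet d)ᶜ := hc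
  rw [← hψ.image] at h1
  obtain ⟨w, hw, hwc⟩ := h1
  exact ⟨w, hw, hwc⟩

set_option maxHeartbeats 4000000 in
/-- **Upper bound of Green's function near the cusp.** -/
theorem green_up {d : ℕ} (hd : 2 ≤ d) {δ : ℝ} (hδ : 0 < δ) (hδ1 : δ ≤ 1) :
    ∃ r₀ : ℝ, 0 < r₀ ∧ ∀ r : ℝ, 0 < r → r ≤ r₀ → ∀ c : ℂ, ‖c - rr d‖ ≤ r →
      ∀ g : ℝ, Rate d c g → g ≤ Real.exp (-((1 - δ) * (Real.pi * Real.log d / √(AA d * r)))) := by
  have hpi := Real.pi_pos
  have hA := AA_pos hd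
  have hdR : (1 : ℝ) < d := by exact_mod_cast (by omega : 1 < d)
  have hd0 : (0 : ℝ) < d := by linarith
  have hlogd : 0 < Real.log d := Real.log_pos hdR
  have hlog3 : 0 < Real.log 3 := Real.log_pos (by norm_num)
  obtain ⟨r₂, hr₂, hr₂1, hrate⟩ := rate_cusp hd (δ := Real.pi * δ / 2) (by positivity)
  obtain ⟨L, hL⟩ : ∃ L, L = |Real.log (Real.log 3)| + 2 * Real.log d + 1 := ⟨_, rfl⟩
  have hL0 : 0 < L := by
    rw [hL]
    have := abs_nonneg (Real.log (Real.log 3))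
    linarith
  obtain ⟨x₀, hx₀⟩ : ∃ x₀, x₀ = min 1 (Real.pi * Real.log d * (δ / 2) / L) :=
    ⟨_, rfl⟩
  have hx₀0 : 0 < x₀ := by
    rw [hx₀]
    exact lt_min one_pos (by positivity)
  refine ⟨min r₂ (x₀ ^ 2 / AA d), lt_min (by positivity) (by positivity), ?_⟩
  intro r hr hrr c hc g hg
  have hrr2 : r ≤ r₂ := hrr.trans (min_le_left _ _)
  have hrr3 : r ≤ x₀ ^ 2 / AA d := hrr.trans (min_le_right _ _)
  obtain ⟨x, hx⟩ : ∃ x, x = √(AA d * r) := ⟨_, rfl⟩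
  have hx0 : 0 < x := by rw [hx]; positivity
  have hxx : x ≤ x₀ := by rw [hx]; exact le_of_sqrt hA hr.le hx₀0.le hrr3
  have hx1 : x ≤ 1 := hxx.trans (by rw [hx₀]; exact min_le_left _ _)
  have hx2 : x * L ≤ Real.pi * Real.log d * (δ / 2) := by
    have h1 : x ≤ Real.pi * Real.log d * (δ / 2) / L :=
      hxx.trans (by rw [hx₀]; exact min_le_right _ _)
    rwa [le_div_iff₀ hL0] at h1
  rw [← hx]
  obtain ⟨y, hy⟩ : ∃ y, y = (Real.pi - Real.pi * δ / 2) / x := ⟨_, rfl⟩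
  have hpd : Real.pi * δ ≤ Real.pi := by nlinarith
  have hpi3 := Real.pi_gt_three
  have hy1 : 1 ≤ y := by
    rw [hy, le_div_iff₀ (by positivity)]
    linarith
  obtain ⟨n', hn'⟩ : ∃ n' : ℕ, n' = ⌊y⌋₊ := ⟨_, rfl⟩
  have hn'1 : (n' : ℝ) ≤ y := by rw [hn']; exact Nat.floor_le (by linarith)
  have hn'2 : y < n' + 1 := by rw [hn']; exact Nat.lt_floor_add_one y
  have hn'3 : 1 ≤ n' := by rw [hn']; exact Nat.le_floor (by exact_mod_cast hy1)
  obtain ⟨n, rfl⟩ := Nat.exists_eq_add_of_le' hn'3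
  have hv := hrate r hr hrr2 n (by
    rw [← hx]
    rw [hy, le_div_iff₀ (by positivity)] at hn'1
    push_cast at hn'1
    exact hn'1) c hc g hg
  refine hv.trans ?_
  have e1 : Real.log 3 / (d : ℝ) ^ n = Real.exp (Real.log (Real.log 3) - n * Real.log d) := by
    rw [Real.exp_sub, Real.exp_log hlog3, ← exp_nat_log hd]
  rw [e1]
  apply Real.exp_le_exp.2
  push_cast at hn'2
  have h1 : (y - 2) * Real.log d ≤ n * Real.log d := by
    apply mul_le_mul_of_nonneg_right _ hlogd.le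
    linarith
  have h2 : Real.pi * (1 - δ / 2) / x ≤ y := by
    rw [hy]
    apply le_of_eq
    ring
  have h3 : L ≤ Real.pi * Real.log d * (δ / 2) / x := by
    rw [le_div_iff₀ hx0]
    linarith
  have h4 : (1 - δ) * (Real.pi * Real.log d / x) = Real.pi * (1 - δ / 2) / x * Real.log d -
      Real.pi * Real.log d * (δ / 2) / x := by
    ring
  have h5 : Real.pi * (1 - δ / 2) / x * Real.log d ≤ y * Real.log d := by gcongr
  have h6 := le_abs_self (Real.log (Real.log 3))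
  rw [hL] at h3
  rw [h4]
  linarith

set_option maxHeartbeats 4000000 in
/-- **Lower bound of Green's function beyond the cusp.** -/
theorem green_low {d : ℕ} (hd : 2 ≤ d) {δ : ℝ} (hδ : 0 < δ) :
    ∃ r₀ : ℝ, 0 < r₀ ∧ ∀ r : ℝ, 0 < r → r ≤ r₀ → ∀ ψ : ℂ → ℂ, IsExteriorMap (multibrotSet d) ψ →
      ∀ w : ℂ, 1 < ‖w‖ → ∀ r' : ℝ, r ≤ r' → ψ w = ((rr d + r' : ℝ) : ℂ) →
        Real.exp (-((1 + δ) * (Real.pi * Real.log d / √(AA d * r)))) ≤ Real.log ‖w‖ := by
  have hpi := Real.pi_pos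
  have hA := AA_pos hd
  have hdR : (1 : ℝ) < d := by exact_mod_cast (by omega : 1 < d)
  have hd0 : (0 : ℝ) < d := by linarith
  have hlogd : 0 < Real.log d := Real.log_pos hdR
  obtain ⟨r₁, hr₁, hesc⟩ := escape hd (δ := Real.pi * δ / 2) (by positivity) 8
  obtain ⟨x₀, hx₀⟩ : ∃ x₀, x₀ = Real.pi * (δ / 2) := ⟨_, rfl⟩
  have hx₀0 : 0 < x₀ := by rw [hx₀]; positivity
  refine ⟨min r₁ (x₀ ^ 2 / AA d), lt_min hr₁ (by positivity), ?_⟩
  intro r hr hrr ψ hψ w hw r' hr' hwr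
  have hrr1 : r ≤ r₁ := hrr.trans (min_le_left _ _)
  have hrr3 : r ≤ x₀ ^ 2 / AA d := hrr.trans (min_le_right _ _)
  obtain ⟨x, hx⟩ : ∃ x, x = √(AA d * r) := ⟨_, rfl⟩
  have hx0 : 0 < x := by rw [hx]; positivity
  have hxx : x ≤ x₀ := by rw [hx]; exact le_of_sqrt hA hr.le hx₀0.le hrr3
  rw [← hx]
  obtain ⟨m, hm⟩ : ∃ m : ℕ, m = ⌈Real.pi * (1 + δ / 2) / x⌉₊ := ⟨_, rfl⟩
  have hm1 : Real.pi * (1 + δ / 2) / x ≤ m := by rw [hm]; exact Nat.le_ceil _
  have hm2 : (m : ℝ) < Real.pi * (1 + δ / 2) / x + 1 := by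
    rw [hm]; exact Nat.ceil_lt_add_one (by positivity)
  have hX : 8 ≤ X d r (m + 1) := by
    apply hesc r hr hrr1
    rw [← hx]
    push_cast
    rw [div_le_iff₀ hx0] at hm1
    nlinarith
  have hX' : 8 ≤ X d r' (m + 1) := hX.trans (X_le hd hr.le hr' _)
  have h1 : ‖P d (m + 1) (ψ w)‖ = X d r' (m + 1) := by
    rw [hwr, P_real, Complex.norm_real, Real.norm_of_nonneg (by linarith)]
  have h2 := Pool.Agent.W677.MC.P_le_two hd hψ hw m
  rw [h1] at h2
  have h3 : 4 ≤ ‖w‖ ^ (d ^ m) := by linarith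
  have hdm : (0 : ℝ) < (d : ℝ) ^ m := by positivity
  have h4 : 1 ≤ (d : ℝ) ^ m * Real.log ‖w‖ := by
    have h5 := Real.log_le_log (by norm_num) h3
    rw [Real.log_pow] at h5
    push_cast at h5
    have h6 : 1 ≤ Real.log 4 := by
      rw [Real.le_log_iff_exp_le (by norm_num)]
      have := Real.exp_one_lt_d9
      linarith
    linarith
  have h5 : 1 / (d : ℝ) ^ m ≤ Real.log ‖w‖ := by
    rw [div_le_iff₀ hdm]
    linarith
  refine le_trans ?_ h5
  rw [exp_nat_log hd, one_div, ← Real.exp_neg]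
  apply Real.exp_le_exp.2
  apply neg_le_neg
  have h6 : (m : ℝ) * Real.log d ≤ (Real.pi * (1 + δ / 2) / x + 1) * Real.log d :=
    mul_le_mul_of_nonneg_right hm2.le hlogd.le
  have h7 : Real.log d ≤ Real.pi * Real.log d * (δ / 2) / x := by
    rw [le_div_iff₀ hx0]
    have h8 : Real.log d * x ≤ Real.log d * x₀ := by gcongr
    rw [hx₀] at h8
    linarith
  have h8 : (Real.pi * (1 + δ / 2) / x + 1) * Real.log d + Real.pi * Real.log d * (δ / 2) / x =
      (1 + δ) * (Real.pi * Real.log d / x) + Real.log d := by ring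
  linarith

/-- The constant. -/
noncomputable def kap (d : ℕ) : ℝ := Real.pi * Real.log d / √(AA d)

theorem kap_pos {d : ℕ} (hd : 2 ≤ d) : 0 < kap d := by
  have hA := AA_pos hd
  have hdR : (1 : ℝ) < d := by exact_mod_cast (by omega : 1 < d)
  have hlogd : 0 < Real.log d := Real.log_pos hdR
  have hpi := Real.pi_pos
  unfold kap
  positivity

theorem kap_eq {d : ℕ} (hd : 2 ≤ d) (r : ℝ) :
    Real.pi * Real.log d / √(AA d * r) = kap d / √r := by
  unfold kap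
  rw [Real.sqrt_mul (AA_pos hd).le, div_div]

theorem kap_sq {d : ℕ} (hd : 2 ≤ d) : kap d ^ 2 = Real.pi ^ 2 * Real.log d ^ 2 / AA d := by
  unfold kap
  rw [div_pow, Real.sq_sqrt (AA_pos hd).le, mul_pow]

/-- A criterion for convergence. -/
theorem tendsto_of_delta {α : Type*} {l : Filter α} {f : α → ℝ} {k : ℝ} (hk : 0 < k)
    (h : ∀ δ : ℝ, 0 < δ → δ ≤ 1 → ∀ᶠ x in l, (1 - δ) * k ≤ f x ∧ f x ≤ (1 + δ) * k) :
    Tendsto f l (𝓝 k) := by
  rw [Metric.tendsto_nhds]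
  intro ε hε
  obtain ⟨δ, hδ⟩ : ∃ δ, δ = min 1 (ε / (2 * k)) := ⟨_, rfl⟩
  have hδ0 : 0 < δ := by rw [hδ]; exact lt_min one_pos (by positivity)
  have hδ1 : δ ≤ 1 := by rw [hδ]; exact min_le_left _ _
  have hδ2 : δ ≤ ε / (2 * k) := by rw [hδ]; exact min_le_right _ _
  rw [le_div_iff₀ (by positivity)] at hδ2
  filter_upwards [h δ hδ0 hδ1] with x hx
  rw [Real.dist_eq, abs_lt]
  constructor
  · nlinarith [hx.1]
  · nlinarith [hx.2]

theorem tendsto_of_delta_sq {α : Type*} {l : Filter α} {f : α → ℝ} {k : ℝ} (hk : 0 < k)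
    (h : ∀ δ : ℝ, 0 < δ → δ ≤ 1 → ∀ᶠ x in l, (1 - δ) ^ 2 * k ≤ f x ∧ f x ≤ (1 + δ) ^ 2 * k) :
    Tendsto f l (𝓝 k) := by
  apply tendsto_of_delta hk
  intro δ hδ hδ1
  filter_upwards [h (δ / 4) (by linarith) (by linarith)] with x hx
  constructor
  · refine le_trans ?_ hx.1
    gcongr
    nlinarith
  · refine hx.2.trans ?_
    gcongr
    nlinarith

/-- **Harmonic measure at the cusp.** -/
theorem harm_lim {d : ℕ} (hd : 2 ≤ d) {ψ : ℂ → ℂ} (hψ : IsExteriorMap (multibrotSet d) ψ) :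
    Tendsto (fun r : ℝ => √r * Real.log (1 / (volume (Ang ψ (rr d) r)).toReal)) (𝓝[>] 0)
      (𝓝 (kap d)) := by
  have hk := kap_pos hd
  apply tendsto_of_delta hk
  intro δ hδ hδ1
  obtain ⟨r₁, hr₁, H₁⟩ := vol_low hd hδ hδ1
  obtain ⟨r₂, hr₂, H₂⟩ := vol_up hd hδ hδ1
  filter_upwards [Ioo_mem_nhdsGT (lt_min hr₁ hr₂)] with r hr
  have hr0 : 0 < r := hr.1
  have h1 := H₁ ψ hψ r hr.1 (hr.2.le.trans (min_le_left _ _))
  have h2 := H₂ ψ hψ r hr.1 (hr.2.le.trans (min_le_right _ _))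
  rw [kap_eq hd] at h1 h2
  obtain ⟨V, hV⟩ : ∃ V, V = (volume (Ang ψ (rr d) r)).toReal := ⟨_, rfl⟩
  rw [← hV] at h1 h2 ⊢
  have hV0 : 0 < V := (Real.exp_pos _).trans_le h1
  have hsr : 0 < √r := by positivity
  rw [one_div, Real.log_inv]
  have h3 := Real.log_le_log (Real.exp_pos _) h1
  have h4 := Real.log_le_log hV0 h2
  rw [Real.log_exp] at h3 h4
  have e : √r * (kap d / √r) = kap d := by field_simp
  constructor
  · have h5 : √r * ((1 - δ) * (kap d / √r)) ≤ √r * -Real.log V := by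
      apply mul_le_mul_of_nonneg_left _ hsr.le
      linarith
    refine le_trans (le_of_eq ?_) h5
    rw [mul_left_comm, e]
  · have h5 : √r * -Real.log V ≤ √r * ((1 + δ) * (kap d / √r)) := by
      apply mul_le_mul_of_nonneg_left _ hsr.le
      linarith
    refine h5.trans (le_of_eq ?_)
    rw [mul_left_comm, e]

/-- **The ray of angle zero.** -/
theorem ray_lim {d : ℕ} (hd : 2 ≤ d) {ψ : ℂ → ℂ} (hψ : IsExteriorMap (multibrotSet d) ψ) :
    Tendsto (fun t : ℝ => Real.log (1 / t) ^ 2 * ‖ψ (Real.exp t : ℝ) - rr d‖) (𝓝[>] 0)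
      (𝓝 (kap d ^ 2)) := by
  have hk := kap_pos hd
  apply tendsto_of_delta_sq (by positivity)
  intro δ hδ hδ1
  obtain ⟨r₁, hr₁, H₁⟩ := green_up hd hδ hδ1
  obtain ⟨r₂, hr₂, H₂⟩ := green_low hd hδ
  obtain ⟨r₀, hr₀⟩ : ∃ r₀, r₀ = min r₁ r₂ := ⟨_, rfl⟩
  have hr₀0 : 0 < r₀ := by rw [hr₀]; exact lt_min hr₁ hr₂
  have hr₀1 : r₀ ≤ r₁ := by rw [hr₀]; exact min_le_left _ _
  have hr₀2 : r₀ ≤ r₂ := by rw [hr₀]; exact min_le_right _ _
  obtain ⟨t₀, ht₀⟩ : ∃ t₀, t₀ = Real.exp (-((1 + δ) * (kap d / √r₀))) := ⟨_, rfl⟩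
  have ht₀0 : 0 < t₀ := by rw [ht₀]; exact Real.exp_pos _
  filter_upwards [Ioo_mem_nhdsGT (lt_min ht₀0 one_pos)] with t ht
  have ht0 : 0 < t := ht.1
  have ht1 : t < t₀ := ht.2.trans_le (min_le_left _ _)
  have ht2 : t < 1 := ht.2.trans_le (min_le_right _ _)
  have hx1 : 1 < Real.exp t := Real.one_lt_exp_iff.2 ht0
  have hw : 1 < ‖((Real.exp t : ℝ) : ℂ)‖ := by
    rw [Complex.norm_real, Real.norm_of_nonneg (Real.exp_pos t).le]
    exact hx1
  have hlogw : Real.log ‖((Real.exp t : ℝ) : ℂ)‖ = t := by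
    rw [Complex.norm_real, Real.norm_of_nonneg (Real.exp_pos t).le, Real.log_exp]
  obtain ⟨r, hr⟩ : ∃ r, r = (ψ (Real.exp t : ℝ)).re - rr d := ⟨_, rfl⟩
  have hr0 : 0 < r := by
    have := psi_gt hd hψ hx1
    rw [hr]
    linarith
  have hψr : ψ (Real.exp t : ℝ) = ((rr d + r : ℝ) : ℂ) := by
    rw [hr, add_sub_cancel]
    exact (psi_real hd hψ hx1).symm
  have hnorm : ‖ψ (Real.exp t : ℝ) - rr d‖ = r := by
    rw [hψr]
    have : ((rr d + r : ℝ) : ℂ) - rr d = (r : ℂ) := by push_cast; ring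
    rw [this, Complex.norm_real, Real.norm_of_nonneg hr0.le]
  have hrr₀ : r < r₀ := by
    by_contra hcon
    rw [not_lt] at hcon
    have h1 := H₂ r₀ hr₀0 hr₀2 ψ hψ _ hw r hcon hψr
    rw [hlogw, kap_eq hd, ← ht₀] at h1
    linarith
  have h1 := H₂ r hr0 (hrr₀.le.trans hr₀2) ψ hψ _ hw r le_rfl hψr
  have h2 := H₁ r hr0 (hrr₀.le.trans hr₀1) _ hnorm.le _ (rate_psi hd hψ hw)
  rw [hlogw, kap_eq hd] at h1 h2
  rw [hnorm]
  have hsr : 0 < √r := by positivity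
  have h3 := Real.log_le_log (Real.exp_pos _) h1
  have h4 := Real.log_le_log ht0 h2
  rw [Real.log_exp] at h3 h4
  have e0 : Real.log (1 / t) = -Real.log t := by rw [one_div, Real.log_inv]
  have hL0 : 0 < Real.log (1 / t) := by
    apply Real.log_pos
    rw [lt_div_iff₀ ht0]
    linarith
  have h5 : (1 - δ) * (kap d / √r) ≤ Real.log (1 / t) := by rw [e0]; linarith
  have h6 : Real.log (1 / t) ≤ (1 + δ) * (kap d / √r) := by rw [e0]; linarith
  have e1 : √r ^ 2 = r := Real.sq_sqrt hr0.le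
  constructor
  · have h7 : ((1 - δ) * (kap d / √r)) ^ 2 ≤ Real.log (1 / t) ^ 2 := by
      have h8 : 0 ≤ (1 - δ) * (kap d / √r) := mul_nonneg (by linarith) (by positivity)
      gcongr
    have h8 : ((1 - δ) * (kap d / √r)) ^ 2 * r ≤ Real.log (1 / t) ^ 2 * r := by gcongr
    refine le_trans (le_of_eq ?_) h8
    rw [mul_pow, div_pow, e1]
    field_simp
  · have h7 : Real.log (1 / t) ^ 2 ≤ ((1 + δ) * (kap d / √r)) ^ 2 := by gcongr
    have h8 : Real.log (1 / t) ^ 2 * r ≤ ((1 + δ) * (kap d / √r)) ^ 2 * r := by gcongr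
    refine h8.trans (le_of_eq ?_)
    rw [mul_pow, div_pow, e1]
    field_simp

/-- the ray of angle zero lands at the cusp -/
theorem ray_land {d : ℕ} (hd : 2 ≤ d) {ψ : ℂ → ℂ} (hψ : IsExteriorMap (multibrotSet d) ψ) :
    Tendsto (fun t : ℝ => ψ (Real.exp t : ℝ)) (𝓝[>] 0) (𝓝 (rr d : ℂ)) := by
  rw [tendsto_iff_norm_sub_tendsto_zero]
  have h1 : Tendsto (fun t : ℝ => Real.log (1 / t) ^ 2) (𝓝[>] 0) atTop := by
    have h2 : Tendsto (fun t : ℝ => Real.log (1 / t)) (𝓝[>] 0) atTop := by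
      have h3 := tendsto_neg_atBot_atTop.comp Real.tendsto_log_nhdsGT_zero
      refine h3.congr fun t => ?_
      rw [one_div, Real.log_inv]
      rfl
    exact (tendsto_pow_atTop two_ne_zero).comp h2
  have h2 := (ray_lim hd hψ).mul h1.inv_tendsto_atTop
  rw [mul_zero] at h2
  refine h2.congr' ?_
  filter_upwards [Ioo_mem_nhdsGT one_pos] with t ht
  have hL0 : 0 < Real.log (1 / t) := by
    apply Real.log_pos
    rw [lt_div_iff₀ ht.1]
    linarith [ht.2]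
  simp only [Pi.inv_apply]
  field_simp

theorem F_one {d : ℕ} (hd : 2 ≤ d) {ψ F : ℂ → ℂ} (hψ : IsExteriorMap (multibrotSet d) ψ)
    (hF : ContinuousOn F {w | 1 ≤ ‖w‖}) (hE : ∀ w, 1 < ‖w‖ → F w = ψ w) : F 1 = rr d := by
  have h1 := Par.arc_sub hF hE (θ := 0)
  rw [Complex.ofReal_zero, zero_mul, Complex.exp_zero] at h1
  have h2 : Tendsto (fun t : ℝ => Real.exp t) (𝓝[>] 0) (𝓝[>] 1) := by
    rw [tendsto_nhdsWithin_iff]
    refine ⟨?_, ?_⟩
    · have h3 := (Real.continuous_exp.tendsto 0).mono_left (nhdsWithin_le_nhds (s := Ioi (0 : ℝ)))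
      rwa [Real.exp_zero] at h3
    · filter_upwards [self_mem_nhdsWithin] with t ht
      exact Real.one_lt_exp_iff.2 ht
  have h3 := h1.comp h2
  refine tendsto_nhds_unique h3 ?_
  refine (ray_land hd hψ).congr fun t => ?_
  simp

/-- **The loop at the cusp.** -/
theorem loop {d : ℕ} (hd : 2 ≤ d) {δ : ℝ} (hδ : 0 < δ) (hδ1 : δ < 1) :
    ∃ t₀ : ℝ, 0 < t₀ ∧ t₀ ≤ 1 / 2 ∧ ∀ ψ : ℂ → ℂ, IsExteriorMap (multibrotSet d) ψ →
      ∀ F : ℂ → ℂ, ContinuousOn F {w | 1 ≤ ‖w‖} → (∀ w, 1 < ‖w‖ → F w = ψ w) →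
        ∀ t : ℝ, 0 < t → t ≤ t₀ → ∃ ξ : ℂ, ‖ξ‖ = 1 ∧ ‖ξ - 1‖ ≤ t ∧
          (1 - δ) * kap d ^ 2 / Real.log (1 / t) ^ 2 ≤ ‖F ξ - rr d‖ := by
  have hk := kap_pos hd
  obtain ⟨r₁, hr₁, H₁⟩ := vol_up hd (δ := δ / 2) (by linarith) (by linarith)
  obtain ⟨t₀, ht₀⟩ : ∃ t₀, t₀ = min (1 / 2) (Real.exp (-(kap d / √r₁))) := ⟨_, rfl⟩
  have ht₀0 : 0 < t₀ := by rw [ht₀]; exact lt_min (by norm_num) (Real.exp_pos _)
  refine ⟨t₀, ht₀0, by rw [ht₀]; exact min_le_left _ _, ?_⟩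
  intro ψ hψ F hF hE t ht htt
  have ht1 : t ≤ 1 / 2 := htt.trans (by rw [ht₀]; exact min_le_left _ _)
  have ht2 : t ≤ Real.exp (-(kap d / √r₁)) := htt.trans (by rw [ht₀]; exact min_le_right _ _)
  by_contra hcon
  push Not at hcon
  obtain ⟨R, hR⟩ : ∃ R, R = (1 - δ) * kap d ^ 2 / Real.log (1 / t) ^ 2 := ⟨_, rfl⟩
  rw [← hR] at hcon
  have hδ2 : 0 < 1 - δ := by linarith
  have e0 : Real.log (1 / t) = -Real.log t := by rw [one_div, Real.log_inv]
  have hL0 : 0 < Real.log (1 / t) := by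
    apply Real.log_pos
    rw [lt_div_iff₀ ht]
    linarith
  have hR0 : 0 < R := by rw [hR]; positivity
  have hF1 := F_one hd hψ hF hE
  have h1 := Par.arc_le hF hE (ζ := 1) (by simp) ht ht1 (ρ := R) (fun ξ h1 h2 => by
    rw [hF1]
    exact hcon ξ h1 h2)
  rw [hF1] at h1
  have hRr : R ≤ r₁ := by
    have h2 := Real.log_le_log ht ht2
    rw [Real.log_exp] at h2
    have h3 : kap d / √r₁ ≤ Real.log (1 / t) := by rw [e0]; linarith
    have hs : 0 < √r₁ := by positivity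
    rw [div_le_iff₀ hs] at h3
    have h4 : kap d ^ 2 ≤ (Real.log (1 / t) * √r₁) ^ 2 := by gcongr
    rw [mul_pow, Real.sq_sqrt hr₁.le] at h4
    rw [hR, div_le_iff₀ (by positivity)]
    have h5 : (1 - δ) * kap d ^ 2 ≤ 1 * kap d ^ 2 := by
      gcongr
      linarith
    linarith
  have h2 := h1.trans (H₁ ψ hψ R hR0 hRr)
  rw [kap_eq hd] at h2
  have h3 := Real.log_le_log ht h2
  rw [Real.log_exp] at h3
  have hsR : √R = √(1 - δ) * kap d / Real.log (1 / t) := by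
    rw [hR, Real.sqrt_div (by positivity), Real.sqrt_mul hδ2.le, Real.sqrt_sq hk.le,
      Real.sqrt_sq hL0.le]
  have hsδ : 0 < √(1 - δ) := by positivity
  have h4 : kap d / √R = Real.log (1 / t) / √(1 - δ) := by
    rw [hsR]
    field_simp
  rw [h4] at h3
  have h5 : (1 - δ / 2) * (Real.log (1 / t) / √(1 - δ)) ≤ Real.log (1 / t) := by
    rw [e0] at h3 ⊢
    linarith
  have h6 : (1 - δ / 2) ≤ √(1 - δ) := by
    have h7 : (1 - δ / 2) * (Real.log (1 / t) / √(1 - δ)) =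
        (1 - δ / 2) / √(1 - δ) * Real.log (1 / t) := by ring
    rw [h7] at h5
    have h8 : (1 - δ / 2) / √(1 - δ) ≤ 1 := by
      by_contra hcon2
      rw [not_le] at hcon2
      nlinarith
    rwa [div_le_one hsδ] at h8
  have h7 : (1 - δ / 2) ^ 2 ≤ √(1 - δ) ^ 2 := by
    have : 0 ≤ 1 - δ / 2 := by linarith
    gcongr
  rw [Real.sq_sqrt hδ2.le] at h7
  nlinarith

end Pool.Agent.Q186.Cusp
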