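import Pool.Agent.H712R2.MultiCoarse

/-!
# The passage through the gate: real parameters close to the cusp of the Multibrot sets
-/

set_option autoImplicit false

open Filter Topology Set

namespace Pool.Agent.Q186.Cusp

open Pool.Agent.H712R2 (sr rr sr_pos sr_pow sr_pow' rr_eq rr_pos sr_lt_one)

/-- The quotient of the second order. -/
noncomputable def G (d : ℕ) (x : ℝ) : ℝ :=
  ∑ i ∈ Finset.range d, (∑ j ∈ Finset.range i, x ^ j * sr d ^ (i - 1 - j)) * sr d ^ (d - 1 - i)

/-- The coefficient of the second order. -/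
noncomputable def AA (d : ℕ) : ℝ := G d (sr d)

theorem continuous_G (d : ℕ) : Continuous (G d) := by
  unfold G
  fun_prop

theorem map_eq {d : ℕ} (hd : 2 ≤ d) (x : ℝ) : x ^ d + rr d = x + (x - sr d) ^ 2 * G d x := by
  have h1 : (d : ℝ) * sr d ^ (d - 1) = 1 := by
    rw [sr_pow hd]
    have : (d : ℝ) ≠ 0 := by exact_mod_cast (by omega : d ≠ 0)
    field_simp
  have h2 : ∑ i ∈ Finset.range d, sr d ^ i * sr d ^ (d - 1 - i) = 1 := by
    rw [← h1]
    have h3 : ∀ i ∈ Finset.range d, sr d ^ i * sr d ^ (d - 1 - i) = sr d ^ (d - 1) := by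
      intro i hi
      rw [Finset.mem_range] at hi
      rw [← pow_add]
      congr 1
      omega
    rw [Finset.sum_congr rfl h3, Finset.sum_const, Finset.card_range, nsmul_eq_mul]
  have h3 : ∑ i ∈ Finset.range d, x ^ i * sr d ^ (d - 1 - i) - 1 = (x - sr d) * G d x := by
    rw [← h2, ← Finset.sum_sub_distrib]
    unfold G
    rw [Finset.mul_sum]
    apply Finset.sum_congr rfl
    intro i _
    rw [← sub_mul, ← mul_assoc]
    congr 1
    have h4 := (Commute.all x (sr d)).geom_sum₂_mul i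
    rw [← h4, mul_comm]
  have h4 := (Commute.all x (sr d)).geom_sum₂_mul d
  have h5 : ∑ i ∈ Finset.range d, x ^ i * sr d ^ (d - 1 - i) = 1 + (x - sr d) * G d x := by
    linarith
  rw [h5] at h4
  unfold rr
  linarith

theorem G_ge {d : ℕ} (hd : 2 ≤ d) {x : ℝ} (hx : 0 ≤ x) : sr d ^ (d - 2) ≤ G d x := by
  have hs := sr_pos d
  unfold G
  have h1 : ∀ i ∈ Finset.range d, 0 ≤
      (∑ j ∈ Finset.range i, x ^ j * sr d ^ (i - 1 - j)) * sr d ^ (d - 1 - i) := by
    intro i _
    apply mul_nonneg _ (by positivity)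
    exact Finset.sum_nonneg fun j _ => by positivity
  have h2 := Finset.single_le_sum h1 (Finset.mem_range.2 (show 1 < d by omega))
  refine le_trans (le_of_eq ?_) h2
  simp
  congr 1

theorem AA_pos {d : ℕ} (hd : 2 ≤ d) : 0 < AA d :=
  lt_of_lt_of_le (pow_pos (sr_pos d) _) (G_ge hd (sr_pos d).le)

theorem AA_eq {d : ℕ} (hd : 2 ≤ d) : AA d = (d - 1) / (2 * sr d) := by
  have hs := sr_pos d
  have hdR : (2 : ℝ) ≤ d := by exact_mod_cast hd
  have h1 : ∀ i ∈ Finset.range d, (∑ j ∈ Finset.range i, sr d ^ j * sr d ^ (i - 1 - j)) *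
      sr d ^ (d - 1 - i) = i * sr d ^ (d - 2) := by
    intro i hi
    rw [Finset.mem_range] at hi
    rcases Nat.eq_zero_or_pos i with h0 | h0
    · rw [h0]; simp
    · have h2 : ∀ j ∈ Finset.range i, sr d ^ j * sr d ^ (i - 1 - j) = sr d ^ (i - 1) := by
        intro j hj
        rw [Finset.mem_range] at hj
        rw [← pow_add]
        congr 1
        omega
      rw [Finset.sum_congr rfl h2, Finset.sum_const, Finset.card_range, nsmul_eq_mul, mul_assoc,
        ← pow_add]
      congr 2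
      omega
  have h3 : ∑ i ∈ Finset.range d, (i : ℝ) = d * (d - 1) / 2 := by
    clear h1 hs hdR hd
    induction d with
    | zero => simp
    | succ d ih =>
      rw [Finset.sum_range_succ, ih]
      push_cast
      ring
  have h4 : sr d ^ (d - 2) = 1 / (d * sr d) := by
    have h5 := sr_pow hd
    have h6 : d - 1 = (d - 2) + 1 := by omega
    rw [h6, pow_succ] at h5
    rw [eq_div_iff (by positivity)]
    calc sr d ^ (d - 2) * (d * sr d) = d * (sr d ^ (d - 2) * sr d) := by ring
      _ = 1 := by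
        rw [h5]
        field_simp
  unfold AA G
  rw [Finset.sum_congr rfl h1, ← Finset.sum_mul, h3, h4]
  field_simp

/-- The critical orbit for the parameter `rr d + r`. -/
noncomputable def X (d : ℕ) (r : ℝ) : ℕ → ℝ
  | 0 => 0
  | n + 1 => X d r n ^ d + (rr d + r)

theorem X_succ {d : ℕ} (r : ℝ) (n : ℕ) : X d r (n + 1) = X d r n ^ d + (rr d + r) := rfl

theorem X_nonneg {d : ℕ} (hd : 2 ≤ d) {r : ℝ} (hr : 0 ≤ r) (n : ℕ) : 0 ≤ X d r n := by
  induction n with
  | zero => exact le_rfl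
  | succ n ih =>
    rw [X_succ]
    have := rr_pos hd
    positivity

theorem X_step {d : ℕ} (hd : 2 ≤ d) (r : ℝ) (n : ℕ) :
    X d r (n + 1) = X d r n + (X d r n - sr d) ^ 2 * G d (X d r n) + r := by
  rw [X_succ, ← add_assoc, map_eq hd]

theorem X_mono {d : ℕ} (hd : 2 ≤ d) {r : ℝ} (hr : 0 ≤ r) : Monotone (X d r) := by
  apply monotone_nat_of_le_succ
  intro n
  rw [X_step hd]
  have h1 := G_ge hd (X_nonneg hd hr n)
  have h2 := pow_pos (sr_pos d) (d - 2)
  have h3 : 0 ≤ (X d r n - sr d) ^ 2 * G d (X d r n) := mul_nonneg (sq_nonneg _) (by linarith)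
  linarith

theorem X_le {d : ℕ} (hd : 2 ≤ d) {r r' : ℝ} (hr : 0 ≤ r) (h : r ≤ r') (n : ℕ) :
    X d r n ≤ X d r' n := by
  induction n with
  | zero => exact le_rfl
  | succ n ih =>
    rw [X_succ, X_succ]
    have := X_nonneg hd hr n
    gcongr

/-- Away from the fixed point the orbit moves. -/
theorem X_far {d : ℕ} (hd : 2 ≤ d) {r : ℝ} (hr : 0 ≤ r) {η : ℝ} (hη : 0 < η) {n : ℕ}
    (h : η ≤ |X d r n - sr d|) : X d r n + η ^ 2 * sr d ^ (d - 2) ≤ X d r (n + 1) := by
  rw [X_step hd]
  have h1 := G_ge hd (X_nonneg hd hr n)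
  have h2 := pow_pos (sr_pos d) (d - 2)
  have h3 : η ^ 2 ≤ (X d r n - sr d) ^ 2 := by
    rw [← sq_abs (X d r n - sr d)]
    gcongr
  have h4 : η ^ 2 * sr d ^ (d - 2) ≤ (X d r n - sr d) ^ 2 * G d (X d r n) := by gcongr
  linarith

/-- The orbit comes close to the fixed point after a bounded time. -/
theorem exists_N1 {d : ℕ} (hd : 2 ≤ d) {η : ℝ} (hη : 0 < η) :
    ∃ N : ℕ, ∀ r : ℝ, 0 ≤ r → ∀ n, N ≤ n → sr d - η ≤ X d r n := by
  have hs := sr_pos d
  have hκ : 0 < η ^ 2 * sr d ^ (d - 2) := by positivity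
  obtain ⟨N, hN⟩ := exists_nat_gt (sr d / (η ^ 2 * sr d ^ (d - 2)))
  refine ⟨N, fun r hr n hn => ?_⟩
  refine le_trans ?_ (X_mono hd hr hn)
  by_contra hcon
  rw [not_le] at hcon
  have h1 : ∀ m ≤ N, m * (η ^ 2 * sr d ^ (d - 2)) ≤ X d r m := by
    intro m
    induction m with
    | zero =>
      intro _
      simp [X]
    | succ m ih =>
      intro hm
      have h2 := ih (by omega)
      have h3 : X d r m ≤ X d r N := X_mono hd hr (by omega)
      have h4 := X_far hd hr hη (n := m) (by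
        rw [abs_of_neg (by linarith)]
        linarith)
      push_cast
      linarith
  have h2 := h1 N le_rfl
  rw [div_lt_iff₀ hκ] at hN
  linarith

/-- The orbit escapes in a bounded time after it has passed the gate. -/
theorem exists_N2 {d : ℕ} (hd : 2 ≤ d) {η : ℝ} (hη : 0 < η) (K : ℝ) :
    ∃ N : ℕ, ∀ r : ℝ, 0 ≤ r → ∀ m, sr d + η ≤ X d r m → ∀ n, m + N ≤ n → K ≤ X d r n := by
  have hs := sr_pos d
  have hκ : 0 < η ^ 2 * sr d ^ (d - 2) := by positivity
  obtain ⟨N, hN⟩ := exists_nat_gt (K / (η ^ 2 * sr d ^ (d - 2)))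
  refine ⟨N, fun r hr m hm n hn => ?_⟩
  refine le_trans ?_ (X_mono hd hr hn)
  have h1 : ∀ j : ℕ, j * (η ^ 2 * sr d ^ (d - 2)) ≤ X d r (m + j) := by
    intro j
    induction j with
    | zero =>
      simp only [Nat.cast_zero, zero_mul, add_zero]
      exact X_nonneg hd hr m
    | succ j ih =>
      have h3 : X d r m ≤ X d r (m + j) := X_mono hd hr (by omega)
      have h4 := X_far hd hr hη (n := m + j) (by
        rw [abs_of_pos (by linarith)]
        linarith)
      rw [← add_assoc]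
      push_cast
      linarith
  rw [div_lt_iff₀ hκ] at hN
  exact hN.le.trans (h1 N)

/-- bound of the increments of the arctangent -/
theorem arctan_sub_le {a b m : ℝ} (hab : a ≤ b) (hm : 0 < m) (h : ∀ x ∈ Icc a b, m ≤ 1 + x ^ 2) :
    Real.arctan b - Real.arctan a ≤ (b - a) / m := by
  have h1 := (convex_Icc a b).image_sub_le_mul_sub_of_deriv_le (f := Real.arctan) (C := 1 / m)
    Real.continuous_arctan.continuousOn Real.differentiable_arctan.differentiableOn
    (fun x hx => by
      rw [interior_Icc] at hx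
      rw [Real.deriv_arctan]
      exact one_div_le_one_div_of_le hm (h x (Ioo_subset_Icc_self hx)))
    a (left_mem_Icc.2 hab) b (right_mem_Icc.2 hab) hab
  refine h1.trans (le_of_eq ?_)
  field_simp

theorem le_arctan_sub {a b m : ℝ} (hab : a ≤ b) (h : ∀ x ∈ Icc a b, 1 + x ^ 2 ≤ m) :
    (b - a) / m ≤ Real.arctan b - Real.arctan a := by
  have h1 := (convex_Icc a b).mul_sub_le_image_sub_of_le_deriv (f := Real.arctan) (C := 1 / m)
    Real.continuous_arctan.continuousOn Real.differentiable_arctan.differentiableOn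
    (fun x hx => by
      rw [interior_Icc] at hx
      rw [Real.deriv_arctan]
      exact one_div_le_one_div_of_le (by positivity) (h x (Ioo_subset_Icc_self hx)))
    a (left_mem_Icc.2 hab) b (right_mem_Icc.2 hab) hab
  refine le_trans (le_of_eq ?_) h1
  ring

theorem incr_le {A r y k η : ℝ} (hA : 0 < A) (hr : 0 < r) (hk0 : 0 ≤ k) (hk : k ≤ A * y ^ 2 + r)
    (hy : |y| ≤ η) (hη : 2 * A * η < 1) :
    Real.arctan (√(A / r) * (y + k)) - Real.arctan (√(A / r) * y) ≤
      √(A * r) / (1 - 2 * A * η) := by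
  obtain ⟨B, hB⟩ : ∃ B, B = √(A / r) := ⟨_, rfl⟩
  have hB0 : 0 < B := by rw [hB]; positivity
  have hB2 : B ^ 2 * r = A := by
    rw [hB, Real.sq_sqrt (by positivity)]
    field_simp
  have hBr : B * r = √(A * r) := by
    have h1 : 0 ≤ B * r := by positivity
    rw [← Real.sqrt_sq h1]
    congr 1
    calc (B * r) ^ 2 = (B ^ 2 * r) * r := by ring
      _ = _ := by rw [hB2]
  rw [← hB, ← hBr]
  have hpos : 0 < 1 - 2 * A * η := by linarith
  have hm : 0 < (1 + B ^ 2 * y ^ 2) * (1 - 2 * A * η) := by positivity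
  have hk' : k ≤ r * (1 + B ^ 2 * y ^ 2) := by
    calc k ≤ A * y ^ 2 + r := hk
      _ = r * (1 + B ^ 2 * y ^ 2) := by
        rw [← hB2]
        ring
  have h1 := arctan_sub_le (a := B * y) (b := B * (y + k)) (m := (1 + B ^ 2 * y ^ 2) *
    (1 - 2 * A * η)) (by nlinarith) hm (by
      intro x hx
      obtain ⟨t, ht⟩ : ∃ t, t = x / B - y := ⟨_, rfl⟩
      have hxt : x = B * (y + t) := by
        rw [ht]
        field_simp
        ring
      have ht0 : 0 ≤ t := by
        have := hx.1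
        rw [hxt] at this
        have := le_of_mul_le_mul_left this hB0
        linarith
      have htk : t ≤ k := by
        have := hx.2
        rw [hxt] at this
        have := le_of_mul_le_mul_left this hB0
        linarith
      have h2 : -(2 * |y| * (r * (1 + B ^ 2 * y ^ 2))) ≤ 2 * y * t := by
        have h3 : |2 * y * t| ≤ 2 * |y| * (r * (1 + B ^ 2 * y ^ 2)) := by
          rw [abs_mul, abs_mul, abs_of_nonneg ht0, abs_two]
          have : t ≤ r * (1 + B ^ 2 * y ^ 2) := htk.trans hk'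
          gcongr
        have := neg_abs_le (2 * y * t)
        linarith
      have h4 : B ^ 2 * (2 * |y| * (r * (1 + B ^ 2 * y ^ 2))) ≤
          2 * A * η * (1 + B ^ 2 * y ^ 2) := by
        calc B ^ 2 * (2 * |y| * (r * (1 + B ^ 2 * y ^ 2))) =
              2 * (B ^ 2 * r) * |y| * (1 + B ^ 2 * y ^ 2) := by ring
          _ = 2 * A * |y| * (1 + B ^ 2 * y ^ 2) := by rw [hB2]
          _ ≤ _ := by gcongr
      have h5 : x ^ 2 = B ^ 2 * y ^ 2 + B ^ 2 * (2 * y * t) + B ^ 2 * t ^ 2 := by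
        rw [hxt]
        ring
      have h6 : B ^ 2 * -(2 * |y| * (r * (1 + B ^ 2 * y ^ 2))) ≤ B ^ 2 * (2 * y * t) := by
        gcongr
      have h7 : 0 ≤ B ^ 2 * t ^ 2 := by positivity
      rw [h5]
      linarith)
  refine h1.trans ?_
  have e : B * (y + k) - B * y = B * k := by ring
  rw [e, div_le_div_iff₀ hm hpos]
  calc B * k * (1 - 2 * A * η) ≤ B * (r * (1 + B ^ 2 * y ^ 2)) * (1 - 2 * A * η) := by gcongr
    _ = _ := by ring

theorem le_incr {A r y k η : ℝ} (hA : 0 < A) (hr : 0 < r) (hk : A * y ^ 2 + r ≤ k)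
    (hy : |y| ≤ η) :
    √(A * r) / (1 + 2 * A * η + A * (A * η ^ 2 + r)) ≤
      Real.arctan (√(A / r) * (y + k)) - Real.arctan (√(A / r) * y) := by
  obtain ⟨B, hB⟩ : ∃ B, B = √(A / r) := ⟨_, rfl⟩
  have hB0 : 0 < B := by rw [hB]; positivity
  have hη0 : 0 ≤ η := (abs_nonneg y).trans hy
  have hB2 : B ^ 2 * r = A := by
    rw [hB, Real.sq_sqrt (by positivity)]
    field_simp
  have hBr : B * r = √(A * r) := by
    have h1 : 0 ≤ B * r := by positivity
    rw [← Real.sqrt_sq h1]
    congr 1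
    calc (B * r) ^ 2 = (B ^ 2 * r) * r := by ring
      _ = _ := by rw [hB2]
  rw [← hB, ← hBr]
  obtain ⟨k', hk'⟩ : ∃ k', k' = A * y ^ 2 + r := ⟨_, rfl⟩
  rw [← hk'] at hk
  have hk'0 : 0 < k' := by rw [hk']; positivity
  have hk'e : k' = r * (1 + B ^ 2 * y ^ 2) := by
    rw [hk', ← hB2]
    ring
  have hy2 : y ^ 2 ≤ η ^ 2 := by
    rw [← sq_abs y]
    gcongr
  have h0 : Real.arctan (B * (y + k')) ≤ Real.arctan (B * (y + k)) := by
    apply Real.arctan_mono
    gcongr
  have h1 := le_arctan_sub (a := B * y) (b := B * (y + k')) (m := (1 + B ^ 2 * y ^ 2) *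
    (1 + 2 * A * η + A * (A * η ^ 2 + r))) (by nlinarith) (by
      intro x hx
      obtain ⟨t, ht⟩ : ∃ t, t = x / B - y := ⟨_, rfl⟩
      have hxt : x = B * (y + t) := by
        rw [ht]
        field_simp
        ring
      have ht0 : 0 ≤ t := by
        have := hx.1
        rw [hxt] at this
        have := le_of_mul_le_mul_left this hB0
        linarith
      have htk : t ≤ k' := by
        have := hx.2
        rw [hxt] at this
        have := le_of_mul_le_mul_left this hB0
        linarith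
      have h2 : 2 * y * t ≤ 2 * |y| * k' := by
        calc 2 * y * t ≤ 2 * |y| * t := by
              have := le_abs_self y
              gcongr
          _ ≤ _ := by gcongr
      have h5 : x ^ 2 = B ^ 2 * y ^ 2 + B ^ 2 * (2 * y * t) + B ^ 2 * t ^ 2 := by
        rw [hxt]
        ring
      have h6 : B ^ 2 * (2 * y * t) ≤ 2 * A * η * (1 + B ^ 2 * y ^ 2) := by
        calc B ^ 2 * (2 * y * t) ≤ B ^ 2 * (2 * |y| * k') := by gcongr
          _ = 2 * (B ^ 2 * r) * |y| * (1 + B ^ 2 * y ^ 2) := by rw [hk'e]; ring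
          _ = 2 * A * |y| * (1 + B ^ 2 * y ^ 2) := by rw [hB2]
          _ ≤ _ := by gcongr
      have h7 : B ^ 2 * t ^ 2 ≤ A * (A * η ^ 2 + r) * (1 + B ^ 2 * y ^ 2) := by
        calc B ^ 2 * t ^ 2 ≤ B ^ 2 * k' ^ 2 := by gcongr
          _ = (B ^ 2 * r) * k' * (1 + B ^ 2 * y ^ 2) := by
              nth_rewrite 1 [sq k']
              nth_rewrite 2 [hk'e]
              ring
          _ = A * (A * y ^ 2 + r) * (1 + B ^ 2 * y ^ 2) := by rw [hB2, hk']
          _ ≤ _ := by gcongr
      rw [h5]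
      nlinarith)
  refine le_trans ?_ (h1.trans (by linarith))
  have e : B * (y + k') - B * y = B * k' := by ring
  rw [e, hk'e, div_le_div_iff₀ (by positivity) (by positivity)]
  apply le_of_eq
  ring

end Pool.Agent.Q186.Cusp
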