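import Pool.Agent.Q186.Cusp.Real

/-!
# The time of the passage through the gate
-/

set_option autoImplicit false

open Filter Topology Set

namespace Pool.Agent.Q186.Cusp

open Pool.Agent.H712R2 (sr rr sr_pos sr_pow sr_pow' rr_eq rr_pos sr_lt_one)

theorem arctan_ge {x : ℝ} (hx : 0 < x) : Real.pi / 2 - 1 / x ≤ Real.arctan x := by
  have h1 := Real.arctan_inv_of_pos hx
  have h2 : Real.arctan x⁻¹ ≤ x⁻¹ := by
    have h3 := arctan_sub_le (a := 0) (b := x⁻¹) (m := 1) (by positivity) one_pos (by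
      intro y _
      nlinarith [sq_nonneg y])
    rw [Real.arctan_zero] at h3
    linarith
  rw [one_div]
  linarith

set_option maxHeartbeats 4000000 in
/-- **The orbit does not pass the gate before the time `π / √(A r)`.** -/
theorem gate {d : ℕ} (hd : 2 ≤ d) {δ η : ℝ} (hδ : 0 < δ) (hη : 0 < η) :
    ∃ r₀ : ℝ, 0 < r₀ ∧ ∀ r : ℝ, 0 < r → r ≤ r₀ → ∀ n : ℕ,
      (n : ℝ) * √(AA d * r) ≤ Real.pi - δ → X d r n ≤ sr d + η := by
  have hpi := Real.pi_pos
  have hs := sr_pos d
  have hA := AA_pos hd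
  obtain ⟨τ, hτ⟩ : ∃ τ, τ = δ / (2 * Real.pi) := ⟨_, rfl⟩
  have hτ0 : 0 < τ := by rw [hτ]; positivity
  obtain ⟨A₂, hA₂⟩ : ∃ A₂, A₂ = AA d * (1 + τ) ^ 2 := ⟨_, rfl⟩
  have hA₂0 : 0 < A₂ := by rw [hA₂]; positivity
  have hAA₂ : AA d < A₂ := by
    rw [hA₂]
    have h1 : (1 : ℝ) < (1 + τ) ^ 2 := by nlinarith
    exact lt_mul_of_one_lt_right hA h1
  have hev : ∀ᶠ x in 𝓝 (sr d), G d x < A₂ :=
    (continuous_G d).continuousAt.eventually (gt_mem_nhds hAA₂)
  obtain ⟨η₁, hη₁, hG⟩ := Metric.eventually_nhds_iff.1 hev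
  obtain ⟨e, he⟩ : ∃ e, e = min η (min (η₁ / 2) (min (sr d / 2) (min (1 / (4 * A₂))
    (δ / (16 * Real.pi * A₂))))) := ⟨_, rfl⟩
  have he0 : 0 < e := by
    rw [he]
    exact lt_min hη (lt_min (by linarith) (lt_min (by linarith) (lt_min (by positivity)
      (by positivity))))
  have he1 : e ≤ η := by rw [he]; exact min_le_left _ _
  have he2 : e ≤ η₁ / 2 := by
    rw [he]; exact (min_le_right _ _).trans (min_le_left _ _)
  have he3 : e ≤ sr d / 2 := by
    rw [he]; exact (min_le_right _ _).trans ((min_le_right _ _).trans (min_le_left _ _))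
  have he4 : e ≤ 1 / (4 * A₂) := by
    rw [he]
    exact (min_le_right _ _).trans ((min_le_right _ _).trans ((min_le_right _ _).trans
      (min_le_left _ _)))
  have he5 : e ≤ δ / (16 * Real.pi * A₂) := by
    rw [he]
    exact (min_le_right _ _).trans ((min_le_right _ _).trans ((min_le_right _ _).trans
      (min_le_right _ _)))
  rw [le_div_iff₀ (by positivity)] at he4 he5
  refine ⟨min (e / 4) (A₂ * (δ * e / 24) ^ 2), lt_min (by linarith) (by positivity), ?_⟩
  intro r hr hrr n hn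
  have hr1 : r ≤ e / 4 := hrr.trans (min_le_left _ _)
  have hr2 : r ≤ A₂ * (δ * e / 24) ^ 2 := hrr.trans (min_le_right _ _)
  by_contra hcon
  rw [not_le] at hcon
  have hGle : ∀ x, |x - sr d| ≤ e → G d x ≤ A₂ := by
    intro x hx
    have : dist x (sr d) < η₁ := by
      rw [Real.dist_eq]
      linarith
    exact (hG this).le
  have hex : ∃ m, sr d + e < X d r m := ⟨n, by linarith⟩
  obtain ⟨m, hm, hmin⟩ : ∃ m, sr d + e < X d r m ∧ ∀ i < m, X d r i ≤ sr d + e := by
    classical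
    exact ⟨Nat.find hex, Nat.find_spec hex, fun i hi => not_lt.1 (Nat.find_min hex hi)⟩
  have hmn : m ≤ n := by
    by_contra h
    rw [not_le] at h
    have := hmin n h
    linarith
  have hex1 : ∃ m, sr d - e ≤ X d r m := ⟨m, by linarith⟩
  obtain ⟨m₁, hm₁, hmin₁⟩ : ∃ m₁, sr d - e ≤ X d r m₁ ∧ ∀ i < m₁, X d r i < sr d - e := by
    classical
    exact ⟨Nat.find hex1, Nat.find_spec hex1, fun i hi => not_le.1 (Nat.find_min hex1 hi)⟩
  have hm₁pos : 1 ≤ m₁ := by
    by_contra h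
    have h0 : m₁ = 0 := by omega
    rw [h0] at hm₁
    have : X d r 0 = 0 := rfl
    rw [this] at hm₁
    linarith
  have hXm₁ : X d r m₁ ≤ sr d - e / 2 := by
    obtain ⟨j, rfl⟩ := Nat.exists_eq_add_of_le' hm₁pos
    have h1 := hmin₁ j (by omega)
    have h2 := X_nonneg hd hr.le j
    rw [X_succ]
    have h3 : X d r j ^ d ≤ (sr d - e) ^ d := by gcongr
    have h4 := map_eq hd (sr d - e)
    have h5 := hGle (sr d - e) (by
      have : sr d - e - sr d = -e := by ring
      rw [this, abs_neg, abs_of_pos he0])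
    have h6 : (sr d - e - sr d) ^ 2 * G d (sr d - e) ≤ e / 4 := by
      have : (sr d - e - sr d) ^ 2 = e ^ 2 := by ring
      rw [this]
      calc e ^ 2 * G d (sr d - e) ≤ e ^ 2 * A₂ := by gcongr
        _ = e * (e * (4 * A₂)) / 4 := by ring
        _ ≤ e * 1 / 4 := by gcongr
        _ = e / 4 := by ring
    linarith
  have hm₁m : m₁ ≤ m := by
    by_contra h
    rw [not_le] at h
    have := hmin₁ m h
    linarith
  obtain ⟨B, hB⟩ : ∃ B, B = √(A₂ / r) := ⟨_, rfl⟩
  have hB0 : 0 < B := by rw [hB]; positivity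
  obtain ⟨q, hq⟩ : ∃ q, q = √(A₂ * r) / (1 - 2 * A₂ * e) := ⟨_, rfl⟩
  have h2Ae : 2 * A₂ * e ≤ 1 / 2 := by nlinarith
  have hq0 : 0 ≤ q := by
    rw [hq]
    apply div_nonneg (Real.sqrt_nonneg _)
    linarith
  have htel : ∀ i, m₁ ≤ i → i ≤ m → Real.arctan (B * (X d r i - sr d)) -
      Real.arctan (B * (X d r m₁ - sr d)) ≤ ((i : ℝ) - m₁) * q := by
    intro i hi
    induction i, hi using Nat.le_induction with
    | base => intro _; simp
    | succ i hi ih =>
      intro him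
      have h1 := ih (by omega)
      have h2 := hmin i (by omega)
      have h3 : X d r m₁ ≤ X d r i := X_mono hd hr.le hi
      have h4 : |X d r i - sr d| ≤ e := by
        rw [abs_le]
        constructor <;> linarith
      have h5 := incr_le (A := A₂) (r := r) (y := X d r i - sr d)
        (k := (X d r i - sr d) ^ 2 * G d (X d r i) + r) (η := e) hA₂0 hr (by
          have h6 := G_ge hd (X_nonneg hd hr.le i)
          have h7 := pow_pos hs (d - 2)
          have h8 : 0 ≤ (X d r i - sr d) ^ 2 * G d (X d r i) :=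
            mul_nonneg (sq_nonneg _) (by linarith)
          linarith) (by
          have h6 := hGle _ h4
          have h7 : (X d r i - sr d) ^ 2 * G d (X d r i) ≤ (X d r i - sr d) ^ 2 * A₂ := by gcongr
          linarith) h4 (by linarith)
      rw [← hB, ← hq] at h5
      have h6 : X d r (i + 1) - sr d = X d r i - sr d +
          ((X d r i - sr d) ^ 2 * G d (X d r i) + r) := by
        rw [X_step hd]
        ring
      rw [h6]
      push_cast
      linarith
  have h1 := htel m hm₁m le_rfl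
  have h2 : Real.pi / 2 - 1 / (B * e) ≤ Real.arctan (B * (X d r m - sr d)) := by
    refine (arctan_ge (by positivity)).trans ?_
    apply Real.arctan_mono
    gcongr
    linarith
  have h3 : Real.arctan (B * (X d r m₁ - sr d)) ≤ -(Real.pi / 2 - 1 / (B * (e / 2))) := by
    have h4 : Real.arctan (B * (X d r m₁ - sr d)) ≤ Real.arctan (-(B * (e / 2))) := by
      apply Real.arctan_mono
      nlinarith
    rw [Real.arctan_neg] at h4
    have h5 := arctan_ge (x := B * (e / 2)) (by positivity)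
    linarith
  have h4 : ((m : ℝ) - m₁) * q ≤ n * q := by
    apply mul_le_mul_of_nonneg_right _ hq0
    have h5 : (m : ℝ) ≤ n := by exact_mod_cast hmn
    have h6 : (0 : ℝ) ≤ m₁ := Nat.cast_nonneg _
    linarith
  have h5 : n * q * (1 - 2 * A₂ * e) ≤ Real.pi - δ / 2 := by
    have h6 : n * q * (1 - 2 * A₂ * e) = n * √(A₂ * r) := by
      rw [hq, mul_assoc, div_mul_cancel₀ _ (by linarith)]
    have h7 : √(A₂ * r) = (1 + τ) * √(AA d * r) := by
      rw [hA₂, show AA d * (1 + τ) ^ 2 * r = (1 + τ) ^ 2 * (AA d * r) by ring,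
        Real.sqrt_mul (by positivity), Real.sqrt_sq (by positivity)]
    rw [h6, h7]
    have h8 : τ * Real.pi = δ / 2 := by
      rw [hτ]
      field_simp
    calc (n : ℝ) * ((1 + τ) * √(AA d * r)) = (1 + τ) * (n * √(AA d * r)) := by ring
      _ ≤ (1 + τ) * (Real.pi - δ) := by gcongr
      _ ≤ Real.pi - δ / 2 := by nlinarith
  have h6 : Real.pi - 3 / (B * e) ≤ n * q := by
    have e1 : 1 / (B * (e / 2)) = 2 * (1 / (B * e)) := by
      field_simp
    have e2 : 3 / (B * e) = 3 * (1 / (B * e)) := by ring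
    rw [e1] at h3
    rw [e2]
    linarith
  have h7 : 3 / (B * e) ≤ δ / 8 := by
    have h8 : 24 / (δ * e) ≤ B := by
      rw [hB]
      apply Real.le_sqrt_of_sq_le
      rw [le_div_iff₀ hr]
      calc (24 / (δ * e)) ^ 2 * r ≤ (24 / (δ * e)) ^ 2 * (A₂ * (δ * e / 24) ^ 2) := by gcongr
        _ = A₂ := by
          field_simp
    rw [div_le_div_iff₀ (by positivity) (by norm_num)]
    rw [div_le_iff₀ (by positivity)] at h8
    linarith
  have h8 : (Real.pi - δ / 8) * (1 - 2 * A₂ * e) ≤ Real.pi - δ / 2 := by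
    refine le_trans ?_ h5
    apply mul_le_mul_of_nonneg_right _ (by linarith)
    linarith
  have h9 : 0 ≤ δ / 8 * (2 * A₂ * e) := by positivity
  have h10 : Real.pi * (2 * A₂ * e) ≤ δ / 8 := by linarith
  have h11 : (Real.pi - δ / 8) * (1 - 2 * A₂ * e) = Real.pi - δ / 8 - Real.pi * (2 * A₂ * e) +
    δ / 8 * (2 * A₂ * e) := by ring
  rw [h11] at h8
  linarith

set_option maxHeartbeats 4000000 in
/-- **The orbit has escaped at the time `π / √(A r)`.** -/
theorem escape {d : ℕ} (hd : 2 ≤ d) {δ : ℝ} (hδ : 0 < δ) (K : ℝ) :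
    ∃ r₀ : ℝ, 0 < r₀ ∧ ∀ r : ℝ, 0 < r → r ≤ r₀ → ∀ n : ℕ,
      Real.pi + δ ≤ (n : ℝ) * √(AA d * r) → K ≤ X d r n := by
  have hpi := Real.pi_pos
  have hs := sr_pos d
  have hA := AA_pos hd
  obtain ⟨τ, hτ⟩ : ∃ τ, τ = min (1 / 4) (δ / (32 * Real.pi)) := ⟨_, rfl⟩
  have hτ0 : 0 < τ := by rw [hτ]; exact lt_min (by norm_num) (by positivity)
  have hτ1 : τ ≤ 1 / 4 := by rw [hτ]; exact min_le_left _ _
  have hτ2 : τ ≤ δ / (32 * Real.pi) := by rw [hτ]; exact min_le_right _ _
  rw [le_div_iff₀ (by positivity)] at hτ2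
  obtain ⟨A₁, hA₁⟩ : ∃ A₁, A₁ = AA d * (1 - τ) ^ 2 := ⟨_, rfl⟩
  have hτ3 : 0 < 1 - τ := by linarith
  have hA₁0 : 0 < A₁ := by rw [hA₁]; positivity
  have hAA₁ : A₁ < AA d := by
    rw [hA₁]
    have : (1 - τ) ^ 2 < 1 := by nlinarith
    nlinarith
  have hev : ∀ᶠ x in 𝓝 (sr d), A₁ < G d x :=
    (continuous_G d).continuousAt.eventually (lt_mem_nhds hAA₁)
  obtain ⟨η₁, hη₁, hG⟩ := Metric.eventually_nhds_iff.1 hev
  obtain ⟨e, he⟩ : ∃ e, e = min (η₁ / 2) (min 1 (τ / (8 * A₁ + 4 * A₁ ^ 2))) := ⟨_, rfl⟩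
  have he0 : 0 < e := by
    rw [he]
    exact lt_min (by linarith) (lt_min one_pos (by positivity))
  have he1 : e ≤ η₁ / 2 := by rw [he]; exact min_le_left _ _
  have he2 : e ≤ 1 := by rw [he]; exact (min_le_right _ _).trans (min_le_left _ _)
  have he3 : e ≤ τ / (8 * A₁ + 4 * A₁ ^ 2) := by
    rw [he]; exact (min_le_right _ _).trans (min_le_right _ _)
  rw [le_div_iff₀ (by positivity)] at he3
  obtain ⟨N₁, hN₁⟩ := exists_N1 hd he0
  obtain ⟨N₂, hN₂⟩ := exists_N2 hd he0 K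
  refine ⟨min (τ / (2 * A₁)) ((δ / (4 * (N₁ + N₂ + 1))) ^ 2 / AA d), lt_min (by positivity)
    (by positivity), ?_⟩
  intro r hr hrr n hn
  have hr1 : r ≤ τ / (2 * A₁) := hrr.trans (min_le_left _ _)
  have hr2 : r ≤ (δ / (4 * (N₁ + N₂ + 1))) ^ 2 / AA d := hrr.trans (min_le_right _ _)
  rw [le_div_iff₀ (by positivity)] at hr1 hr2
  have hsq : √(AA d * r) ≤ δ / (4 * (N₁ + N₂ + 1)) := by
    apply Real.sqrt_le_iff.2
    refine ⟨by positivity, ?_⟩
    linarith
  rw [le_div_iff₀ (by positivity)] at hsq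
  have hsr : 0 < √(AA d * r) := by positivity
  have hNN : ((N₁ : ℝ) + N₂) * √(AA d * r) ≤ δ / 4 := by nlinarith
  have hnN : N₁ + N₂ < n := by
    have h1 : ((N₁ : ℝ) + N₂) * √(AA d * r) < n * √(AA d * r) := by linarith
    have h2 := lt_of_mul_lt_mul_right h1 hsr.le
    exact_mod_cast h2
  obtain ⟨M, hM⟩ := Nat.exists_eq_add_of_lt hnN
  by_cases hall : ∀ i ≤ N₁ + (M + 1), X d r i ≤ sr d + e
  · exfalso
    obtain ⟨B, hB⟩ : ∃ B, B = √(A₁ / r) := ⟨_, rfl⟩
    obtain ⟨q, hq⟩ : ∃ q, q = √(A₁ * r) / (1 + 2 * A₁ * e + A₁ * (A₁ * e ^ 2 + r)) := ⟨_, rfl⟩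
    have htel : ∀ j ≤ M + 1, (j : ℝ) * q ≤ Real.arctan (B * (X d r (N₁ + j) - sr d)) -
        Real.arctan (B * (X d r N₁ - sr d)) := by
      intro j
      induction j with
      | zero => intro _; simp
      | succ j ih =>
        intro hj
        have h1 := ih (by omega)
        have h2 := hall (N₁ + j) (by omega)
        have h3 := hN₁ r hr.le (N₁ + j) (by omega)
        have h4 : |X d r (N₁ + j) - sr d| ≤ e := by
          rw [abs_le]
          constructor <;> linarith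
        have h5 := le_incr (A := A₁) (r := r) (y := X d r (N₁ + j) - sr d)
          (k := (X d r (N₁ + j) - sr d) ^ 2 * G d (X d r (N₁ + j)) + r) (η := e) hA₁0 hr (by
            have h6 : A₁ ≤ G d (X d r (N₁ + j)) := by
              apply le_of_lt
              apply hG
              rw [Real.dist_eq]
              linarith
            have h7 : (X d r (N₁ + j) - sr d) ^ 2 * A₁ ≤
              (X d r (N₁ + j) - sr d) ^ 2 * G d (X d r (N₁ + j)) := by gcongr
            linarith) h4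
        rw [← hB, ← hq] at h5
        have h6 : X d r (N₁ + (j + 1)) - sr d = X d r (N₁ + j) - sr d +
            ((X d r (N₁ + j) - sr d) ^ 2 * G d (X d r (N₁ + j)) + r) := by
          rw [← add_assoc, X_step hd]
          ring
        rw [h6]
        push_cast
        linarith
    have h1 := htel (M + 1) le_rfl
    have h2 := Real.arctan_lt_pi_div_two (B * (X d r (N₁ + (M + 1)) - sr d))
    have h3 := Real.neg_pi_div_two_lt_arctan (B * (X d r N₁ - sr d))
    have h4 : ((M : ℝ) + 1) * q < Real.pi := by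
      push_cast at h1
      linarith
    have hden : 1 + 2 * A₁ * e + A₁ * (A₁ * e ^ 2 + r) ≤ 1 + τ := by
      have h5 : e ^ 2 ≤ e := by nlinarith
      have h6 : A₁ ^ 2 * e ^ 2 ≤ A₁ ^ 2 * e := by gcongr
      nlinarith
    have h7 : √(A₁ * r) = (1 - τ) * √(AA d * r) := by
      rw [hA₁, show AA d * (1 - τ) ^ 2 * r = (1 - τ) ^ 2 * (AA d * r) by ring,
        Real.sqrt_mul (by positivity), Real.sqrt_sq hτ3.le]
    have h8 : (1 - τ) * √(AA d * r) / (1 + τ) ≤ q := by
      rw [hq, h7]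
      gcongr
    have h9 : ((M : ℝ) + 1) * ((1 - τ) * √(AA d * r)) < Real.pi * (1 + τ) := by
      have h10 : ((M : ℝ) + 1) * ((1 - τ) * √(AA d * r) / (1 + τ)) < Real.pi := by
        refine lt_of_le_of_lt ?_ h4
        gcongr
      rw [← mul_div_assoc, div_lt_iff₀ (by positivity)] at h10
      exact h10
    have h10 : (n : ℝ) = N₁ + N₂ + (M + 1) := by
      rw [hM]
      push_cast
      ring
    rw [h10] at hn
    -- `(M + 1) √(A r) ≥ π + 3 δ / 4`
    have h11 : Real.pi + 3 * δ / 4 ≤ ((M : ℝ) + 1) * √(AA d * r) := by linarith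
    have h12 : (1 - τ) * (Real.pi + 3 * δ / 4) < Real.pi * (1 + τ) := by
      refine lt_of_le_of_lt ?_ h9
      calc (1 - τ) * (Real.pi + 3 * δ / 4) ≤ (1 - τ) * (((M : ℝ) + 1) * √(AA d * r)) := by gcongr
        _ = _ := by ring
    have h13 : (1 - τ) * (Real.pi + 3 * δ / 4) = Real.pi - τ * Real.pi + 3 * δ / 4 -
      τ * (3 * δ / 4) := by ring
    have h14 : τ * (3 * δ / 4) ≤ 1 / 4 * (3 * δ / 4) := by gcongr
    rw [h13] at h12
    linarith
  · push Not at hall
    obtain ⟨i, hi1, hi2⟩ := hall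
    exact hN₂ r hr.le i hi2.le n (by omega)

end Pool.Agent.Q186.Cusp
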