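import Pool.Agent.Q186.Cusp.Ray

/-!
# The exterior map near a point: Harnack's inequality and the typical rays
-/

set_option autoImplicit false

open Complex Metric Set Filter Topology MeasureTheory N62a1eb23

namespace Pool.Agent.Q186.Cusp.Typ

open Pool.Agent.H713R2
open Real (posLog circleAverage)
open Pool.Agent.Y736.HD (cm cm_apply cm_eq Ang Ang_sub vol_Ang_ne sn sn_pos sn_lt sn_lim sn_inv_lim
  norm_pt isOpen_ext integrable_cont avg_mem avg_ext lower_II upper_I avg_eq integrable_of UU)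
open Pool.Agent.Y736.HG (cont_pt psi_ne cont_U mean_le avg_psi ae_land)
open InnerProductSpace (HarmonicOnNhd)

variable {d : ℕ} {β ψ : ℂ → ℂ}

/-- The harmonic function. -/
noncomputable def HH (β : ℂ → ℂ) (c₀ : ℂ) (z : ℂ) : ℝ := Real.log ‖β z - c₀ * z‖

theorem ne_zero (hβ : IsBeta d β) {c₀ : ℂ} (hc₀ : c₀ ∈ multibrotSet d) {z : ℂ} (hz : ‖z‖ < 1) :
    β z - c₀ * z ≠ 0 := by
  intro h
  by_cases h0 : z = 0
  · rw [h0, mul_zero, sub_zero, hβ.zero] at h
    exact one_ne_zero h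
  · apply hβ.notMem z (by rwa [mem_ball_zero_iff]) h0
    have : z⁻¹ * β z = c₀ := by
      rw [sub_eq_zero.1 h]
      field_simp
    rwa [this]

theorem HH_harm (hβ : IsBeta d β) {c₀ : ℂ} (hc₀ : c₀ ∈ multibrotSet d) {s : ℝ} (hs1 : s < 1) :
    HarmonicOnNhd (HH β c₀) (closedBall 0 s) := by
  intro z hz
  rw [mem_closedBall_zero_iff] at hz
  have hz1 : ‖z‖ < 1 := by linarith
  have hβa : AnalyticAt ℂ β z :=
    hβ.diff.analyticAt (isOpen_ball.mem_nhds (by rwa [mem_ball_zero_iff]))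
  have h1 : AnalyticAt ℂ (fun z => β z - c₀ * z) z :=
    hβa.sub (analyticAt_const.mul analyticAt_id)
  exact h1.harmonicAt_log_norm (ne_zero hβ hc₀ hz1)

theorem HH_cont (hβ : IsBeta d β) {c₀ : ℂ} (hc₀ : c₀ ∈ multibrotSet d) {s : ℝ} (hs0 : 0 ≤ s)
    (hs1 : s < 1) : Continuous fun θ : ℝ => HH β c₀ (circleMap 0 s θ) := by
  have h1 : Continuous fun θ : ℝ => β (circleMap 0 s θ) := by
    apply hβ.diff.continuousOn.comp_continuous (continuous_circleMap 0 s)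
    intro θ
    rw [mem_ball_zero_iff, norm_circleMap_zero, abs_of_nonneg hs0]
    exact hs1
  unfold HH
  apply Continuous.log
  · exact (h1.sub (continuous_const.mul (continuous_circleMap 0 s))).norm
  · intro θ
    apply norm_ne_zero_iff.2
    apply ne_zero hβ hc₀
    rw [norm_circleMap_zero, abs_of_nonneg hs0]
    exact hs1

/-- The Poisson kernel on the circle of radius `s`. -/
noncomputable def PK (s : ℝ) (x : ℂ) (θ : ℝ) : ℝ := (s ^ 2 - ‖x‖ ^ 2) / ‖circleMap 0 s θ - x‖ ^ 2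

theorem PK_eq {s : ℝ} (hs0 : 0 ≤ s) (x : ℂ) (θ : ℝ) :
    PK s x θ = poissonKernel 0 x (circleMap 0 s θ) := by
  unfold PK
  rw [poissonKernel_def, sub_zero, sub_zero, norm_circleMap_zero, abs_of_nonneg hs0]

theorem sub_ne {s : ℝ} {x : ℂ} (hx : ‖x‖ < s) (θ : ℝ) : 0 < ‖circleMap 0 s θ - x‖ := by
  have h0 : 0 < s := (norm_nonneg x).trans_lt hx
  have h1 := norm_sub_norm_le (circleMap 0 s θ) x
  rw [norm_circleMap_zero, abs_of_pos h0] at h1
  linarith

theorem PK_cont {s : ℝ} {x : ℂ} (hx : ‖x‖ < s) : Continuous (PK s x) := by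
  unfold PK
  apply Continuous.div continuous_const
  · exact (((continuous_circleMap 0 s).sub continuous_const).norm).pow 2
  · intro θ
    exact pow_ne_zero 2 (sub_ne hx θ).ne'

theorem PK_pos {s : ℝ} {x : ℂ} (hx : ‖x‖ < s) (θ : ℝ) : 0 < PK s x θ := by
  unfold PK
  have := sub_ne hx θ
  have h0 := norm_nonneg x
  apply div_pos
  · nlinarith
  · positivity

theorem PK_le {s : ℝ} {x : ℂ} (hx : ‖x‖ < s) (θ : ℝ) : PK s x θ ≤ (s + ‖x‖) / (s - ‖x‖) := by
  unfold PK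
  have h0 := norm_nonneg x
  have hs : 0 < s := h0.trans_lt hx
  have h1 := norm_sub_norm_le (circleMap 0 s θ) x
  rw [norm_circleMap_zero, abs_of_pos hs] at h1
  have h2 : 0 < s - ‖x‖ := by linarith
  have h4 := sub_ne hx θ
  rw [div_le_div_iff₀ (by positivity) h2]
  have h3 : (s - ‖x‖) ^ 2 ≤ ‖circleMap 0 s θ - x‖ ^ 2 := by gcongr
  calc (s ^ 2 - ‖x‖ ^ 2) * (s - ‖x‖) = (s + ‖x‖) * (s - ‖x‖) ^ 2 := by ring
    _ ≤ _ := by gcongr

/-- **The Poisson formula.** -/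
theorem poisson (hβ : IsBeta d β) {c₀ : ℂ} (hc₀ : c₀ ∈ multibrotSet d) {s : ℝ} (hs1 : s < 1)
    {x : ℂ} (hx : ‖x‖ < s) (B : ℝ) :
    ∫ θ, PK s x θ * (HH β c₀ (circleMap 0 s θ) - B) ∂cm = HH β c₀ x - B := by
  have hs0 : 0 < s := (norm_nonneg x).trans_lt hx
  have h1 : HarmonicOnNhd (fun z => HH β c₀ z - B) (closedBall 0 s) :=
    (HH_harm hβ hc₀ hs1).sub (fun z _ => InnerProductSpace.harmonicAt_const B)
  have h2 := h1.circleAverage_poissonKernel_smul (w := x) (by rwa [mem_ball_zero_iff])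
  rw [avg_eq] at h2
  rw [← h2]
  apply integral_congr_ae
  refine Eventually.of_forall fun θ => ?_
  show PK s x θ * (HH β c₀ (circleMap 0 s θ) - B) =
    poissonKernel 0 x (circleMap 0 s θ) * (HH β c₀ (circleMap 0 s θ) - B)
  rw [PK_eq hs0.le]

/-- **Harnack's inequality** for the logarithm of the distance. -/
theorem harnack (hβ : IsBeta d β) {c₀ : ℂ} (hc₀ : c₀ ∈ multibrotSet d) {s B K : ℝ} (hs1 : s < 1)
    (hB : ∀ θ : ℝ, B ≤ HH β c₀ (circleMap 0 s θ)) {z : ℂ} (hz : ‖z‖ < s) (hK : 0 ≤ K)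
    (hzK : ‖z - (‖z‖ : ℝ)‖ ≤ K * (s - ‖z‖)) :
    B ≤ HH β c₀ z ∧ HH β c₀ z - B ≤ (1 + K) ^ 2 * (HH β c₀ (‖z‖ : ℝ) - B) := by
  have hs0 : 0 < s := (norm_nonneg z).trans_lt hz
  have hx : ‖((‖z‖ : ℝ) : ℂ)‖ < s := by
    rw [Complex.norm_real, norm_norm]
    exact hz
  have hcH := HH_cont hβ hc₀ hs0.le hs1
  have h1 := poisson hβ hc₀ hs1 hz B
  have h2 := poisson hβ hc₀ hs1 hx B
  have hi1 : Integrable (fun θ => PK s z θ * (HH β c₀ (circleMap 0 s θ) - B)) cm :=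
    integrable_cont ((PK_cont hz).mul (hcH.sub continuous_const))
  have hi2 : Integrable (fun θ => PK s ((‖z‖ : ℝ) : ℂ) θ * (HH β c₀ (circleMap 0 s θ) - B)) cm :=
    integrable_cont ((PK_cont hx).mul (hcH.sub continuous_const))
  constructor
  · have h3 : 0 ≤ ∫ θ, PK s z θ * (HH β c₀ (circleMap 0 s θ) - B) ∂cm := by
      apply integral_nonneg
      intro θ
      exact mul_nonneg (PK_pos hz θ).le (sub_nonneg.2 (hB θ))
    linarith
  · rw [← h1, ← h2, ← integral_const_mul]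
    apply integral_mono hi1 (hi2.const_mul _)
    intro θ
    show PK s z θ * (HH β c₀ (circleMap 0 s θ) - B) ≤
      (1 + K) ^ 2 * (PK s ((‖z‖ : ℝ) : ℂ) θ * (HH β c₀ (circleMap 0 s θ) - B))
    rw [← mul_assoc]
    apply mul_le_mul_of_nonneg_right _ (sub_nonneg.2 (hB θ))
    have h4 := sub_ne hz θ
    have h5 := sub_ne hx θ
    have h6 : s - ‖z‖ ≤ ‖circleMap 0 s θ - z‖ := by
      have := norm_sub_norm_le (circleMap 0 s θ) z
      rwa [norm_circleMap_zero, abs_of_pos hs0] at this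
    have h7 : ‖circleMap 0 s θ - ((‖z‖ : ℝ) : ℂ)‖ ≤ (1 + K) * ‖circleMap 0 s θ - z‖ := by
      have e : circleMap 0 s θ - ((‖z‖ : ℝ) : ℂ) =
          (circleMap 0 s θ - z) + (z - ((‖z‖ : ℝ) : ℂ)) := by ring
      rw [e]
      refine (norm_add_le _ _).trans ?_
      have h8 : K * (s - ‖z‖) ≤ K * ‖circleMap 0 s θ - z‖ := by gcongr
      linarith
    unfold PK
    rw [Complex.norm_real, norm_norm]
    have h9 : 0 ≤ s ^ 2 - ‖z‖ ^ 2 := by
      have := norm_nonneg z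
      nlinarith
    rw [← mul_div_assoc, div_le_div_iff₀ (by positivity) (by positivity)]
    calc (s ^ 2 - ‖z‖ ^ 2) * ‖circleMap 0 s θ - ((‖z‖ : ℝ) : ℂ)‖ ^ 2
        ≤ (s ^ 2 - ‖z‖ ^ 2) * ((1 + K) * ‖circleMap 0 s θ - z‖) ^ 2 := by gcongr
      _ = _ := by ring

/-- On the circle. -/
theorem HH_circle (hβ : IsBeta d β) {c₀ : ℂ} (hc₀ : c₀ ∈ multibrotSet d) {s a : ℝ} (hs0 : 0 < s)
    (hs1 : s < 1) (ha : 0 < a) (θ : ℝ) :
    HH β c₀ (circleMap 0 s θ) = Real.log s + Real.log a +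
      posLog (‖(circleMap 0 s θ)⁻¹ * β (circleMap 0 s θ) - c₀‖ / a) -
      UU β c₀ a (circleMap 0 s θ) := by
  obtain ⟨z, hz⟩ : ∃ z, z = circleMap 0 s θ := ⟨_, rfl⟩
  have hzn : ‖z‖ = s := by rw [hz, norm_circleMap_zero, abs_of_pos hs0]
  have hz0 : z ≠ 0 := by
    rw [← norm_pos_iff, hzn]
    exact hs0
  rw [← hz]
  have h1 := ne_zero hβ hc₀ (z := z) (by rw [hzn]; exact hs1)
  have e : z⁻¹ * β z - c₀ = z⁻¹ * (β z - c₀ * z) := by field_simp
  have h2 : 0 < ‖z⁻¹ * β z - c₀‖ := by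
    rw [e, norm_pos_iff]
    exact mul_ne_zero (inv_ne_zero hz0) h1
  have h3 : HH β c₀ z = Real.log s + Real.log ‖z⁻¹ * β z - c₀‖ := by
    unfold HH
    rw [e, norm_mul, norm_inv, hzn, Real.log_mul (inv_ne_zero hs0.ne') (norm_ne_zero_iff.2 h1),
      Real.log_inv]
    ring
  have h4 : posLog (‖z⁻¹ * β z - c₀‖ / a) - posLog (a / ‖z⁻¹ * β z - c₀‖) =
      Real.log (‖z⁻¹ * β z - c₀‖ / a) := by
    have h5 : a / ‖z⁻¹ * β z - c₀‖ = (‖z⁻¹ * β z - c₀‖ / a)⁻¹ := by rw [inv_div]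
    rw [h5]
    exact Real.posLog_sub_posLog_inv
  have h6 : UU β c₀ a z = posLog (a / ‖z⁻¹ * β z - c₀‖) := rfl
  rw [Real.log_div h2.ne' ha.ne'] at h4
  rw [h6, h3]
  linarith

theorem psi_inv (hβ : IsBeta d β) (hψ : IsExteriorMap (multibrotSet d) ψ) {z : ℂ} (h0 : z ≠ 0)
    (hz : ‖z‖ < 1) : ψ z⁻¹ = z⁻¹ * β z := by
  rw [exteriorMap_unique hβ hψ (z := z⁻¹), inv_inv]
  rw [norm_inv]
  exact (one_lt_inv₀ (norm_pos_iff.2 h0)).2 hz

/-- The mean, with the Poisson kernel, of the positive part. -/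
theorem mean_pos (hβ : IsBeta d β) (hψ : IsExteriorMap (multibrotSet d) ψ) {c₀ : ℂ}
    (hc₀ : c₀ ∈ multibrotSet d) {s a x S : ℝ} (hs1 : s < 1) (hx0 : 0 < x) (hxs : x < s)
    (ha : 0 < a) (hS0 : 0 ≤ S)
    (hS : ∀ w : ℂ, 1 < ‖w‖ → ‖ψ w - c₀‖ ≤ a → Real.log ‖w‖ ≤ S) :
    ∫ θ, PK s x θ * posLog (‖(circleMap 0 s θ)⁻¹ * β (circleMap 0 s θ) - c₀‖ / a) ∂cm ≤
      Real.log (‖ψ ((x⁻¹ : ℝ) : ℂ) - c₀‖ / a) + 2 / (s - x) * S := by
  have hs0 : 0 < s := hx0.trans hxs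
  have hxn : ‖(x : ℂ)‖ = x := by rw [Complex.norm_real, Real.norm_of_nonneg hx0.le]
  have hx : ‖(x : ℂ)‖ < s := by rw [hxn]; exact hxs
  have hcβ : Continuous fun θ : ℝ => β (circleMap 0 s θ) := by
    apply hβ.diff.continuousOn.comp_continuous (continuous_circleMap 0 s)
    intro θ
    rw [mem_ball_zero_iff, norm_circleMap_zero, abs_of_pos hs0]
    exact hs1
  have hci : Continuous fun θ : ℝ => (circleMap 0 s θ)⁻¹ * β (circleMap 0 s θ) - c₀ := by
    apply Continuous.sub _ continuous_const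
    apply Continuous.mul _ hcβ
    apply Continuous.inv₀ (continuous_circleMap 0 s)
    intro θ
    rw [← norm_ne_zero_iff, norm_circleMap_zero, abs_of_pos hs0]
    exact hs0.ne'
  have hne : ∀ θ : ℝ, ‖(circleMap 0 s θ)⁻¹ * β (circleMap 0 s θ) - c₀‖ ≠ 0 := by
    intro θ
    rw [norm_ne_zero_iff, sub_ne_zero]
    intro h
    have hzn : ‖circleMap 0 s θ‖ = s := by rw [norm_circleMap_zero, abs_of_pos hs0]
    apply hβ.notMem (circleMap 0 s θ) (by rw [mem_ball_zero_iff, hzn]; exact hs1)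
      (by rw [← norm_pos_iff, hzn]; exact hs0)
    rw [h]
    exact hc₀
  have hcV : Continuous fun θ : ℝ =>
      posLog (‖(circleMap 0 s θ)⁻¹ * β (circleMap 0 s θ) - c₀‖ / a) :=
    Real.continuous_posLog.comp (hci.norm.div_const a)
  have hcU : Continuous fun θ : ℝ => UU β c₀ a (circleMap 0 s θ) := by
    apply Real.continuous_posLog.comp
    exact continuous_const.div hci.norm hne
  have hcP := PK_cont hx
  have h1 := poisson hβ hc₀ hs1 hx (Real.log s + Real.log a)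
  have h2 : ∫ θ, PK s x θ * (HH β c₀ (circleMap 0 s θ) - (Real.log s + Real.log a)) ∂cm =
      (∫ θ, PK s x θ * posLog (‖(circleMap 0 s θ)⁻¹ * β (circleMap 0 s θ) - c₀‖ / a) ∂cm) -
      ∫ θ, PK s x θ * UU β c₀ a (circleMap 0 s θ) ∂cm := by
    have i1 : Integrable (fun θ => PK s x θ *
        posLog (‖(circleMap 0 s θ)⁻¹ * β (circleMap 0 s θ) - c₀‖ / a)) cm :=
      integrable_cont (hcP.mul hcV)
    have i2 : Integrable (fun θ => PK s x θ * UU β c₀ a (circleMap 0 s θ)) cm :=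
      integrable_cont (hcP.mul hcU)
    rw [← integral_sub i1 i2]
    apply integral_congr_ae
    refine Eventually.of_forall fun θ => ?_
    show PK s x θ * (HH β c₀ (circleMap 0 s θ) - (Real.log s + Real.log a)) =
      PK s x θ * posLog (‖(circleMap 0 s θ)⁻¹ * β (circleMap 0 s θ) - c₀‖ / a) -
        PK s x θ * UU β c₀ a (circleMap 0 s θ)
    rw [HH_circle hβ hc₀ hs0 hs1 ha θ]
    ring
  have h3 : ∫ θ, PK s x θ * UU β c₀ a (circleMap 0 s θ) ∂cm ≤ 2 / (s - x) * S := by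
    have h4 : ∫ θ, PK s x θ * UU β c₀ a (circleMap 0 s θ) ∂cm ≤
        ∫ θ, 2 / (s - x) * UU β c₀ a (circleMap 0 s θ) ∂cm := by
      apply integral_mono (integrable_cont (hcP.mul hcU)) (integrable_cont (continuous_const.mul hcU))
      intro θ
      apply mul_le_mul_of_nonneg_right _ Real.posLog_nonneg
      refine (PK_le hx θ).trans ?_
      rw [hxn]
      have : 0 < s - x := by linarith
      show (s + x) / (s - x) ≤ 2 / (s - x)
      apply div_le_div_of_nonneg_right _ this.le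
      linarith
    refine h4.trans ?_
    rw [integral_const_mul]
    have h5 := mean_le hβ hψ hc₀ ha hs0 hs1 hS0 hS
    rw [avg_eq] at h5
    have : 0 < s - x := by linarith
    gcongr
  have h6 : HH β c₀ x - (Real.log s + Real.log a) ≤ Real.log (‖ψ ((x⁻¹ : ℝ) : ℂ) - c₀‖ / a) := by
    have hx1 : x < 1 := by linarith
    have hxc : (x : ℂ) ≠ 0 := by exact_mod_cast hx0.ne'
    have h7 : ψ ((x⁻¹ : ℝ) : ℂ) = (x : ℂ)⁻¹ * β x := by
      rw [Complex.ofReal_inv]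
      exact psi_inv hβ hψ hxc (by rw [hxn]; exact hx1)
    have h8 := ne_zero hβ hc₀ (z := (x : ℂ)) (by rw [hxn]; exact hx1)
    have e : (x : ℂ)⁻¹ * β x - c₀ = (x : ℂ)⁻¹ * (β x - c₀ * x) := by field_simp
    have h9 : 0 < ‖β x - c₀ * x‖ := norm_pos_iff.2 h8
    rw [h7, e, norm_mul, norm_inv, hxn, Real.log_div (by positivity) ha.ne',
      Real.log_mul (by positivity) h9.ne', Real.log_inv]
    unfold HH
    have h10 : Real.log x ≤ Real.log s := Real.log_le_log hx0 hxs.le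
    linarith
  linarith

end Pool.Agent.Q186.Cusp.Typ
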