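import Pool.Agent.Q186.Cusp.Typ1

/-!
# The typical rays near a real point
-/

set_option autoImplicit false

open Complex Metric Set Filter Topology MeasureTheory N62a1eb23

namespace Pool.Agent.Q186.Cusp.Typ

open Pool.Agent.H713R2
open Real (posLog circleAverage)
open Pool.Agent.Y736.HD (cm cm_apply cm_eq Ang Ang_sub vol_Ang_ne sn sn_pos sn_lt sn_lim sn_inv_lim
  norm_pt isOpen_ext integrable_cont avg_mem avg_ext lower_II upper_I avg_eq integrable_of UU)
open Pool.Agent.Y736.HG (cont_pt psi_ne cont_U mean_le avg_psi ae_land)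

variable {d : ℕ} {β ψ : ℂ → ℂ}

theorem PK_low {τ s θ : ℝ} (hτ : 0 < τ) (hτ1 : τ ≤ 1 / 2) (hs : (1 + Real.exp (-τ)) / 2 ≤ s)
    (hs1 : s < 1) (hθ0 : 0 ≤ θ) (hθ : θ ≤ τ) : 1 / (8 * τ) ≤ PK s (Real.exp (-τ) : ℝ) θ := by
  obtain ⟨x, hx⟩ : ∃ x, x = Real.exp (-τ) := ⟨_, rfl⟩
  rw [← hx] at hs ⊢
  have hx1 : 1 - τ ≤ x := by
    rw [hx]
    have := Real.add_one_le_exp (-τ)
    linarith
  have hx2 : x ≤ 1 - τ / 2 := by
    rw [hx, Real.exp_neg, inv_le_comm₀ (Real.exp_pos _) (by linarith)]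
    have h1 := Real.quadratic_le_exp_of_nonneg hτ.le
    have h2 : (1 - τ / 2)⁻¹ ≤ 1 + τ := by
      rw [inv_le_comm₀ (by linarith) (by linarith), inv_le_comm₀ (by linarith) (by linarith)]
      rw [inv_le_iff_one_le_mul₀ (by linarith)]
      nlinarith
    nlinarith [sq_nonneg τ]
  have hx0 : 1 / 2 ≤ x := by linarith
  have hxs : x < s := by linarith
  have hs0 : 0 < s := by linarith
  have hxn : ‖(x : ℂ)‖ = x := by rw [Complex.norm_real, Real.norm_of_nonneg (by linarith)]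
  have h1 : ‖circleMap 0 s θ - x‖ ^ 2 ≤ 2 * τ ^ 2 := by
    have e : circleMap 0 s θ - x = ((s * Real.cos θ - x : ℝ) : ℂ) + ((s * Real.sin θ : ℝ) : ℂ) * I := by
      rw [circleMap_zero, Complex.exp_mul_I]
      push_cast
      ring
    rw [e, ← Complex.normSq_eq_norm_sq, Complex.normSq_add_mul_I]
    have h2 := Real.one_sub_sq_div_two_le_cos (x := θ)
    have h3 := Real.sin_sq_add_cos_sq θ
    have h4 : (s * Real.cos θ - x) ^ 2 + (s * Real.sin θ) ^ 2 =
        (s - x) ^ 2 + 2 * (s * x) * (1 - Real.cos θ) := by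
      have : (s * Real.sin θ) ^ 2 = s ^ 2 * (1 - Real.cos θ ^ 2) := by
        rw [mul_pow]
        congr 1
        linarith
      rw [this]
      ring
    rw [h4]
    have h5 : (s - x) ^ 2 ≤ τ ^ 2 := by
      apply pow_le_pow_left₀ (by linarith)
      linarith
    have h6 : s * x ≤ 1 := by nlinarith
    have h7 : 1 - Real.cos θ ≤ θ ^ 2 / 2 := by linarith
    have h8 : θ ^ 2 ≤ τ ^ 2 := by gcongr
    have h9 : 0 ≤ 1 - Real.cos θ := by linarith [Real.cos_le_one θ]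
    have h10 : 2 * (s * x) * (1 - Real.cos θ) ≤ 2 * 1 * (τ ^ 2 / 2) := by
      have h11 : 1 - Real.cos θ ≤ τ ^ 2 / 2 := by linarith
      have h12 : 0 < s * x := by positivity
      nlinarith
    linarith
  have h2 : τ / 4 ≤ s ^ 2 - x ^ 2 := by
    have e : s ^ 2 - x ^ 2 = (s - x) * (s + x) := by ring
    rw [e]
    have h3 : τ / 4 ≤ s - x := by linarith
    have h4 : 1 ≤ s + x := by linarith
    nlinarith
  unfold PK
  rw [hxn]
  have h3 := sub_ne (s := s) (x := (x : ℂ)) (by rw [hxn]; exact hxs) θ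
  rw [div_le_div_iff₀ (by positivity) (by positivity)]
  nlinarith

/-- The angles in `(0, τ]` of the rays which land at a distance more than `b`. -/
def Far (ψ : ℂ → ℂ) (c₀ : ℝ) (τ b : ℝ) : Set ℝ :=
  {θ : ℝ | θ ∈ Ioc 0 τ ∧ ∃ ζ : ℂ, Tendsto (fun ρ : ℝ => ψ (ρ * exp (θ * I))) (𝓝[>] 1) (𝓝 ζ) ∧
    b < ‖ζ - c₀‖}

set_option maxHeartbeats 1000000 in
/-- **Most rays do not land far away.** -/
theorem far_le (hd : 2 ≤ d) (hψ : IsExteriorMap (multibrotSet d) ψ) {c₀ : ℝ}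
    (hc₀ : (c₀ : ℂ) ∈ multibrotSet d) {a b τ S B : ℝ} (ha : 0 < a) (hab : a < b) (hτ : 0 < τ)
    (hτ1 : τ ≤ 1 / 2) (hS0 : 0 ≤ S)
    (hS : ∀ w : ℂ, 1 < ‖w‖ → ‖ψ w - c₀‖ ≤ a → Real.log ‖w‖ ≤ S) (hB0 : 0 ≤ B)
    (hB : Real.log (‖ψ (Real.exp τ : ℝ) - c₀‖ / a) + 8 / τ * S ≤ B) :
    (volume (Far ψ c₀ τ b)).toReal ≤ 16 * Real.pi * τ * B / Real.log (b / a) := by
  obtain ⟨β, hβ⟩ := exists_beta (d := d) hd
  have hpi := Real.pi_pos
  have hpi3 := Real.pi_gt_three
  have hlogq : 0 < Real.log (b / a) := by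
    apply Real.log_pos
    rwa [one_lt_div ha]
  obtain ⟨x, hx⟩ : ∃ x, x = Real.exp (-τ) := ⟨_, rfl⟩
  have hx0 : 0 < x := by rw [hx]; exact Real.exp_pos _
  have hx1 : x < 1 := by
    rw [hx, Real.exp_lt_one_iff]
    linarith
  have hx2 : x ≤ 1 - τ / 2 := by
    rw [hx, Real.exp_neg, inv_le_comm₀ (Real.exp_pos _) (by linarith)]
    have h1 := Real.quadratic_le_exp_of_nonneg hτ.le
    have h2 : (1 - τ / 2)⁻¹ ≤ 1 + τ := by
      rw [inv_le_comm₀ (by linarith) (by linarith), inv_le_comm₀ (by linarith) (by linarith)]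
      rw [inv_le_iff_one_le_mul₀ (by linarith)]
      nlinarith
    nlinarith [sq_nonneg τ]
  have hxinv : x⁻¹ = Real.exp τ := by rw [hx, ← Real.exp_neg, neg_neg]
  -- the levels
  have hev : ∀ᶠ n in atTop, (1 + x) / 2 < sn n :=
    sn_lim.eventually (lt_mem_nhds (by linarith))
  obtain ⟨F, hF⟩ : ∃ F : ℕ → ℝ → ENNReal, F = fun (n : ℕ) (θ : ℝ) => ENNReal.ofReal
      (PK (sn n) x θ *
        posLog (‖(circleMap 0 (sn n) θ)⁻¹ * β (circleMap 0 (sn n) θ) - c₀‖ / a)) := ⟨_, rfl⟩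
  have hxn : ‖(x : ℂ)‖ = x := by rw [Complex.norm_real, Real.norm_of_nonneg hx0.le]
  have hcV : ∀ n, Continuous fun θ : ℝ =>
      posLog (‖(circleMap 0 (sn n) θ)⁻¹ * β (circleMap 0 (sn n) θ) - c₀‖ / a) := by
    intro n
    have hs0 := sn_pos n
    have hcβ : Continuous fun θ : ℝ => β (circleMap 0 (sn n) θ) := by
      apply hβ.diff.continuousOn.comp_continuous (continuous_circleMap 0 (sn n))
      intro θ
      rw [mem_ball_zero_iff, norm_circleMap_zero, abs_of_pos hs0]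
      exact sn_lt n
    apply Real.continuous_posLog.comp
    apply Continuous.div_const
    apply Continuous.norm
    apply Continuous.sub _ continuous_const
    apply Continuous.mul _ hcβ
    apply Continuous.inv₀ (continuous_circleMap 0 (sn n))
    intro θ
    rw [← norm_ne_zero_iff, norm_circleMap_zero, abs_of_pos hs0]
    exact hs0.ne'
  have hmeasK : ∀ n, Measurable (PK (sn n) x) := by
    intro n
    unfold PK
    apply Measurable.div measurable_const
    exact (((continuous_circleMap 0 (sn n)).sub continuous_const).norm.pow 2).measurable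
  have hmeas : ∀ n, Measurable (F n) := by
    intro n
    rw [hF]
    exact ENNReal.measurable_ofReal.comp ((hmeasK n).mul (hcV n).measurable)
  have hint : ∀ᶠ n in atTop, ∫⁻ θ, F n θ ∂cm ≤ ENNReal.ofReal B := by
    filter_upwards [hev] with n hn
    have hxs : x < sn n := by linarith
    have hxs' : ‖(x : ℂ)‖ < sn n := by rw [hxn]; exact hxs
    rw [hF]
    show ∫⁻ θ, ENNReal.ofReal (PK (sn n) x θ *
        posLog (‖(circleMap 0 (sn n) θ)⁻¹ * β (circleMap 0 (sn n) θ) - c₀‖ / a)) ∂cm ≤ _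
    have i1 : Integrable (fun θ => PK (sn n) x θ *
        posLog (‖(circleMap 0 (sn n) θ)⁻¹ * β (circleMap 0 (sn n) θ) - c₀‖ / a)) cm :=
      integrable_cont ((PK_cont hxs').mul (hcV n))
    rw [← ofReal_integral_eq_lintegral_ofReal i1
      (Eventually.of_forall fun θ => mul_nonneg (PK_pos hxs' θ).le Real.posLog_nonneg)]
    apply ENNReal.ofReal_le_ofReal
    refine (mean_pos hβ hψ hc₀ (sn_lt n) hx0 hxs ha hS0 hS).trans ?_
    rw [hxinv]
    refine le_trans ?_ hB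
    have h1 : 2 / (sn n - x) ≤ 8 / τ := by
      rw [div_le_div_iff₀ (by linarith) hτ]
      linarith
    have h2 : 2 / (sn n - x) * S ≤ 8 / τ * S := by gcongr
    linarith
  have h1 : ∫⁻ θ, liminf (fun n => F n θ) atTop ∂cm ≤ ENNReal.ofReal B := by
    refine (lintegral_liminf_le hmeas).trans ?_
    apply liminf_le_of_le (by isBoundedDefault)
    intro b' hb
    obtain ⟨n, hn1, hn2⟩ := (hb.and hint).exists
    exact hn1.trans hn2
  have hη : 0 < Real.log (b / a) / (8 * τ) := by positivity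
  have h2 := mul_meas_ge_le_lintegral₀ (μ := cm) (f := fun θ => liminf (fun n => F n θ) atTop)
    (Measurable.liminf hmeas).aemeasurable (ENNReal.ofReal (Real.log (b / a) / (8 * τ)))
  have h3 : Far ψ c₀ τ b ⊆
      {θ | ENNReal.ofReal (Real.log (b / a) / (8 * τ)) ≤ liminf (fun n => F n θ) atTop} := by
    rintro θ ⟨hθ, ζ, hlim, hζ⟩
    show ENNReal.ofReal (Real.log (b / a) / (8 * τ)) ≤ liminf (fun n => F n θ) atTop
    apply le_liminf_of_le (by isBoundedDefault)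
    have h4 : Tendsto (fun n => ‖ψ (((sn n)⁻¹ : ℝ) * exp (θ * I)) - c₀‖) atTop (𝓝 ‖ζ - c₀‖) :=
      ((hlim.comp sn_inv_lim).sub_const (c₀ : ℂ)).norm
    filter_upwards [h4.eventually (lt_mem_nhds hζ), hev] with n hn hn2
    rw [hF]
    apply ENNReal.ofReal_le_ofReal
    have hs0 := sn_pos n
    have hs1 := sn_lt n
    have hxs : x < sn n := by linarith
    have hk := PK_low (θ := θ) hτ hτ1 (s := sn n) (by rw [← hx]; exact hn2.le) hs1 hθ.1.le hθ.2
    rw [← hx] at hk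
    have hw : 1 < ‖(((sn n)⁻¹ : ℝ) : ℂ) * exp (θ * I)‖ := by
      rw [norm_mul, Complex.norm_exp_ofReal_mul_I, mul_one, Complex.norm_real,
        Real.norm_of_nonneg (by positivity)]
      exact (one_lt_inv₀ hs0).2 hs1
    have e1 : (starRingEnd ℂ) ((((sn n)⁻¹ : ℝ) : ℂ) * exp (θ * I)) = (circleMap 0 (sn n) θ)⁻¹ := by
      rw [circleMap_zero, mul_inv, ← Complex.exp_neg, map_mul, Complex.conj_ofReal,
        ← Complex.exp_conj, map_mul, Complex.conj_ofReal, Complex.conj_I]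
      push_cast
      congr 2
      ring
    have e2 : (circleMap 0 (sn n) θ)⁻¹ * β (circleMap 0 (sn n) θ) =
        (starRingEnd ℂ) (ψ ((((sn n)⁻¹ : ℝ) : ℂ) * exp (θ * I))) := by
      have hzn : ‖circleMap 0 (sn n) θ‖ = sn n := by rw [norm_circleMap_zero, abs_of_pos hs0]
      have h5 := psi_inv hβ hψ (z := circleMap 0 (sn n) θ) (by
        rw [← norm_pos_iff, hzn]
        exact hs0) (by rw [hzn]; exact hs1)
      rw [← h5, ← e1]
      have h6 := psi_conj hd hψ hw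
      rw [← h6, Complex.conj_conj]
    have e3 : ‖(circleMap 0 (sn n) θ)⁻¹ * β (circleMap 0 (sn n) θ) - c₀‖ =
        ‖ψ ((((sn n)⁻¹ : ℝ) : ℂ) * exp (θ * I)) - c₀‖ := by
      rw [e2]
      have : (starRingEnd ℂ) (ψ ((((sn n)⁻¹ : ℝ) : ℂ) * exp (θ * I))) - c₀ =
          (starRingEnd ℂ) (ψ ((((sn n)⁻¹ : ℝ) : ℂ) * exp (θ * I)) - c₀) := by
        rw [map_sub, Complex.conj_ofReal]
      rw [this, RCLike.norm_conj]
    show Real.log (b / a) / (8 * τ) ≤ PK (sn n) x θ *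
        posLog (‖(circleMap 0 (sn n) θ)⁻¹ * β (circleMap 0 (sn n) θ) - c₀‖ / a)
    rw [e3]
    have h8 : Real.log (b / a) ≤ posLog (‖ψ ((((sn n)⁻¹ : ℝ) : ℂ) * exp (θ * I)) - c₀‖ / a) := by
      refine le_trans ?_ (le_max_right _ _)
      apply Real.log_le_log (div_pos (ha.trans hab) ha)
      gcongr
    have h9 := (PK_pos (s := sn n) (x := (x : ℂ)) (by rw [hxn]; exact hxs) θ).le
    calc Real.log (b / a) / (8 * τ) = 1 / (8 * τ) * Real.log (b / a) := by ring
      _ ≤ _ := by gcongr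
  have h4 : ENNReal.ofReal (Real.log (b / a) / (8 * τ)) * cm (Far ψ c₀ τ b) ≤ ENNReal.ofReal B :=
    (mul_le_mul_right (measure_mono h3) _).trans (h2.trans h1)
  have hsub : Far ψ c₀ τ b ⊆ Ioc 0 (2 * Real.pi) := by
    rintro θ ⟨hθ, -⟩
    exact ⟨hθ.1, hθ.2.trans (by linarith)⟩
  have hne : volume (Far ψ c₀ τ b) ≠ ⊤ := by
    refine ne_top_of_le_ne_top ?_ (measure_mono hsub)
    rw [Real.volume_Ioc]
    exact ENNReal.ofReal_ne_top
  rw [cm_eq, inter_eq_left.2 hsub, ← mul_assoc, ← ENNReal.ofReal_mul hη.le,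
    ← ENNReal.ofReal_toReal hne, ← ENNReal.ofReal_mul (by positivity),
    ENNReal.ofReal_le_ofReal_iff hB0] at h4
  rw [le_div_iff₀ hlogq]
  have h5 : 16 * Real.pi * τ * (Real.log (b / a) / (8 * τ) * (2 * Real.pi)⁻¹ *
      (volume (Far ψ c₀ τ b)).toReal) = (volume (Far ψ c₀ τ b)).toReal * Real.log (b / a) := by
    field_simp
    ring
  rw [← h5]
  gcongr

end Pool.Agent.Q186.Cusp.Typ
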