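import Pool.Agent.Q186.Cusp.Typ2

/-!
# The exterior map at the cusp: angular limit
-/

set_option autoImplicit false

open Complex Metric Set Filter Topology MeasureTheory N62a1eb23

namespace Pool.Agent.Q186.Cusp.Typ

open Pool.Agent.H713R2
open Pool.Agent.Q186.Cen
open Pool.Agent.H712R2 (rr)
open Real (posLog circleAverage)
open Pool.Agent.Y736.HG (psi_ne)

variable {d : ℕ} {β ψ : ℂ → ℂ}

theorem log_inv_pos {t : ℝ} (ht : 0 < t) (ht1 : t < 1) : 0 < Real.log (1 / t) := by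
  apply Real.log_pos
  rw [lt_div_iff₀ ht]
  linarith

/-- The lower bound at all points. -/
theorem low_all (hd : 2 ≤ d) {δ : ℝ} (hδ : 0 < δ) (hδ1 : δ ≤ 1) :
    ∃ t₀ : ℝ, 0 < t₀ ∧ t₀ < 1 ∧ ∀ ψ : ℂ → ℂ, IsExteriorMap (multibrotSet d) ψ → ∀ w : ℂ, 1 < ‖w‖ →
      Real.log ‖w‖ ≤ t₀ →
        ((1 - δ) * kap d) ^ 2 ≤ Real.log (1 / Real.log ‖w‖) ^ 2 * ‖ψ w - rr d‖ := by
  have hk := kap_pos hd
  obtain ⟨r₀, hr₀, H⟩ := green_up hd hδ hδ1
  have hsr₀ : 0 < √r₀ := by positivity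
  refine ⟨min (1 / 2) (Real.exp (-(kap d / √r₀))), lt_min (by norm_num) (Real.exp_pos _),
    lt_of_le_of_lt (min_le_left _ _) (by norm_num), ?_⟩
  intro ψ hψ w hw hwt
  obtain ⟨g, hg⟩ : ∃ g, g = Real.log ‖w‖ := ⟨_, rfl⟩
  have hg0 : 0 < g := by rw [hg]; exact Real.log_pos hw
  rw [← hg] at hwt ⊢
  have hg1 : g ≤ 1 / 2 := hwt.trans (min_le_left _ _)
  have hg2 : g ≤ Real.exp (-(kap d / √r₀)) := hwt.trans (min_le_right _ _)
  have hL0 := log_inv_pos hg0 (by linarith)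
  have e0 : Real.log (1 / g) = -Real.log g := by rw [one_div, Real.log_inv]
  obtain ⟨r, hr⟩ : ∃ r, r = ‖ψ w - rr d‖ := ⟨_, rfl⟩
  have hr0 : 0 < r := by
    rw [hr, norm_pos_iff, sub_ne_zero]
    exact psi_ne hψ (cusp_mem hd) hw
  have hδ2 : 0 ≤ 1 - δ := by linarith
  rw [← hr]
  rcases le_or_gt r r₀ with h | h
  · have h1 := H r hr0 h (ψ w) hr.ge _ (rate_psi hd hψ hw)
    rw [kap_eq hd, ← hg] at h1
    have h2 := Real.log_le_log hg0 h1
    rw [Real.log_exp] at h2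
    have h3 : (1 - δ) * (kap d / √r) ≤ Real.log (1 / g) := by rw [e0]; linarith
    have hsr : 0 < √r := by positivity
    rw [← mul_div_assoc, div_le_iff₀ hsr] at h3
    have h4 : ((1 - δ) * kap d) ^ 2 ≤ (Real.log (1 / g) * √r) ^ 2 := by
      have : 0 ≤ (1 - δ) * kap d := by positivity
      gcongr
    rwa [mul_pow (Real.log (1 / g)), Real.sq_sqrt hr0.le] at h4
  · have h2 := Real.log_le_log hg0 hg2
    rw [Real.log_exp] at h2
    have h3 : kap d / √r₀ ≤ Real.log (1 / g) := by rw [e0]; linarith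
    rw [div_le_iff₀ hsr₀] at h3
    have h4 : kap d ^ 2 ≤ (Real.log (1 / g) * √r₀) ^ 2 := by gcongr
    rw [mul_pow, Real.sq_sqrt hr₀.le] at h4
    have h5 : Real.log (1 / g) ^ 2 * r₀ ≤ Real.log (1 / g) ^ 2 * r := by gcongr
    have h6 : ((1 - δ) * kap d) ^ 2 ≤ (1 * kap d) ^ 2 := by
      gcongr
      linarith
    rw [one_mul] at h6
    linarith

theorem HH_psi (hβ : IsBeta d β) (hψ : IsExteriorMap (multibrotSet d) ψ) {c₀ : ℂ}
    (hc₀ : c₀ ∈ multibrotSet d) {z : ℂ} (h0 : z ≠ 0) (hz : ‖z‖ < 1) :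
    HH β c₀ z = Real.log ‖z‖ + Real.log ‖ψ z⁻¹ - c₀‖ := by
  have h1 := ne_zero hβ hc₀ hz
  have h2 : 0 < ‖z‖ := norm_pos_iff.2 h0
  rw [psi_inv hβ hψ h0 hz]
  have e : z⁻¹ * β z - c₀ = z⁻¹ * (β z - c₀ * z) := by field_simp
  unfold HH
  rw [e, norm_mul, norm_inv, Real.log_mul (inv_ne_zero h2.ne') (norm_ne_zero_iff.2 h1),
    Real.log_inv]
  ring

theorem log_bound {δ : ℝ} (hδ : 0 < δ) (hδ1 : δ ≤ 1 / 4) :
    0 ≤ Real.log ((1 + δ) ^ 2 / (1 - δ)) ∧ Real.log ((1 + δ) ^ 2 / (1 - δ)) ≤ 4 * δ := by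
  have h1 : 0 < 1 - δ := by linarith
  constructor
  · apply Real.log_nonneg
    rw [le_div_iff₀ h1]
    nlinarith
  · rw [Real.log_div (by positivity) h1.ne', Real.log_pow]
    have h2 : Real.log (1 + δ) ≤ δ := by
      have := Real.log_le_sub_one_of_pos (show 0 < 1 + δ by linarith)
      linarith
    have h3 : -Real.log (1 - δ) ≤ 2 * δ := by
      rw [← Real.log_inv]
      have := Real.log_le_sub_one_of_pos (show 0 < (1 - δ)⁻¹ by positivity)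
      have h4 : (1 - δ)⁻¹ ≤ 1 + 2 * δ := by
        rw [inv_le_comm₀ h1 (by linarith), inv_le_iff_one_le_mul₀ (by linarith)]
        nlinarith
      linarith
    push_cast
    linarith

/-- The comparison of the scales `t` and `t ^ (1 + δ)`. -/
theorem pow_scale {δ : ℝ} (hδ : 0 < δ) : ∃ t₀ : ℝ, 0 < t₀ ∧ ∀ t : ℝ, 0 < t → t ≤ t₀ →
    t * t ^ δ ≤ t / 2 := by
  have h1 : Tendsto (fun t : ℝ => t ^ δ) (𝓝[>] 0) (𝓝 0) := by
    have := (Real.continuousAt_rpow_const 0 δ (Or.inr hδ.le)).tendsto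
    rw [Real.zero_rpow hδ.ne'] at this
    exact this.mono_left nhdsWithin_le_nhds
  have h2 := h1.eventually (gt_mem_nhds (show (0 : ℝ) < 1 / 2 by norm_num))
  rw [eventually_nhdsWithin_iff, Metric.eventually_nhds_iff] at h2
  obtain ⟨ε, hε, H⟩ := h2
  refine ⟨ε / 2, by positivity, fun t ht htt => ?_⟩
  have h3 := H (show dist t 0 < ε by rw [Real.dist_0_eq_abs, abs_of_pos ht]; linarith) ht
  nlinarith

set_option maxHeartbeats 1000000 in
/-- **The upper bound in angles.** -/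
theorem ang_up (hd : 2 ≤ d) (hψ : IsExteriorMap (multibrotSet d) ψ) {δ K : ℝ} (hδ : 0 < δ)
    (hδ1 : δ ≤ 1 / 4) (hK : 0 ≤ K) :
    ∃ t₀ : ℝ, 0 < t₀ ∧ t₀ < 1 ∧ ∀ w : ℂ, 1 < ‖w‖ → Real.log ‖w‖ ≤ t₀ →
      ‖w - 1‖ ≤ K * (‖w‖ - 1) → Real.log (1 / Real.log ‖w‖) ^ 2 * ‖ψ w - rr d‖ ≤
        kap d ^ 2 * Real.exp (Real.log ‖w‖ + (1 + 8 * (K + 1)) ^ 2 * (8 * δ)) := by
  have hk := kap_pos hd
  obtain ⟨β, hβ⟩ := exists_beta (d := d) hd
  obtain ⟨t₁, ht₁, ht₁1, H₁⟩ := low_all hd hδ (by linarith)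
  obtain ⟨t₂, ht₂, H₂⟩ := pow_scale hδ
  have hray := ray_lim hd hψ
  have h1δ : kap d ^ 2 < ((1 + δ) * kap d) ^ 2 := by
    rw [mul_pow]
    have : (1 : ℝ) < (1 + δ) ^ 2 := by nlinarith
    nlinarith [sq_nonneg (kap d), pow_pos hk 2]
  have hev := hray.eventually (gt_mem_nhds h1δ)
  rw [eventually_nhdsWithin_iff, Metric.eventually_nhds_iff] at hev
  obtain ⟨ε, hε, H₃⟩ := hev
  refine ⟨min (1 / 2) (min t₁ (min t₂ (ε / 2))), by positivity,
    lt_of_le_of_lt (min_le_left _ _) (by norm_num), ?_⟩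
  intro w hw hwt hwK
  obtain ⟨t, ht⟩ : ∃ t, t = Real.log ‖w‖ := ⟨_, rfl⟩
  have ht0 : 0 < t := by rw [ht]; exact Real.log_pos hw
  have hwe : ‖w‖ = Real.exp t := by rw [ht, Real.exp_log (by linarith)]
  rw [← ht] at hwt ⊢
  have htt0 : t ≤ 1 / 2 := hwt.trans (min_le_left _ _)
  have htt1 : t ≤ t₁ := hwt.trans ((min_le_right _ _).trans (min_le_left _ _))
  have htt2 : t ≤ t₂ := hwt.trans ((min_le_right _ _).trans ((min_le_right _ _).trans
    (min_le_left _ _)))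
  have htt3 : t ≤ ε / 2 := hwt.trans ((min_le_right _ _).trans ((min_le_right _ _).trans
    (min_le_right _ _)))
  obtain ⟨L, hL⟩ : ∃ L, L = Real.log (1 / t) := ⟨_, rfl⟩
  have hL0 : 0 < L := by rw [hL]; exact log_inv_pos ht0 (by linarith)
  rw [← hL]
  -- the smaller scale
  obtain ⟨τ, hτ⟩ : ∃ τ, τ = t * t ^ δ := ⟨_, rfl⟩
  have htδ : 0 < t ^ δ := Real.rpow_pos_of_pos ht0 δ
  have hτ0 : 0 < τ := by rw [hτ]; positivity
  have hτt : τ ≤ t / 2 := by rw [hτ]; exact H₂ t ht0 htt2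
  have hLτ : Real.log (1 / τ) = (1 + δ) * L := by
    rw [hτ, hL, one_div, one_div, Real.log_inv, Real.log_inv, Real.log_mul ht0.ne' htδ.ne',
      Real.log_rpow ht0]
    ring
  obtain ⟨a, ha⟩ : ∃ a, a = ((1 - δ) * kap d / ((1 + δ) * L)) ^ 2 := ⟨_, rfl⟩
  have hδ2 : 0 < 1 - δ := by linarith
  have ha0 : 0 < a := by rw [ha]; positivity
  obtain ⟨s, hs⟩ : ∃ s, s = Real.exp (-τ) := ⟨_, rfl⟩
  have hs0 : 0 < s := by rw [hs]; exact Real.exp_pos _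
  have hs1 : s < 1 := by rw [hs, Real.exp_lt_one_iff]; linarith
  have hlogs : Real.log s = -τ := by rw [hs, Real.log_exp]
  have hmem := cusp_mem hd
  have hB : ∀ θ : ℝ, -τ + Real.log a ≤ HH β (rr d) (circleMap 0 s θ) := by
    intro θ
    have hzn : ‖circleMap 0 s θ‖ = s := by rw [norm_circleMap_zero, abs_of_pos hs0]
    have hz0 : circleMap 0 s θ ≠ 0 := by rw [← norm_pos_iff, hzn]; exact hs0
    rw [HH_psi hβ hψ hmem hz0 (by rw [hzn]; exact hs1), hzn, hlogs]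
    have hn1 : 1 < ‖(circleMap 0 s θ)⁻¹‖ := by
      rw [norm_inv, hzn]
      exact (one_lt_inv₀ hs0).2 hs1
    have hn2 : Real.log ‖(circleMap 0 s θ)⁻¹‖ = τ := by
      rw [norm_inv, hzn, Real.log_inv, hlogs, neg_neg]
    have h1 := H₁ ψ hψ _ hn1 (by rw [hn2]; linarith)
    rw [hn2, hLτ] at h1
    have h2 : a ≤ ‖ψ (circleMap 0 s θ)⁻¹ - rr d‖ := by
      rw [ha, div_pow, div_le_iff₀ (by positivity)]
      linarith
    have := Real.log_le_log ha0 h2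
    linarith
  -- the point
  obtain ⟨z, hz⟩ : ∃ z : ℂ, z = w⁻¹ := ⟨_, rfl⟩
  have hw0 : w ≠ 0 := by rw [← norm_pos_iff]; linarith
  have hz0 : z ≠ 0 := by rw [hz]; exact inv_ne_zero hw0
  have hzn : ‖z‖ = Real.exp (-t) := by rw [hz, norm_inv, hwe, Real.exp_neg]
  have hexpt : 1 / 2 ≤ Real.exp (-t) := by
    have := Real.add_one_le_exp (-t)
    linarith
  have hsz : t / 4 ≤ s - ‖z‖ := by
    rw [hzn, hs]
    have e : Real.exp (-τ) = Real.exp (-t) * Real.exp (t - τ) := by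
      rw [← Real.exp_add]
      congr 1
      ring
    rw [e]
    have h1 := Real.add_one_le_exp (t - τ)
    have h2 : t / 2 ≤ Real.exp (t - τ) - 1 := by linarith
    have h3 : 1 / 2 * (t / 2) ≤ Real.exp (-t) * (Real.exp (t - τ) - 1) := by gcongr
    linarith
  have hzs : ‖z‖ < s := by linarith
  have hz1 : ‖z‖ < 1 := hzs.trans hs1
  have hwm : ‖w‖ - 1 ≤ 2 * t := by
    rw [hwe]
    have h1 := Real.abs_exp_sub_one_le (x := t) (by rw [abs_of_pos ht0]; linarith)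
    rw [abs_of_pos ht0] at h1
    exact (le_abs_self _).trans h1
  have hzK : ‖z - (‖z‖ : ℝ)‖ ≤ 8 * (K + 1) * (s - ‖z‖) := by
    have e : z - ((‖z‖ : ℝ) : ℂ) = z * ((((‖w‖ : ℝ) : ℂ) - w) * ((‖z‖ : ℝ) : ℂ)) := by
      rw [hz, norm_inv, Complex.ofReal_inv]
      have : ((‖w‖ : ℝ) : ℂ) ≠ 0 := by
        exact_mod_cast (norm_ne_zero_iff.2 hw0)
      field_simp
    rw [e, norm_mul, norm_mul, Complex.norm_real, norm_norm]
    have h1 : ‖((‖w‖ : ℝ) : ℂ) - w‖ ≤ (K + 1) * (2 * t) := by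
      have e2 : ((‖w‖ : ℝ) : ℂ) - w = ((‖w‖ - 1 : ℝ) : ℂ) - (w - 1) := by push_cast; ring
      rw [e2]
      refine (norm_sub_le _ _).trans ?_
      rw [Complex.norm_real, Real.norm_of_nonneg (by linarith)]
      have h2 : K * (‖w‖ - 1) ≤ K * (2 * t) := by gcongr
      linarith
    have h2 : ‖z‖ * (‖((‖w‖ : ℝ) : ℂ) - w‖ * ‖z‖) ≤ 1 * ((K + 1) * (2 * t) * 1) := by
      gcongr
    have h3 : 8 * (K + 1) * (t / 4) ≤ 8 * (K + 1) * (s - ‖z‖) := by gcongr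
    linarith
  obtain ⟨-, hharn⟩ := harnack hβ hmem hs1 hB hzs (by positivity) hzK
  -- the real point
  have hrz0 : ((‖z‖ : ℝ) : ℂ) ≠ 0 := by exact_mod_cast (norm_ne_zero_iff.2 hz0)
  have hrzn : ‖((‖z‖ : ℝ) : ℂ)‖ = ‖z‖ := by rw [Complex.norm_real, norm_norm]
  have hinv : ((‖z‖ : ℝ) : ℂ)⁻¹ = ((Real.exp t : ℝ) : ℂ) := by
    rw [hzn, ← Complex.ofReal_inv, Real.exp_neg, inv_inv]
  have h3 := H₃ (show dist t 0 < ε by rw [Real.dist_0_eq_abs, abs_of_pos ht0]; linarith) ht0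
  rw [← hL] at h3
  have hD0 : 0 < ‖ψ (Real.exp t : ℝ) - rr d‖ := by
    rw [norm_pos_iff, sub_ne_zero]
    apply psi_ne hψ hmem
    rw [Complex.norm_real, Real.norm_of_nonneg (Real.exp_pos t).le]
    exact Real.one_lt_exp_iff.2 ht0
  have hreal : HH β (rr d) ((‖z‖ : ℝ) : ℂ) - (-τ + Real.log a) ≤ 8 * δ := by
    rw [HH_psi hβ hψ hmem hrz0 (by rw [hrzn]; exact hz1), hinv, hrzn, hzn, Real.log_exp]
    have h4 : Real.log ‖ψ (Real.exp t : ℝ) - rr d‖ - Real.log a ≤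
        2 * Real.log ((1 + δ) ^ 2 / (1 - δ)) := by
      rw [← Real.log_div hD0.ne' ha0.ne', show (2 : ℝ) * Real.log ((1 + δ) ^ 2 / (1 - δ)) =
        Real.log (((1 + δ) ^ 2 / (1 - δ)) ^ 2) by rw [Real.log_pow]; push_cast; ring]
      apply Real.log_le_log (by positivity)
      rw [div_le_iff₀ ha0, ha]
      have e : ((1 + δ) ^ 2 / (1 - δ)) ^ 2 * ((1 - δ) * kap d / ((1 + δ) * L)) ^ 2 =
          ((1 + δ) * kap d) ^ 2 / L ^ 2 := by
        field_simp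
      rw [e, le_div_iff₀ (by positivity)]
      linarith
    have h5 := (log_bound hδ hδ1).2
    linarith
  have hfin : HH β (rr d) z - (-τ + Real.log a) ≤ (1 + 8 * (K + 1)) ^ 2 * (8 * δ) := by
    refine hharn.trans ?_
    gcongr
  have hDw : 0 < ‖ψ w - rr d‖ := by
    rw [norm_pos_iff, sub_ne_zero]
    exact psi_ne hψ hmem hw
  rw [HH_psi hβ hψ hmem hz0 hz1, hzn, Real.log_exp, hz, inv_inv] at hfin
  have h6 : Real.log ‖ψ w - rr d‖ ≤ Real.log a + (t + (1 + 8 * (K + 1)) ^ 2 * (8 * δ)) := by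
    linarith
  have h7 := Real.exp_le_exp.2 h6
  rw [Real.exp_log hDw, Real.exp_add, Real.exp_log ha0] at h7
  have h8 : L ^ 2 * a ≤ kap d ^ 2 := by
    have e : L ^ 2 * a = ((1 - δ) / (1 + δ)) ^ 2 * kap d ^ 2 := by
      rw [ha]
      field_simp
    rw [e]
    have h9 : (1 - δ) / (1 + δ) ≤ 1 := by
      rw [div_le_one (by linarith)]
      linarith
    have h10 : ((1 - δ) / (1 + δ)) ^ 2 ≤ 1 := pow_le_one₀ (by positivity) h9
    nlinarith [sq_nonneg (kap d)]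
  calc L ^ 2 * ‖ψ w - rr d‖ ≤ L ^ 2 * (a * Real.exp (t + (1 + 8 * (K + 1)) ^ 2 * (8 * δ))) := by
        gcongr
    _ = L ^ 2 * a * Real.exp (t + (1 + 8 * (K + 1)) ^ 2 * (8 * δ)) := by ring
    _ ≤ _ := by gcongr

end Pool.Agent.Q186.Cusp.Typ
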