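import Pool.Agent.Q186.Cusp.Typ3

/-!
# The exterior map at the cusp: angular limit and approximate limit
-/

set_option autoImplicit false

open Complex Metric Set Filter Topology MeasureTheory N62a1eb23

namespace Pool.Agent.Q186.Cusp.Typ

open Pool.Agent.H713R2
open Pool.Agent.Q186.Cen
open Pool.Agent.H712R2 (rr)
open Pool.Agent.Y736.HD (Ang Ang_sub vol_Ang_ne)
open Pool.Agent.Y736.HG (psi_ne ae_land)

variable {d : ℕ} {β ψ : ℂ → ℂ}

theorem tendsto_log_inv : Tendsto (fun t : ℝ => Real.log (1 / t)) (𝓝[>] 0) atTop := by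
  have h3 := tendsto_neg_atBot_atTop.comp Real.tendsto_log_nhdsGT_zero
  refine h3.congr fun t => ?_
  rw [one_div, Real.log_inv]
  rfl

/-- **The angular limit.** -/
theorem angular (hd : 2 ≤ d) (hψ : IsExteriorMap (multibrotSet d) ψ) (K : ℝ) :
    Tendsto (fun w : ℂ => Real.log (1 / ‖w - 1‖) ^ 2 * ‖ψ w - rr d‖)
      (𝓝[{w : ℂ | 1 < ‖w‖ ∧ ‖w - 1‖ ≤ K * (‖w‖ - 1)}] 1) (𝓝 (kap d ^ 2)) := by
  have hk := kap_pos hd
  obtain ⟨l, hl⟩ : ∃ l, l = 𝓝[{w : ℂ | 1 < ‖w‖ ∧ ‖w - 1‖ ≤ K * (‖w‖ - 1)}] (1 : ℂ) := ⟨_, rfl⟩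
  rw [← hl]
  have hmem : ∀ᶠ w in l, 1 < ‖w‖ ∧ ‖w - 1‖ ≤ K * (‖w‖ - 1) := by
    rw [hl]
    exact self_mem_nhdsWithin
  have hnear : ∀ ε : ℝ, 0 < ε → ∀ᶠ w in l, ‖w - 1‖ < ε := by
    intro ε hε
    rw [hl]
    have := Metric.ball_mem_nhds (1 : ℂ) hε
    filter_upwards [mem_nhdsWithin_of_mem_nhds this] with w hw
    rwa [mem_ball, dist_eq_norm] at hw
  have hlogw : ∀ᶠ w in l, 0 < Real.log ‖w‖ ∧ Real.log ‖w‖ ≤ ‖w - 1‖ ∧
      ‖w - 1‖ ≤ (2 * |K| + 1) * Real.log ‖w‖ := by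
    filter_upwards [hmem, hnear (1 / 2) (by norm_num)] with w hw hw2
    obtain ⟨h1, h2⟩ := hw
    have h3 : ‖w‖ - 1 ≤ ‖w - 1‖ := by
      have := norm_sub_norm_le w 1
      rwa [norm_one] at this
    have h4 : Real.log ‖w‖ ≤ ‖w‖ - 1 := Real.log_le_sub_one_of_pos (by linarith)
    have h5 : ‖w‖ - 1 ≤ 2 * Real.log ‖w‖ := by
      have h6 := Real.one_sub_inv_le_log_of_pos (show 0 < ‖w‖ by linarith)
      have h7 : (‖w‖ - 1) / 2 ≤ 1 - ‖w‖⁻¹ := by
        have h8 : 1 - ‖w‖⁻¹ = (‖w‖ - 1) / ‖w‖ := by field_simp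
        rw [h8]
        apply div_le_div_of_nonneg_left (by linarith) (by linarith)
        linarith
      linarith
    refine ⟨Real.log_pos h1, by linarith, ?_⟩
    have h6 : 0 < Real.log ‖w‖ := Real.log_pos h1
    have h7 : K * (‖w‖ - 1) ≤ |K| * (2 * Real.log ‖w‖) := by
      calc K * (‖w‖ - 1) ≤ |K| * (‖w‖ - 1) := by
            apply mul_le_mul_of_nonneg_right (le_abs_self K)
            linarith
        _ ≤ _ := by gcongr
    linarith
  have hlim0 : Tendsto (fun w : ℂ => Real.log ‖w‖) l (𝓝[>] 0) := by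
    rw [tendsto_nhdsWithin_iff]
    refine ⟨?_, hlogw.mono fun w hw => hw.1⟩
    rw [Metric.tendsto_nhds]
    intro ε hε
    filter_upwards [hlogw, hnear ε hε] with w hw hw2
    rw [Real.dist_0_eq_abs, abs_of_pos hw.1]
    linarith [hw.2.1]
  have hL : Tendsto (fun w : ℂ => Real.log (1 / Real.log ‖w‖)) l atTop := tendsto_log_inv.comp hlim0
  -- the main part
  have hmain : Tendsto (fun w : ℂ => Real.log (1 / Real.log ‖w‖) ^ 2 * ‖ψ w - rr d‖) l
      (𝓝 (kap d ^ 2)) := by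
    apply tendsto_of_delta (by positivity)
    intro η hη hη1
    obtain ⟨M, hM⟩ : ∃ M, M = (1 + 8 * (|K| + 1)) ^ 2 * 8 := ⟨_, rfl⟩
    have hM0 : 8 ≤ M := by
      rw [hM]
      have h1 : (1 : ℝ) ≤ (1 + 8 * (|K| + 1)) ^ 2 := by
        apply one_le_pow₀
        have := abs_nonneg K
        linarith
      linarith
    obtain ⟨δ, hδ⟩ : ∃ δ, δ = η / (4 * M) := ⟨_, rfl⟩
    have hδ0 : 0 < δ := by rw [hδ]; positivity
    have hδM : M * δ = η / 4 := by rw [hδ]; field_simp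
    have hδη : δ ≤ η / 32 := by
      have : 8 * δ ≤ M * δ := by gcongr
      linarith
    obtain ⟨t₁, ht₁, ht₁1, H₁⟩ := low_all hd hδ0 (by linarith)
    obtain ⟨t₂, ht₂, ht₂1, H₂⟩ := ang_up hd hψ hδ0 (by linarith) (abs_nonneg K)
    have hsm : ∀ ε : ℝ, 0 < ε → ∀ᶠ w in l, Real.log ‖w‖ ≤ ε := by
      intro ε hε
      filter_upwards [hlogw, hnear ε hε] with w hw hw2
      linarith [hw.2.1]
    filter_upwards [hmem, hsm t₁ ht₁, hsm t₂ ht₂, hsm (η / 4) (by positivity)] with w hw h1 h2 h3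
    constructor
    · refine le_trans ?_ (H₁ ψ hψ w hw.1 h1)
      rw [mul_pow]
      have : 1 - η ≤ (1 - δ) ^ 2 := by nlinarith
      gcongr
    · have hK' : ‖w - 1‖ ≤ |K| * (‖w‖ - 1) := by
        refine hw.2.trans ?_
        apply mul_le_mul_of_nonneg_right (le_abs_self K)
        linarith [hw.1]
      refine (H₂ w hw.1 h2 hK').trans ?_
      rw [mul_comm (1 + η)]
      apply mul_le_mul_of_nonneg_left _ (sq_nonneg _)
      have h4 : Real.log ‖w‖ + (1 + 8 * (|K| + 1)) ^ 2 * (8 * δ) ≤ η / 2 := by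
        have : (1 + 8 * (|K| + 1)) ^ 2 * (8 * δ) = M * δ := by rw [hM]; ring
        rw [this, hδM]
        linarith
      calc Real.exp (Real.log ‖w‖ + (1 + 8 * (|K| + 1)) ^ 2 * (8 * δ)) ≤ Real.exp (η / 2) :=
            Real.exp_le_exp.2 h4
        _ ≤ 1 + η := by
          have h5 := Real.abs_exp_sub_one_le (x := η / 2) (by
            rw [abs_of_pos (by positivity)]
            linarith)
          rw [abs_of_pos (show 0 < η / 2 by positivity)] at h5
          have := le_abs_self (Real.exp (η / 2) - 1)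
          linarith
  -- the ratio of the logarithms
  have hratio : Tendsto (fun w : ℂ => Real.log (1 / ‖w - 1‖) / Real.log (1 / Real.log ‖w‖)) l
      (𝓝 1) := by
    obtain ⟨C, hC⟩ : ∃ C, C = 2 * |K| + 1 := ⟨_, rfl⟩
    have hC1 : 1 ≤ C := by
      rw [hC]
      have := abs_nonneg K
      linarith
    have h1 : Tendsto (fun w : ℂ => 1 - Real.log C / Real.log (1 / Real.log ‖w‖)) l (𝓝 1) := by
      have := (hL.const_div_atTop (Real.log C)).const_sub 1
      simpa using this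
    refine tendsto_of_tendsto_of_tendsto_of_le_of_le' h1 tendsto_const_nhds ?_ ?_
    · filter_upwards [hlogw, hL.eventually_gt_atTop 0] with w hw hw2
      rw [le_div_iff₀ hw2, sub_mul, one_mul, div_mul_cancel₀ _ hw2.ne']
      have h2 : 0 < ‖w - 1‖ := hw.1.trans_le hw.2.1
      rw [one_div, one_div, Real.log_inv, Real.log_inv]
      have h3 := Real.log_le_log h2 hw.2.2
      rw [← hC, Real.log_mul (by positivity) hw.1.ne'] at h3
      linarith
    · filter_upwards [hlogw, hL.eventually_gt_atTop 0] with w hw hw2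
      rw [div_le_one hw2]
      have h2 : 0 < ‖w - 1‖ := hw.1.trans_le hw.2.1
      rw [one_div, one_div, Real.log_inv, Real.log_inv]
      have h3 := Real.log_le_log hw.1 hw.2.1
      linarith
  have hfin := (hratio.pow 2).mul hmain
  rw [one_pow, one_mul] at hfin
  refine hfin.congr' ?_
  filter_upwards [hL.eventually_gt_atTop 0] with w hw2
  rw [div_pow]
  field_simp

/-- The angles in `(0, t]` of the rays which land at a point `ζ` such that
`log (1 / θ) ^ 2 * |ζ - κ|` is within `ε` of the limit. -/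
def Good (d : ℕ) (ψ : ℂ → ℂ) (ε t : ℝ) : Set ℝ :=
  {θ : ℝ | θ ∈ Ioc 0 t ∧ ∃ ζ : ℂ, Tendsto (fun ρ : ℝ => ψ (ρ * exp (θ * I))) (𝓝[>] 1) (𝓝 ζ) ∧
    |Real.log (1 / θ) ^ 2 * ‖ζ - rr d‖ - kap d ^ 2| ≤ ε}

theorem rpow_tendsto {δ : ℝ} (hδ : 0 < δ) : Tendsto (fun t : ℝ => t ^ δ) (𝓝[>] 0) (𝓝 0) := by
  have := (Real.continuousAt_rpow_const 0 δ (Or.inr hδ.le)).tendsto
  rw [Real.zero_rpow hδ.ne'] at this
  exact this.mono_left nhdsWithin_le_nhds

set_option maxHeartbeats 1000000 in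
/-- The covering of the angles. -/
theorem cover (hd : 2 ≤ d) (hψ : IsExteriorMap (multibrotSet d) ψ) {ε δ : ℝ} (hε : 0 < ε)
    (hεk : ε < kap d ^ 2) (hδ : 0 < δ) (hδ1 : δ ≤ 1 / 4)
    (hδε : (1 + δ) * √(kap d ^ 2 - ε) ≤ (1 - δ) * kap d) :
    ∀ᶠ t in 𝓝[>] (0 : ℝ), 1 - (volume (Good d ψ ε t)).toReal / t ≤
      2 * t ^ δ + 16 * Real.pi * (8 * δ + 8 * t ^ δ) / Real.log (1 + ε / kap d ^ 2) := by
  have hk := kap_pos hd
  have hpi := Real.pi_pos
  have hpi3 := Real.pi_gt_three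
  have hδ2 : 0 < 1 - δ := by linarith
  obtain ⟨r₁, hr₁, H₁⟩ := green_up hd hδ (by linarith)
  obtain ⟨r₂, hr₂, H₂⟩ := vol_up hd hδ (by linarith)
  have hray := ray_lim hd hψ
  have h1δ : kap d ^ 2 < ((1 + δ) * kap d) ^ 2 := by
    rw [mul_pow]
    have : (1 : ℝ) < (1 + δ) ^ 2 := by nlinarith
    nlinarith [pow_pos hk 2]
  have hev := hray.eventually (gt_mem_nhds h1δ)
  have hL := tendsto_log_inv
  have hLsq : Tendsto (fun t : ℝ => Real.log (1 / t) ^ 2) (𝓝[>] 0) atTop :=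
    (tendsto_pow_atTop two_ne_zero).comp hL
  filter_upwards [hev, Ioo_mem_nhdsGT (show (0 : ℝ) < 1 / 2 by norm_num),
    hLsq.eventually_ge_atTop (kap d ^ 2 / r₁), hLsq.eventually_ge_atTop (kap d ^ 2 / r₂)]
    with t hray ht htr₁ htr₂
  have ht0 : 0 < t := ht.1
  have ht1 : t < 1 / 2 := ht.2
  obtain ⟨L, hL⟩ : ∃ L, L = Real.log (1 / t) := ⟨_, rfl⟩
  have hL0 : 0 < L := by rw [hL]; exact log_inv_pos ht0 (by linarith)
  rw [← hL] at hray htr₁ htr₂
  have e0 : Real.log t = -L := by rw [hL, one_div, Real.log_inv, neg_neg]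
  have htexp : ∀ x : ℝ, t ^ x = Real.exp (-(x * L)) := by
    intro x
    rw [Real.rpow_def_of_pos ht0, e0]
    congr 1
    ring
  rw [div_le_iff₀ hr₁] at htr₁
  rw [div_le_iff₀ hr₂] at htr₂
  have htδ : 0 < t ^ δ := Real.rpow_pos_of_pos ht0 δ
  -- the radii
  obtain ⟨a, ha⟩ : ∃ a, a = ((1 - δ) * kap d / ((1 + δ) * L)) ^ 2 := ⟨_, rfl⟩
  have ha0 : 0 < a := by rw [ha]; positivity
  obtain ⟨b, hb⟩ : ∃ b, b = (kap d ^ 2 + ε) / ((1 + δ) * L) ^ 2 := ⟨_, rfl⟩
  obtain ⟨r, hr⟩ : ∃ r, r = (kap d ^ 2 - ε) / L ^ 2 := ⟨_, rfl⟩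
  have hr0 : 0 < r := by
    rw [hr]
    apply div_pos (by linarith) (by positivity)
  have hba : 1 + ε / kap d ^ 2 ≤ b / a := by
    have e : b / a = (kap d ^ 2 + ε) / ((1 - δ) ^ 2 * kap d ^ 2) := by
      rw [hb, ha]
      field_simp
    rw [e, le_div_iff₀ (by positivity)]
    have h1 : (1 + ε / kap d ^ 2) * ((1 - δ) ^ 2 * kap d ^ 2) =
        (1 - δ) ^ 2 * (kap d ^ 2 + ε) := by
      field_simp
    rw [h1]
    have h2 : (1 - δ) ^ 2 ≤ 1 := by nlinarith
    have h3 : 0 < kap d ^ 2 + ε := by positivity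
    nlinarith
  have hq : 1 < 1 + ε / kap d ^ 2 := by
    have : 0 < ε / kap d ^ 2 := by positivity
    linarith
  have hlogq : 0 < Real.log (1 + ε / kap d ^ 2) := Real.log_pos hq
  have hab : a < b := by
    have h1 : 1 < b / a := by linarith
    rwa [one_lt_div ha0] at h1
  have hlogba : Real.log (1 + ε / kap d ^ 2) ≤ Real.log (b / a) :=
    Real.log_le_log (by linarith) hba
  -- Green's function
  have haL : a * L ^ 2 ≤ kap d ^ 2 := by
    have e : a * L ^ 2 = ((1 - δ) / (1 + δ)) ^ 2 * kap d ^ 2 := by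
      rw [ha]
      field_simp
    rw [e]
    have h9 : (1 - δ) / (1 + δ) ≤ 1 := by
      rw [div_le_one (by linarith)]
      linarith
    have h10 : ((1 - δ) / (1 + δ)) ^ 2 ≤ 1 := pow_le_one₀ (by positivity) h9
    nlinarith [sq_nonneg (kap d)]
  have har₁ : a ≤ r₁ := by
    have h1 : a * L ^ 2 ≤ r₁ * L ^ 2 := by linarith
    exact le_of_mul_le_mul_right h1 (by positivity)
  have hsa : √a = (1 - δ) * kap d / ((1 + δ) * L) := by
    rw [ha, Real.sqrt_sq (by positivity)]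
  have hS : ∀ w : ℂ, 1 < ‖w‖ → ‖ψ w - rr d‖ ≤ a → Real.log ‖w‖ ≤ t * t ^ δ := by
    intro w hw hwa
    have h1 := H₁ a ha0 har₁ (ψ w) hwa _ (rate_psi hd hψ hw)
    rw [kap_eq hd, hsa] at h1
    refine h1.trans (le_of_eq ?_)
    have e : (1 - δ) * (kap d / ((1 - δ) * kap d / ((1 + δ) * L))) = (1 + δ) * L := by
      field_simp
    rw [e, ← htexp, Real.rpow_add ht0, Real.rpow_one]
  -- the far rays
  have hD0 : 0 < ‖ψ (Real.exp t : ℝ) - rr d‖ := by
    rw [norm_pos_iff, sub_ne_zero]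
    apply psi_ne hψ (cusp_mem hd)
    rw [Complex.norm_real, Real.norm_of_nonneg (Real.exp_pos t).le]
    exact Real.one_lt_exp_iff.2 ht0
  have hlogD : Real.log (‖ψ (Real.exp t : ℝ) - rr d‖ / a) ≤ 8 * δ := by
    have h4 : Real.log (‖ψ (Real.exp t : ℝ) - rr d‖ / a) ≤
        2 * Real.log ((1 + δ) ^ 2 / (1 - δ)) := by
      rw [show (2 : ℝ) * Real.log ((1 + δ) ^ 2 / (1 - δ)) =
        Real.log (((1 + δ) ^ 2 / (1 - δ)) ^ 2) by rw [Real.log_pow]; push_cast; ring]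
      apply Real.log_le_log (by positivity)
      rw [div_le_iff₀ ha0, ha]
      have e : ((1 + δ) ^ 2 / (1 - δ)) ^ 2 * ((1 - δ) * kap d / ((1 + δ) * L)) ^ 2 =
          ((1 + δ) * kap d) ^ 2 / L ^ 2 := by
        field_simp
      rw [e, le_div_iff₀ (by positivity)]
      linarith
    have h5 := (log_bound hδ hδ1).2
    linarith
  have hfar := far_le hd hψ (c₀ := rr d) (cusp_mem hd) (a := a) (b := b) (τ := t)
    (S := t * t ^ δ) (B := 8 * δ + 8 * t ^ δ) ha0 hab ht0 ht1.le (by positivity) hS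
    (by positivity) (by
      have e : 8 / t * (t * t ^ δ) = 8 * t ^ δ := by field_simp
      rw [e]
      linarith)
  have hfar2 : (volume (Far ψ (rr d) t b)).toReal ≤
      t * (16 * Real.pi * (8 * δ + 8 * t ^ δ) / Real.log (1 + ε / kap d ^ 2)) := by
    refine hfar.trans ?_
    rw [← mul_div_assoc]
    have e : t * (16 * Real.pi * (8 * δ + 8 * t ^ δ)) =
        16 * Real.pi * t * (8 * δ + 8 * t ^ δ) := by ring
    rw [e]
    apply div_le_div_of_nonneg_left (by positivity) hlogq hlogba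
  -- the close rays
  have hrr₂ : r ≤ r₂ := by
    rw [hr, div_le_iff₀ (by positivity)]
    linarith
  have hclose : (volume (Ang ψ (rr d) r)).toReal ≤ t * t ^ δ := by
    refine (H₂ ψ hψ r hr0 hrr₂).trans ?_
    rw [kap_eq hd]
    have hsr : √r = √(kap d ^ 2 - ε) / L := by
      rw [hr, Real.sqrt_div (by linarith), Real.sqrt_sq hL0.le]
    have hsq : 0 < √(kap d ^ 2 - ε) := Real.sqrt_pos.2 (by linarith)
    have e : t * t ^ δ = Real.exp (-((1 + δ) * L)) := by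
      rw [← htexp, Real.rpow_add ht0, Real.rpow_one]
    rw [e, hsr]
    apply Real.exp_le_exp.2
    apply neg_le_neg
    have e2 : (1 - δ) * (kap d / (√(kap d ^ 2 - ε) / L)) =
        (1 - δ) * kap d / √(kap d ^ 2 - ε) * L := by
      field_simp
    rw [e2]
    apply mul_le_mul_of_nonneg_right _ hL0.le
    rw [le_div_iff₀ hsq]
    exact hδε
  -- the covering
  obtain ⟨Nl, hNl⟩ : ∃ Nl : Set ℝ, Nl = {θ : ℝ | ¬ ∃ ζ : ℂ,
    Tendsto (fun ρ : ℝ => ψ (ρ * exp (θ * I))) (𝓝[>] 1) (𝓝 ζ)} := ⟨_, rfl⟩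
  have hNl0 : volume Nl = 0 := by
    rw [hNl]
    exact ae_land hd hψ
  have hcov : Ioc 0 t ⊆ Good d ψ ε t ∪ (Ioc 0 (t * t ^ δ) ∪ (Far ψ (rr d) t b ∪
      (Ang ψ (rr d) r ∪ Nl))) := by
    intro θ hθ
    by_cases h1 : θ ≤ t * t ^ δ
    · exact Or.inr (Or.inl ⟨hθ.1, h1⟩)
    rw [not_le] at h1
    by_cases h2 : ∃ ζ : ℂ, Tendsto (fun ρ : ℝ => ψ (ρ * exp (θ * I))) (𝓝[>] 1) (𝓝 ζ)
    swap
    · exact Or.inr (Or.inr (Or.inr (Or.inr (by rw [hNl]; exact h2))))
    obtain ⟨ζ, hζ⟩ := h2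
    by_cases h3 : b < ‖ζ - rr d‖
    · exact Or.inr (Or.inr (Or.inl ⟨hθ, ζ, hζ, h3⟩))
    by_cases h4 : ‖ζ - rr d‖ < r
    · refine Or.inr (Or.inr (Or.inr (Or.inl ⟨⟨hθ.1, hθ.2.trans (by linarith)⟩, ζ, ?_, hζ⟩)))
      rwa [mem_ball, dist_eq_norm]
    left
    refine ⟨hθ, ζ, hζ, ?_⟩
    rw [not_lt] at h3 h4
    have h5 : L ≤ Real.log (1 / θ) := by
      rw [hL]
      apply Real.log_le_log (by positivity)
      apply one_div_le_one_div_of_le hθ.1 hθ.2
    have h6 : Real.log (1 / θ) ≤ (1 + δ) * L := by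
      have h7 := Real.log_le_log (by positivity) h1.le
      rw [Real.log_mul ht0.ne' htδ.ne', Real.log_rpow ht0, e0] at h7
      rw [one_div, Real.log_inv]
      linarith
    rw [abs_le]
    constructor
    · have h7 : L ^ 2 * r ≤ Real.log (1 / θ) ^ 2 * ‖ζ - rr d‖ := by gcongr
      have h8 : L ^ 2 * r = kap d ^ 2 - ε := by
        rw [hr]
        field_simp
      linarith
    · have h6' : 0 ≤ Real.log (1 / θ) := hL0.le.trans h5
      have h7 : Real.log (1 / θ) ^ 2 * ‖ζ - rr d‖ ≤ ((1 + δ) * L) ^ 2 * b := by gcongr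
      have h8 : ((1 + δ) * L) ^ 2 * b = kap d ^ 2 + ε := by
        rw [hb]
        field_simp
      linarith
  have hne : ∀ S : Set ℝ, S ⊆ Ioc 0 t → volume S ≠ ⊤ := by
    intro S hS'
    refine ne_top_of_le_ne_top ?_ (measure_mono hS')
    rw [Real.volume_Ioc]
    exact ENNReal.ofReal_ne_top
  have hG : volume (Good d ψ ε t) ≠ ⊤ := hne _ fun θ h => h.1
  have hFn : volume (Far ψ (rr d) t b) ≠ ⊤ := hne _ fun θ h => h.1
  have hAn := vol_Ang_ne ψ (rr d) r
  have hvol : ENNReal.ofReal t ≤ ENNReal.ofReal ((volume (Good d ψ ε t)).toReal +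
      (t * t ^ δ + ((volume (Far ψ (rr d) t b)).toReal +
        (volume (Ang ψ (rr d) r)).toReal))) := by
    have h1 : volume (Ioc 0 t) = ENNReal.ofReal t := by rw [Real.volume_Ioc, sub_zero]
    rw [← h1]
    refine (measure_mono hcov).trans ?_
    refine (measure_union_le _ _).trans ?_
    rw [ENNReal.ofReal_add ENNReal.toReal_nonneg (by positivity), ENNReal.ofReal_toReal hG]
    gcongr
    refine (measure_union_le _ _).trans ?_
    rw [ENNReal.ofReal_add (by positivity) (by positivity), Real.volume_Ioc, sub_zero]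
    gcongr
    refine (measure_union_le _ _).trans ?_
    rw [ENNReal.ofReal_add ENNReal.toReal_nonneg ENNReal.toReal_nonneg, ENNReal.ofReal_toReal hFn,
      ENNReal.ofReal_toReal hAn]
    refine add_le_add le_rfl ?_
    refine (measure_union_le _ _).trans ?_
    rw [hNl0, add_zero]
  rw [ENNReal.ofReal_le_ofReal_iff (by positivity)] at hvol
  have hfin : t - (volume (Good d ψ ε t)).toReal ≤ t * (2 * t ^ δ +
      16 * Real.pi * (8 * δ + 8 * t ^ δ) / Real.log (1 + ε / kap d ^ 2)) := by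
    rw [mul_add]
    linarith
  have e : 1 - (volume (Good d ψ ε t)).toReal / t =
      (t - (volume (Good d ψ ε t)).toReal) / t := by
    field_simp
  rw [e, div_le_iff₀ ht0]
  linarith

/-- **The approximate limit at the cusp.** -/
theorem typical (hd : 2 ≤ d) (hψ : IsExteriorMap (multibrotSet d) ψ) {ε : ℝ} (hε : 0 < ε) :
    Tendsto (fun t : ℝ => (volume (Good d ψ ε t)).toReal / t) (𝓝[>] 0) (𝓝 1) := by
  have hk := kap_pos hd
  have hpi := Real.pi_pos
  -- smaller `ε`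
  obtain ⟨ε', hε'⟩ : ∃ ε', ε' = min ε (kap d ^ 2 / 2) := ⟨_, rfl⟩
  have hε'0 : 0 < ε' := by rw [hε']; exact lt_min hε (by positivity)
  have hε'1 : ε' ≤ ε := by rw [hε']; exact min_le_left _ _
  have hε'2 : ε' < kap d ^ 2 := by
    have : ε' ≤ kap d ^ 2 / 2 := by rw [hε']; exact min_le_right _ _
    have h2 : 0 < kap d ^ 2 := by positivity
    linarith
  have hle1 : ∀ t : ℝ, 0 < t → (volume (Good d ψ ε t)).toReal / t ≤ 1 := by
    intro t ht
    rw [div_le_one ht]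
    have h1 : volume (Good d ψ ε t) ≤ ENNReal.ofReal t := by
      have h2 : volume (Ioc 0 t) = ENNReal.ofReal t := by rw [Real.volume_Ioc, sub_zero]
      rw [← h2]
      exact measure_mono fun θ h => h.1
    exact ENNReal.toReal_le_of_le_ofReal ht.le h1
  have hmono : ∀ t : ℝ, 0 < t → (volume (Good d ψ ε' t)).toReal / t ≤
      (volume (Good d ψ ε t)).toReal / t := by
    intro t ht
    have h1 : volume (Good d ψ ε t) ≠ ⊤ := by
      have h2 : volume (Ioc 0 t) ≠ ⊤ := by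
        rw [Real.volume_Ioc]
        exact ENNReal.ofReal_ne_top
      exact ne_top_of_le_ne_top h2 (measure_mono fun θ h => h.1)
    have h2 : (volume (Good d ψ ε' t)).toReal ≤ (volume (Good d ψ ε t)).toReal := by
      apply ENNReal.toReal_mono h1
      apply measure_mono
      rintro θ ⟨h3, ζ, h4, h5⟩
      exact ⟨h3, ζ, h4, h5.trans hε'1⟩
    gcongr
  rw [Metric.tendsto_nhds]
  intro η hη
  obtain ⟨q, hq⟩ : ∃ q, q = Real.log (1 + ε' / kap d ^ 2) := ⟨_, rfl⟩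
  have hq0 : 0 < q := by
    rw [hq]
    apply Real.log_pos
    have : 0 < ε' / kap d ^ 2 := by positivity
    linarith
  -- the choice of `δ`
  have hsq : √(kap d ^ 2 - ε') < kap d := by
    rw [Real.sqrt_lt' hk]
    linarith
  have hc1 : Tendsto (fun δ : ℝ => (1 - δ) * kap d - (1 + δ) * √(kap d ^ 2 - ε')) (𝓝 0)
      (𝓝 ((1 - 0) * kap d - (1 + 0) * √(kap d ^ 2 - ε'))) := by
    apply Tendsto.sub
    · exact (tendsto_id.const_sub 1).mul_const _
    · exact (tendsto_id.const_add 1).mul_const _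
  have hc2 := (hc1.mono_left (nhdsWithin_le_nhds (s := Ioi (0 : ℝ)))).eventually
    (lt_mem_nhds (show (0 : ℝ) < (1 - 0) * kap d - (1 + 0) * √(kap d ^ 2 - ε') by linarith))
  obtain ⟨δ, hδ1, hδ2⟩ := (hc2.and (Ioo_mem_nhdsGT (show (0 : ℝ) <
    min (1 / 4) (η * q / (256 * Real.pi)) by positivity))).exists
  have hδ0 : 0 < δ := hδ2.1
  have hδ3 : δ ≤ 1 / 4 := (hδ2.2.trans_le (min_le_left _ _)).le
  have hδ4 : δ < η * q / (256 * Real.pi) := hδ2.2.trans_le (min_le_right _ _)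
  rw [lt_div_iff₀ (by positivity)] at hδ4
  have hcov := cover hd hψ hε'0 hε'2 hδ0 hδ3 (by linarith)
  rw [← hq] at hcov
  have hlim : Tendsto (fun t : ℝ => 2 * t ^ δ + 16 * Real.pi * (8 * δ + 8 * t ^ δ) / q) (𝓝[>] 0)
      (𝓝 (2 * 0 + 16 * Real.pi * (8 * δ + 8 * 0) / q)) := by
    have h1 := rpow_tendsto hδ0
    exact (h1.const_mul 2).add ((((h1.const_mul 8).const_add (8 * δ)).const_mul
      (16 * Real.pi)).div_const q)
  have hlt : 2 * 0 + 16 * Real.pi * (8 * δ + 8 * 0) / q < η := by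
    rw [mul_zero, mul_zero, add_zero, zero_add, div_lt_iff₀ hq0]
    nlinarith
  filter_upwards [hcov, hlim.eventually (gt_mem_nhds hlt), self_mem_nhdsWithin] with t h1 h2 h3
  have ht : 0 < t := h3
  rw [Real.dist_eq, abs_lt]
  have h4 := hle1 t ht
  have h5 := hmono t ht
  constructor <;> linarith

end Pool.Agent.Q186.Cusp.Typ
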