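import Pool.Agent.Q186.Cusp.Mean

/-!
# Harmonic measure near the cusp: the exact exponential rate
-/

set_option autoImplicit false

open Complex Metric Set Filter Topology MeasureTheory N62a1eb23

namespace Pool.Agent.Q186.Cusp

open Pool.Agent.H712R2 (P P_zero P_one P_succ mem_multibrot_iff)
open Pool.Agent.H713R2
open Pool.Agent.Q186.Cen
open Pool.Agent.Q186.Loc
open Real (posLog circleAverage)
open Pool.Agent.H712R2 (sr rr sr_pos sr_pow sr_pow' rr_eq rr_pos sr_lt_one disc_subset real_escape)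
open Pool.Agent.Y736.HD (Ang vol_Ang_ne)

theorem exp_nat_log {d : ℕ} (hd : 2 ≤ d) (n : ℕ) : (d : ℝ) ^ n = Real.exp (n * Real.log d) := by
  have hd0 : (0 : ℝ) < d := by exact_mod_cast (by omega : 0 < d)
  rw [mul_comm, Real.exp_mul, Real.exp_log hd0, Real.rpow_natCast]

theorem le_of_sqrt {A r x₀ : ℝ} (hA : 0 < A) (hr : 0 ≤ r) (hx₀ : 0 ≤ x₀) (h : r ≤ x₀ ^ 2 / A) :
    √(A * r) ≤ x₀ := by
  rw [le_div_iff₀ hA] at h
  rw [Real.sqrt_le_left hx₀]
  linarith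

set_option maxHeartbeats 4000000 in
/-- **Lower bound of the harmonic measure near the cusp.** -/
theorem vol_low {d : ℕ} (hd : 2 ≤ d) {δ : ℝ} (hδ : 0 < δ) (hδ1 : δ ≤ 1) :
    ∃ r₀ : ℝ, 0 < r₀ ∧ ∀ ψ : ℂ → ℂ, IsExteriorMap (multibrotSet d) ψ → ∀ r : ℝ, 0 < r → r ≤ r₀ →
      Real.exp (-((1 + δ) * (Real.pi * Real.log d / √(AA d * r)))) ≤
        (volume (Ang ψ (rr d) r)).toReal := by
  have hpi := Real.pi_pos
  have hpi3 := Real.pi_gt_three
  have hpi4 := Real.pi_le_four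
  have hpi31 : Real.pi < 3.15 := Real.pi_lt_d2
  have hA := AA_pos hd
  have hdR : (1 : ℝ) < d := by exact_mod_cast (by omega : 1 < d)
  have hd0 : (0 : ℝ) < d := by linarith
  have hlogd : 0 < Real.log d := Real.log_pos hdR
  obtain ⟨b, hb⟩ : ∃ b, b = 1 + δ / 8 := ⟨_, rfl⟩
  have hb1 : 1 < b := by rw [hb]; linarith
  have hb2 : b ≤ 9 / 8 := by rw [hb]; linarith
  have hb0 : 0 < b := by linarith
  obtain ⟨r₁, hr₁, hesc⟩ := escape hd (δ := Real.pi * δ / 8) (by positivity) 8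
  obtain ⟨r₂, hr₂, hr₂1, hrate⟩ := rate_cusp hd (δ := 1) one_pos
  obtain ⟨e₀, he₀⟩ : ∃ e₀, e₀ = (1 - 1 / b ^ 2) / 4 := ⟨_, rfl⟩
  have he₀0 : 0 < e₀ := by
    rw [he₀]
    have h1 : 1 / b ^ 2 < 1 := by
      rw [div_lt_one (by positivity)]
      nlinarith
    linarith
  have he₀1 : e₀ ≤ 1 := by
    rw [he₀]
    have h1 : 0 < 1 / b ^ 2 := by positivity
    linarith
  have hlog3 : 0 < Real.log 3 := Real.log_pos (by norm_num)
  obtain ⟨k, hk⟩ : ∃ k : ℕ, 2 * Real.log 3 / e₀ < (d : ℝ) ^ k :=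
    pow_unbounded_of_one_lt _ hdR
  rw [div_lt_iff₀ he₀0] at hk
  obtain ⟨L, hL⟩ : ∃ L, L = Real.log (2 / e₀) + Real.log d := ⟨_, rfl⟩
  have hL0 : 0 < L := by
    rw [hL]
    have : 0 ≤ Real.log (2 / e₀) := by
      apply Real.log_nonneg
      rw [le_div_iff₀ he₀0]
      linarith
    linarith
  obtain ⟨x₀, hx₀⟩ : ∃ x₀, x₀ = min (4 / ((k : ℝ) + 2)) (Real.pi * Real.log d * (δ / 2) / L) :=
    ⟨_, rfl⟩
  have hx₀0 : 0 < x₀ := by
    rw [hx₀]
    exact lt_min (by positivity) (by positivity)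
  refine ⟨min (min r₁ r₂) (x₀ ^ 2 / AA d), lt_min (lt_min hr₁ hr₂) (by positivity), ?_⟩
  intro ψ hψ r hr hrr
  have hrr1 : r ≤ r₁ := (hrr.trans (min_le_left _ _)).trans (min_le_left _ _)
  have hrr2 : r ≤ r₂ := (hrr.trans (min_le_left _ _)).trans (min_le_right _ _)
  have hrr3 : r ≤ x₀ ^ 2 / AA d := hrr.trans (min_le_right _ _)
  obtain ⟨x, hx⟩ : ∃ x, x = √(AA d * r) := ⟨_, rfl⟩
  have hx0 : 0 < x := by rw [hx]; positivity
  have hxx : x ≤ x₀ := by rw [hx]; exact le_of_sqrt hA hr.le hx₀0.le hrr3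
  have hx1 : x * ((k : ℝ) + 2) ≤ 4 := by
    have h1 : x ≤ 4 / ((k : ℝ) + 2) := hxx.trans (by rw [hx₀]; exact min_le_left _ _)
    rwa [le_div_iff₀ (by positivity)] at h1
  have hx2 : x * L ≤ Real.pi * Real.log d * (δ / 2) := by
    have h1 : x ≤ Real.pi * Real.log d * (δ / 2) / L :=
      hxx.trans (by rw [hx₀]; exact min_le_right _ _)
    rwa [le_div_iff₀ hL0] at h1
  rw [← hx]
  obtain ⟨t, ht⟩ : ∃ t, t = r / b ^ 2 := ⟨_, rfl⟩
  have ht0 : 0 < t := by rw [ht]; positivity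
  have htr : t < r := by
    rw [ht, div_lt_iff₀ (by positivity)]
    have hbb : 1 < b ^ 2 := by nlinarith
    exact lt_mul_of_one_lt_right hr hbb
  have hxt : √(AA d * t) = x / b := by
    rw [hx, ht, ← mul_div_assoc, Real.sqrt_div (by positivity), Real.sqrt_sq hb0.le]
  obtain ⟨m, hm⟩ : ∃ m : ℕ, m = ⌈Real.pi * b ^ 2 / x⌉₊ := ⟨_, rfl⟩
  have hm1 : Real.pi * b ^ 2 / x ≤ m := by rw [hm]; exact Nat.le_ceil _
  have hm2 : (m : ℝ) < Real.pi * b ^ 2 / x + 1 := by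
    rw [hm]; exact Nat.ceil_lt_add_one (by positivity)
  -- the orbit has escaped
  have hX : 8 ≤ X d t (m + 1) := by
    apply hesc t ht0 (htr.le.trans hrr1)
    rw [hxt]
    push_cast
    rw [div_le_iff₀ hx0] at hm1
    have h1 : Real.pi + Real.pi * δ / 8 = Real.pi * b := by rw [hb]; ring
    rw [h1, ← mul_div_assoc, le_div_iff₀ hb0]
    nlinarith
  -- the radius
  obtain ⟨ρ, ⟨hρ1, hρ2⟩, hρ3⟩ : ∃ ρ, ρ ∈ Ioo ((t + r) / 2) r ∧
      ρ ∉ (fun z : ℂ => ‖z - rr d‖) '' {z : ℂ | P d (m + 1) z = 0} := by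
    have h1 : (Ioo ((t + r) / 2) r).Infinite := Ioo_infinite (by linarith)
    obtain ⟨ρ, h2, h3⟩ := (h1.sdiff ((finite_zero d m).image _)).nonempty
    exact ⟨ρ, h2, h3⟩
  have hρ0 : 0 < ρ := by linarith
  have hz0 : ∀ z : ℂ, ‖z - rr d‖ = ρ → P d (m + 1) z ≠ 0 := by
    intro z hz h
    exact hρ3 ⟨z, h, hz⟩
  obtain ⟨w, hw⟩ : ∃ w : ℂ, w = ((rr d + t : ℝ) : ℂ) := ⟨_, rfl⟩
  have hwt : ‖w - rr d‖ = t := by
    rw [hw]
    have : ((rr d + t : ℝ) : ℂ) - rr d = (t : ℂ) := by push_cast; ring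
    rw [this, Complex.norm_real, Real.norm_of_nonneg ht0.le]
  have hPw : ‖P d (m + 1) w‖ = X d t (m + 1) := by
    rw [hw, P_real, Complex.norm_real, Real.norm_of_nonneg (X_nonneg hd ht0.le _)]
  have hPw0 : P d (m + 1) w ≠ 0 := by
    rw [← norm_pos_iff, hPw]
    linarith
  have hdm : (0 : ℝ) < (d : ℝ) ^ m := by positivity
  -- the value at the centre of the loop
  obtain ⟨T, hT⟩ : ∃ T, T = ((ρ - ‖w - rr d‖) / (ρ + ‖w - rr d‖) *
    Real.log (‖P d (m + 1) w‖ / 2)) / (d : ℝ) ^ m := ⟨_, rfl⟩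
  have hT1 : e₀ / (d : ℝ) ^ m ≤ T := by
    rw [hT]
    apply div_le_div_of_nonneg_right _ hdm.le
    rw [hwt, hPw]
    have h1 : e₀ ≤ (ρ - t) / (ρ + t) := by
      rw [le_div_iff₀ (by linarith)]
      have h2 : e₀ * (ρ + t) ≤ e₀ * (2 * r) := by
        apply mul_le_mul_of_nonneg_left _ he₀0.le
        linarith
      have h3 : e₀ * (2 * r) = (r - t) / 2 := by
        rw [he₀, ht]
        ring
      linarith
    have h2 : 1 ≤ Real.log (X d t (m + 1) / 2) := by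
      rw [Real.le_log_iff_exp_le (by linarith)]
      have := Real.exp_one_lt_d9
      linarith
    calc e₀ = e₀ * 1 := (mul_one _).symm
      _ ≤ _ := by
        apply mul_le_mul h1 h2 zero_le_one
        linarith
  -- the small disc
  have hS : ∀ w : ℂ, 1 < ‖w‖ → ‖ψ w - rr d‖ ≤ r / 16 →
      Real.log ‖w‖ ≤ Real.log 3 / (d : ℝ) ^ (m + k) := by
    intro w hw hwr
    apply hrate (r / 16) (by linarith) (by linarith) (m + k) _ (ψ w) hwr _ (rate_psi hd hψ hw)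
    have h1 : √(AA d * (r / 16)) = x / 4 := by
      rw [hx, ← mul_div_assoc, Real.sqrt_div (by positivity),
        show (16 : ℝ) = 4 ^ 2 by norm_num, Real.sqrt_sq (by norm_num)]
    rw [h1]
    push_cast
    have h2 : (m : ℝ) * x ≤ Real.pi * b ^ 2 + x := by
      have h3 : (m : ℝ) * x ≤ (Real.pi * b ^ 2 / x + 1) * x :=
        mul_le_mul_of_nonneg_right hm2.le hx0.le
      have h4 : (Real.pi * b ^ 2 / x + 1) * x = Real.pi * b ^ 2 + x := by
        field_simp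
      linarith
    have h3 : Real.pi * b ^ 2 ≤ 4 := by
      have h4 : b ^ 2 ≤ (9 / 8) ^ 2 := by gcongr
      calc Real.pi * b ^ 2 ≤ 3.15 * (9 / 8) ^ 2 := by gcongr
        _ ≤ 4 := by norm_num
    have h5 : ((m : ℝ) + k + 1) * (x / 4) = ((m : ℝ) * x + x * (k + 2) - x) / 4 := by ring
    rw [h5]
    linarith
  have hSS : Real.log 3 / (d : ℝ) ^ (m + k) ≤ e₀ / 2 / (d : ℝ) ^ m := by
    rw [pow_add, div_le_div_iff₀ (by positivity) (by positivity)]
    nlinarith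
  have hmain := le_vol_T hd hψ (cusp_mem hd) (ρ' := r / 16) (ρ := ρ) (r := r)
    (S := Real.log 3 / (d : ℝ) ^ (m + k)) (T := T) (by linarith) (by linarith) hρ2
    (by positivity) hS (fun β hβ s hs0 hs1 => by
      rw [hT]
      exact le_mean_pos hd hβ hψ (cusp_mem hd) hρ0 hs0 hs1 hz0 (by rw [hwt]; linarith) hPw0)
  obtain ⟨V, hV⟩ : ∃ V, V = (volume (Ang ψ (rr d) r)).toReal := ⟨_, rfl⟩
  have hV0 : 0 ≤ V := by rw [hV]; exact ENNReal.toReal_nonneg
  rw [← hV] at hmain ⊢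
  have hVm : e₀ / 2 / (d : ℝ) ^ m ≤ V := by
    have h1 : Real.log (ρ / (r / 16)) ≤ 2 * Real.pi := by
      have h2 : ρ / (r / 16) ≤ 16 := by
        rw [div_le_iff₀ (by linarith)]
        linarith
      have h3 : Real.log (ρ / (r / 16)) ≤ Real.log 16 := Real.log_le_log (by positivity) h2
      have h4 : Real.log 16 ≤ 6 := by
        have h5 : Real.log 16 = 4 * Real.log 2 := by
          rw [show (16 : ℝ) = 2 ^ 4 by norm_num, Real.log_pow]
          norm_num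
        have := Real.log_two_lt_d9
        linarith
      linarith
    have h2 : Real.log (ρ / (r / 16)) * V / (2 * Real.pi) ≤ V := by
      rw [div_le_iff₀ (by positivity), mul_comm V]
      exact mul_le_mul_of_nonneg_right h1 hV0
    have h3 : e₀ / (d : ℝ) ^ m = e₀ / 2 / (d : ℝ) ^ m + e₀ / 2 / (d : ℝ) ^ m := by
      field_simp
      ring
    linarith
  refine le_trans ?_ hVm
  have h1 : e₀ / 2 / (d : ℝ) ^ m = Real.exp (-(Real.log (2 / e₀) + m * Real.log d)) := by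
    rw [neg_add, Real.exp_add, Real.exp_neg, Real.exp_neg, Real.exp_log (by positivity),
      ← exp_nat_log hd, inv_div]
    rfl
  rw [h1]
  apply Real.exp_le_exp.2
  apply neg_le_neg
  have h2 : (m : ℝ) * Real.log d ≤ (Real.pi * b ^ 2 / x + 1) * Real.log d :=
    mul_le_mul_of_nonneg_right hm2.le hlogd.le
  have h3 : (Real.pi * b ^ 2 / x + 1) * Real.log d =
      Real.pi * b ^ 2 * Real.log d / x + Real.log d := by
    ring
  have h4 : L ≤ Real.pi * Real.log d * (δ / 2) / x := by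
    rw [le_div_iff₀ hx0]
    linarith
  have h5 : (1 + δ) * (Real.pi * Real.log d / x) - Real.pi * b ^ 2 * Real.log d / x =
      Real.pi * Real.log d * (1 + δ - b ^ 2) / x := by
    ring
  have h6 : δ / 2 ≤ 1 + δ - b ^ 2 := by
    rw [hb]
    nlinarith
  have h7 : Real.pi * Real.log d * (δ / 2) / x ≤ Real.pi * Real.log d * (1 + δ - b ^ 2) / x := by
    gcongr
  rw [hL] at h4
  linarith

set_option maxHeartbeats 4000000 in
/-- **Upper bound of the harmonic measure near the cusp.** -/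
theorem vol_up {d : ℕ} (hd : 2 ≤ d) {δ : ℝ} (hδ : 0 < δ) (hδ1 : δ ≤ 1) :
    ∃ r₀ : ℝ, 0 < r₀ ∧ ∀ ψ : ℂ → ℂ, IsExteriorMap (multibrotSet d) ψ → ∀ r : ℝ, 0 < r → r ≤ r₀ →
      (volume (Ang ψ (rr d) r)).toReal ≤
        Real.exp (-((1 - δ) * (Real.pi * Real.log d / √(AA d * r)))) := by
  have hpi := Real.pi_pos
  have hA := AA_pos hd
  have hdR : (1 : ℝ) < d := by exact_mod_cast (by omega : 1 < d)
  have hd0 : (0 : ℝ) < d := by linarith
  have hlogd : 0 < Real.log d := Real.log_pos hdR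
  have hlog3 : 0 < Real.log 3 := Real.log_pos (by norm_num)
  obtain ⟨b, hb⟩ : ∃ b, b = 1 + δ / 4 := ⟨_, rfl⟩
  have hb1 : 1 < b := by rw [hb]; linarith
  have hb0 : 0 < b := by linarith
  have hq : 1 < b ^ 2 := by nlinarith
  have hlogq : 0 < Real.log (b ^ 2) := Real.log_pos hq
  obtain ⟨r₂, hr₂, hr₂1, hrate⟩ := rate_cusp hd (δ := Real.pi * δ / 4) (by positivity)
  obtain ⟨C, hC⟩ : ∃ C, C = 2 * Real.pi * Real.log 3 / Real.log (b ^ 2) := ⟨_, rfl⟩
  have hC0 : 0 < C := by rw [hC]; positivity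
  obtain ⟨L, hL⟩ : ∃ L, L = |Real.log C| + 2 * Real.log d + 1 := ⟨_, rfl⟩
  have hL0 : 0 < L := by
    rw [hL]
    have := abs_nonneg (Real.log C)
    linarith
  obtain ⟨x₀, hx₀⟩ : ∃ x₀, x₀ = min (1 / 4) (Real.pi * Real.log d * (δ / 2) / L) :=
    ⟨_, rfl⟩
  have hx₀0 : 0 < x₀ := by
    rw [hx₀]
    exact lt_min (by positivity) (by positivity)
  refine ⟨min (r₂ / b ^ 2) (x₀ ^ 2 / AA d), lt_min (by positivity) (by positivity), ?_⟩
  intro ψ hψ r hr hrr
  have hrr2 : b ^ 2 * r ≤ r₂ := by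
    have h1 : r ≤ r₂ / b ^ 2 := hrr.trans (min_le_left _ _)
    rw [le_div_iff₀ (by positivity)] at h1
    linarith
  have hrr3 : r ≤ x₀ ^ 2 / AA d := hrr.trans (min_le_right _ _)
  obtain ⟨x, hx⟩ : ∃ x, x = √(AA d * r) := ⟨_, rfl⟩
  have hx0 : 0 < x := by rw [hx]; positivity
  have hxx : x ≤ x₀ := by rw [hx]; exact le_of_sqrt hA hr.le hx₀0.le hrr3
  have hx1 : x ≤ 1 / 4 := hxx.trans (by rw [hx₀]; exact min_le_left _ _)
  have hx2 : x * L ≤ Real.pi * Real.log d * (δ / 2) := by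
    have h1 : x ≤ Real.pi * Real.log d * (δ / 2) / L :=
      hxx.trans (by rw [hx₀]; exact min_le_right _ _)
    rwa [le_div_iff₀ hL0] at h1
  rw [← hx]
  have hxq : √(AA d * (b ^ 2 * r)) = b * x := by
    rw [hx, show AA d * (b ^ 2 * r) = b ^ 2 * (AA d * r) by ring, Real.sqrt_mul (by positivity),
      Real.sqrt_sq hb0.le]
  obtain ⟨y, hy⟩ : ∃ y, y = (Real.pi - Real.pi * δ / 4) / (b * x) := ⟨_, rfl⟩
  have hpd : Real.pi * δ ≤ Real.pi := by nlinarith
  have hpi3 := Real.pi_gt_three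
  have hy1 : 1 ≤ y := by
    rw [hy, le_div_iff₀ (by positivity)]
    have h1 : b ≤ 5 / 4 := by rw [hb]; linarith
    have h2 : b * x ≤ 5 / 4 * (1 / 4) := by gcongr
    linarith
  obtain ⟨n', hn'⟩ : ∃ n' : ℕ, n' = ⌊y⌋₊ := ⟨_, rfl⟩
  have hn'1 : (n' : ℝ) ≤ y := by rw [hn']; exact Nat.floor_le (by linarith)
  have hn'2 : y < n' + 1 := by rw [hn']; exact Nat.lt_floor_add_one y
  have hn'3 : 1 ≤ n' := by rw [hn']; exact Nat.le_floor (by exact_mod_cast hy1)
  obtain ⟨n, rfl⟩ := Nat.exists_eq_add_of_le' hn'3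
  have hv := vol_le_q hd hψ (cusp_mem hd) (q := b ^ 2) (r := r) (S := Real.log 3 / (d : ℝ) ^ n)
    hq hr (by positivity) (fun w hw hwr => by
      apply hrate (b ^ 2 * r) (by positivity) hrr2 n _ (ψ w) hwr _ (rate_psi hd hψ hw)
      rw [hxq]
      rw [hy, le_div_iff₀ (by positivity)] at hn'1
      push_cast at hn'1
      exact hn'1)
  refine hv.trans ?_
  have e1 : 2 * Real.pi * (Real.log 3 / (d : ℝ) ^ n) / Real.log (b ^ 2) =
      Real.exp (Real.log C - n * Real.log d) := by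
    rw [Real.exp_sub, Real.exp_log hC0, ← exp_nat_log hd, hC]
    ring
  rw [e1]
  apply Real.exp_le_exp.2
  push_cast at hn'2
  have h1 : (y - 2) * Real.log d ≤ n * Real.log d := by
    apply mul_le_mul_of_nonneg_right _ hlogd.le
    linarith
  have h2 : Real.pi * (1 - δ / 2) / x ≤ y := by
    rw [hy, div_le_div_iff₀ hx0 (by positivity)]
    have h3 : (1 - δ / 2) * b ≤ 1 - δ / 4 := by
      rw [hb]
      nlinarith
    calc Real.pi * (1 - δ / 2) * (b * x) = Real.pi * x * ((1 - δ / 2) * b) := by ring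
      _ ≤ Real.pi * x * (1 - δ / 4) := by gcongr
      _ = _ := by ring
  have h3 : L ≤ Real.pi * Real.log d * (δ / 2) / x := by
    rw [le_div_iff₀ hx0]
    linarith
  have h4 : (1 - δ) * (Real.pi * Real.log d / x) = Real.pi * (1 - δ / 2) / x * Real.log d -
      Real.pi * Real.log d * (δ / 2) / x := by
    ring
  have h5 : Real.pi * (1 - δ / 2) / x * Real.log d ≤ y * Real.log d := by gcongr
  have h6 := le_abs_self (Real.log C)
  rw [hL] at h3
  rw [h4]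
  linarith

end Pool.Agent.Q186.Cusp
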